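import Mathlib
import Pool.Agent.Helper832.AutC.Local

/-!
Class-preserving automorphisms of finite `p`-groups: the families all of whose changes by elements
of the commutator subgroup are induced by class-preserving automorphisms.
-/

set_option autoImplicit false

open scoped commutatorElement

namespace Pool.Agent.N47.AC

open Pool.Agent.Helper832.AutC

section Full

variable {G : Type} [Group G]

/-- every change of the members of `x` by elements of the commutator subgroup is induced by a
class-preserving automorphism -/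
def Full {d : ℕ} (x : Fin d → G) : Prop :=
  ∀ y : Fin d → G, (∀ i, (x i)⁻¹ * y i ∈ commutator G) → ∃ α ∈ AutC G, ∀ i, α (x i) = y i

lemma comm_mem (a b : G) : ⁅a, b⁆ ∈ commutator G :=
  Subgroup.commutator_mem_commutator (Subgroup.mem_top _) (Subgroup.mem_top _)

lemma mem_of_isConj {a b : G} (h : IsConj a b) : a⁻¹ * b ∈ commutator G := by
  obtain ⟨g, hg⟩ := isConj_iff.mp h
  have : a⁻¹ * b = ⁅a⁻¹, g⁆ := by rw [← hg, commutatorElement_def]; group
  rw [this]; exact comm_mem _ _

theorem full_iff [Finite G] {d : ℕ} (x : Fin d → G)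
    (hx : Subgroup.closure (Set.range x) = ⊤) :
    Nat.card (AutC G) = Nat.card (commutator G) ^ d ↔ Full x := by
  classical
  let Φ : AutC G → (Fin d → commutator G) :=
    fun α i => ⟨(x i)⁻¹ * α.1 (x i), mem_of_isConj (α.2 (x i))⟩
  have hinj : Function.Injective Φ := by
    intro α β h
    apply Subtype.ext
    have h1 : (α.1 : G →* G) = (β.1 : G →* G) := by
      refine MonoidHom.eq_of_eqOn_dense hx ?_
      rintro _ ⟨i, rfl⟩
      have h2 := congrArg Subtype.val (congrFun h i)
      exact mul_left_cancel h2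
    exact MulEquiv.ext (fun g => DFunLike.congr_fun h1 g)
  have hcard : Nat.card (Fin d → commutator G) = Nat.card (commutator G) ^ d := by
    rw [Nat.card_fun, Nat.card_eq_fintype_card (α := Fin d), Fintype.card_fin]
  constructor
  · intro h y hy
    have h1 : Nat.card (Fin d → commutator G) ≤ Nat.card (AutC G) := by
      rw [hcard]; exact h.ge
    have hbij : Function.Bijective Φ := hinj.bijective_of_nat_card_le h1
    obtain ⟨α, hα⟩ := hbij.2 (fun i => ⟨(x i)⁻¹ * y i, hy i⟩)
    refine ⟨α.1, α.2, fun i => ?_⟩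
    exact mul_left_cancel (congrArg Subtype.val (congrFun hα i))
  · intro h
    have hbij : Function.Bijective Φ := by
      refine ⟨hinj, fun y => ?_⟩
      obtain ⟨α, hα, hα'⟩ := h (fun i => x i * (y i).1) (fun i => by
        rw [inv_mul_cancel_left]; exact (y i).2)
      refine ⟨⟨α, hα⟩, funext (fun i => Subtype.ext ?_)⟩
      show (x i)⁻¹ * α (x i) = (y i : G)
      rw [hα' i, inv_mul_cancel_left]
    rw [← hcard]
    exact Nat.card_eq_of_bijective Φ hbij

theorem full_quot {d : ℕ} {x : Fin d → G} (hx : Full x) (N : Subgroup G) [N.Normal] :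
    Full (fun i => (x i : G ⧸ N)) := by
  intro y hy
  have h0 : commutator (G ⧸ N) = (commutator G).map (QuotientGroup.mk' N) := by
    rw [commutator_def, commutator_def, Subgroup.map_commutator,
      Subgroup.map_top_of_surjective _ (QuotientGroup.mk'_surjective N)]
  have h1 : ∀ i, ∃ g ∈ commutator G, ((x i * g : G) : G ⧸ N) = y i := by
    intro i
    have h2 := hy i
    rw [h0] at h2
    obtain ⟨g, hg, hgy⟩ := h2
    refine ⟨g, hg, ?_⟩
    have h3 : (g : G ⧸ N) = (x i : G ⧸ N)⁻¹ * y i := hgy
    rw [QuotientGroup.mk_mul, h3, mul_inv_cancel_left]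
  choose g hg hgy using h1
  obtain ⟨α, hα, hαx⟩ := hx (fun i => x i * g i) (fun i => by
    rw [inv_mul_cancel_left]; exact hg i)
  have hle : ∀ β ∈ AutC G, ∀ n ∈ N, β n ∈ N := by
    intro β hβ n hn
    obtain ⟨c, hc⟩ := isConj_iff.mp (hβ n)
    rw [← hc]
    exact Subgroup.Normal.conj_mem inferInstance n hn c
  have hmap : N.map α.toMonoidHom = N := by
    ext n
    constructor
    · rintro ⟨m, hm, rfl⟩
      exact hle α hα m hm
    · intro hn
      refine ⟨α⁻¹ n, hle α⁻¹ ((AutC G).inv_mem hα) n hn, ?_⟩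
      exact MulAut.apply_inv_self G α n
  let β : (G ⧸ N) ≃* (G ⧸ N) := QuotientGroup.congr N N α hmap
  refine ⟨β, ?_, ?_⟩
  · intro q
    obtain ⟨g, rfl⟩ := QuotientGroup.mk_surjective q
    obtain ⟨c, hc⟩ := isConj_iff.mp (hα g)
    refine isConj_iff.mpr ⟨(c : G ⧸ N), ?_⟩
    show ((c * g * c⁻¹ : G) : G ⧸ N) = ((α g : G) : G ⧸ N)
    rw [hc]
  · intro i
    show ((α (x i) : G) : G ⧸ N) = y i
    rw [hαx, hgy]

/-- the subgroup generated by the commutators and the `p`-th powers -/
def Psi (p : ℕ) (G : Type) [Group G] : Subgroup G :=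
  commutator G ⊔ Subgroup.closure (Set.range fun a : G => a ^ p)

lemma comm_le_psi (p : ℕ) : commutator G ≤ Psi p G := le_sup_left

lemma pow_mem_psi (p : ℕ) (a : G) : a ^ p ∈ Psi p G :=
  (le_sup_right : _ ≤ Psi p G) (Subgroup.subset_closure ⟨a, rfl⟩)

lemma psi_le {p : ℕ} {K : Subgroup G} (h1 : commutator G ≤ K) (h2 : ∀ a : G, a ^ p ∈ K) :
    Psi p G ≤ K := by
  refine sup_le h1 ?_
  rw [Subgroup.closure_le]
  rintro _ ⟨a, rfl⟩
  exact h2 a

instance psi_normal (p : ℕ) : (Psi p G).Normal := by
  have h : ∀ a ∈ Psi p G, ∀ g : G, g * a * g⁻¹ ∈ Psi p G := by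
    intro a ha g
    have : g * a * g⁻¹ = ⁅g, a⁆ * a := by rw [commutatorElement_def]; group
    rw [this]
    exact mul_mem (comm_le_psi p (comm_mem g a)) ha
  exact ⟨h⟩

lemma psi_le_frattini {p : ℕ} [Fact p.Prime] [Finite G] (hG : IsPGroup p G) :
    Psi p G ≤ frattini G := by
  obtain ⟨h1, h2⟩ := frattini_facts hG
  refine psi_le ?_ h2
  rw [commutator_def, Subgroup.commutator_le]
  intro a _ b _
  exact h1 a b

lemma gen_of_sup {p : ℕ} [Fact p.Prime] [Finite G] (hG : IsPGroup p G) (H : Subgroup G)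
    (h : H ⊔ Psi p G = ⊤) : H = ⊤ := by
  apply frattini_nongenerating
  rw [eq_top_iff, ← h]
  exact sup_le_sup_left (psi_le_frattini hG) H

lemma psi_map {p : ℕ} {H : Type} [Group H] (f : G →* H) (hf : Function.Surjective f) :
    (Psi p G).map f = Psi p H := by
  apply le_antisymm
  · rw [Subgroup.map_le_iff_le_comap]
    refine psi_le ?_ ?_
    · rw [commutator_def, Subgroup.commutator_le]
      intro a _ b _
      rw [Subgroup.mem_comap, map_commutatorElement]
      exact comm_le_psi p (comm_mem _ _)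
    · intro a
      rw [Subgroup.mem_comap, map_pow]
      exact pow_mem_psi p _
  · refine psi_le ?_ ?_
    · rw [commutator_def, Subgroup.commutator_le]
      intro a _ b _
      obtain ⟨a, rfl⟩ := hf a
      obtain ⟨b, rfl⟩ := hf b
      exact ⟨⁅a, b⁆, comm_le_psi p (comm_mem _ _), map_commutatorElement f a b⟩
    · intro a
      obtain ⟨a, rfl⟩ := hf a
      exact ⟨a ^ p, pow_mem_psi p a, map_pow f a p⟩

lemma not_mem_psi_lift {p : ℕ} {H : Type} [Group H] (f : G →* H) (hf : Function.Surjective f)
    {w : G} (hw : f w ∉ Psi p H) : w ∉ Psi p G := by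
  intro h
  apply hw
  rw [← psi_map f hf]
  exact ⟨w, h, rfl⟩

/-- exchange -/
theorem exchange {p : ℕ} [hp : Fact p.Prime] [Finite G] (hG : IsPGroup p G) {d : ℕ} (x : Fin d → G)
    (hx : Subgroup.closure (Set.range x) = ⊤) (w : G) (hw : w ∉ Psi p G) :
    ∃ j, Subgroup.closure (Set.range (Function.update x j w)) = ⊤ := by
  classical
  obtain ⟨a, ha⟩ := exists_exponents x hx w
  have hker : ∀ (K : Subgroup G), commutator G ≤ K → ∀ g : G,
      Abelianization.of g ∈ K.map Abelianization.of → g ∈ K := by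
    intro K hK g hg
    obtain ⟨k, hk, hkg⟩ := hg
    have h1 : k⁻¹ * g ∈ commutator G := QuotientGroup.eq.mp hkg
    have h2 := mul_mem hk (hK h1)
    rwa [mul_inv_cancel_left] at h2
  by_cases hall : ∀ j, (p : ℤ) ∣ a j
  · exfalso
    apply hw
    choose b hb using hall
    apply hker _ (comm_le_psi p)
    rw [ha]
    refine Subgroup.prod_mem _ (fun i _ => ?_)
    refine ⟨(x i ^ b i) ^ p, pow_mem_psi p _, ?_⟩
    rw [map_pow, map_zpow, hb i, mul_comm, zpow_mul, zpow_natCast]
  · push Not at hall
    obtain ⟨j, hj⟩ := hall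
    refine ⟨j, gen_of_sup hG _ ?_⟩
    set H := Subgroup.closure (Set.range (Function.update x j w)) with hH
    set K := H ⊔ Psi p G with hK
    have hcK : commutator G ≤ K := (comm_le_psi p).trans le_sup_right
    have hwK : w ∈ K := (le_sup_left : H ≤ K) (Subgroup.subset_closure ⟨j, by simp⟩)
    have hiK : ∀ i, i ≠ j → x i ∈ K := fun i hi =>
      (le_sup_left : H ≤ K) (Subgroup.subset_closure ⟨i, by simp [hi]⟩)
    have h1 : x j ^ a j ∈ K := by
      apply hker K hcK
      have h2 : Abelianization.of (x j ^ a j) = Abelianization.of w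
          * (∏ i ∈ Finset.univ.erase j, (Abelianization.of (x i)) ^ a i)⁻¹ := by
        rw [ha, ← Finset.mul_prod_erase Finset.univ _ (Finset.mem_univ j), mul_inv_cancel_right,
          map_zpow]
      rw [h2]
      refine mul_mem (Subgroup.mem_map_of_mem _ hwK)
        (inv_mem (Subgroup.prod_mem _ (fun i hi => ?_)))
      exact zpow_mem (Subgroup.mem_map_of_mem _ (hiK i (Finset.ne_of_mem_erase hi))) _
    have h3 : x j ^ (p : ℤ) ∈ K := by
      rw [zpow_natCast]
      exact (le_sup_right : _ ≤ K) (pow_mem_psi p _)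
    have h4 : IsCoprime (a j) (p : ℤ) := by
      rw [isCoprime_comm]
      exact (Prime.coprime_iff_not_dvd (Nat.prime_iff_prime_int.mp hp.out)).mpr hj
    obtain ⟨r, s, hrs⟩ := h4
    have h5 : x j ∈ K := by
      have : x j = (x j ^ a j) ^ r * (x j ^ (p : ℤ)) ^ s := by
        rw [← zpow_mul, ← zpow_mul, ← zpow_add]
        have : a j * r + p * s = 1 := by linarith
        rw [this, zpow_one]
      rw [this]
      exact mul_mem (zpow_mem h1 r) (zpow_mem h3 s)
    rw [eq_top_iff, ← hx, Subgroup.closure_le]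
    rintro _ ⟨i, rfl⟩
    by_cases hij : i = j
    · rw [hij]; exact h5
    · exact hiK i hij

/-- all generating families of length `d` are full, and there is one -/
structure Good (d : ℕ) (G : Type) [Group G] : Prop where
  full : ∀ x : Fin d → G, Subgroup.closure (Set.range x) = ⊤ → Full x
  ex : ∃ x : Fin d → G, Subgroup.closure (Set.range x) = ⊤

theorem good_quot {p : ℕ} [Fact p.Prime] [Finite G] (hG : IsPGroup p G) {d : ℕ} (h : Good d G)
    (N : Subgroup G) [N.Normal] (hN : N ≤ Psi p G) : Good d (G ⧸ N) := by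
  refine ⟨?_, ?_⟩
  · intro x hx
    choose y hy using fun i => QuotientGroup.mk_surjective (x i)
    have hgen : Subgroup.closure (Set.range y) = ⊤ := by
      apply gen_of_sup hG
      rw [eq_top_iff]
      intro g _
      have h1 : (g : G ⧸ N) ∈ (Subgroup.closure (Set.range y)).map (QuotientGroup.mk' N) := by
        rw [MonoidHom.map_closure, ← Set.range_comp]
        have : (QuotientGroup.mk' N : G → G ⧸ N) ∘ y = x := by
          funext i; exact hy i
        rw [this, hx]
        exact Subgroup.mem_top _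
      obtain ⟨k, hk, hkg⟩ := h1
      have h2 : k⁻¹ * g ∈ N := QuotientGroup.eq.mp hkg
      have h3 : g = k * (k⁻¹ * g) := by group
      rw [h3]
      exact mul_mem ((le_sup_left : _ ≤ Subgroup.closure (Set.range y) ⊔ Psi p G) hk)
        ((le_sup_right : _ ≤ Subgroup.closure (Set.range y) ⊔ Psi p G) (hN h2))
    have h4 := full_quot (h.full y hgen) N
    have : (fun i => (y i : G ⧸ N)) = x := funext hy
    rwa [this] at h4
  · obtain ⟨x, hx⟩ := h.ex
    exact ⟨_, gen_quot x hx N⟩

theorem Good.exists_of {p : ℕ} [Fact p.Prime] [Finite G] (hG : IsPGroup p G) {d : ℕ}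
    (h : Good d G) {w : G} (hw : w ∉ Psi p G) :
    ∃ (x : Fin d → G) (j : Fin d), Subgroup.closure (Set.range x) = ⊤ ∧ x j = w := by
  obtain ⟨x, hx⟩ := h.ex
  obtain ⟨j, hj⟩ := exchange hG x hx w hw
  exact ⟨_, j, hj, by simp⟩

/-- classes outside the Frattini subgroup are cosets of the commutator subgroup -/
theorem Good.isConj {p : ℕ} [Fact p.Prime] [Finite G] (hG : IsPGroup p G) {d : ℕ}
    (h : Good d G) {w : G} (hw : w ∉ Psi p G) {v : G} (hv : w⁻¹ * v ∈ commutator G) :
    IsConj w v := by
  classical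
  obtain ⟨x, j, hx, rfl⟩ := h.exists_of hG hw
  obtain ⟨α, hα, h1⟩ := h.full x hx (Function.update x j v) (by
    intro i
    by_cases hij : i = j
    · subst hij; simpa using hv
    · simp [hij])
  have h2 := h1 j
  rw [Function.update_self] at h2
  rw [← h2]
  exact hα (x j)

end Full

end Pool.Agent.N47.AC
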