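import Mathlib
import Pool.Agent.N47.AC.Basic

/-!
Class-preserving automorphisms of finite `p`-groups: if a group of class greater than two attains
the bound, then it has two generators.
-/

set_option autoImplicit false

open scoped commutatorElement

namespace Pool.Agent.N47.AC

open Pool.Agent.Helper832.AutC

section Cen

variable {G : Type} [Group G]

/-- the second centre -/
def K2 (G : Type) [Group G] : Subgroup G where
  carrier := {a | ∀ g : G, ⁅a, g⁆ ∈ Subgroup.center G}
  one_mem' := by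
    intro g
    rw [commutatorElement_one_left]
    exact one_mem _
  mul_mem' := by
    intro a b ha hb g
    have : ⁅a * b, g⁆ = (a * ⁅b, g⁆ * a⁻¹) * ⁅a, g⁆ := by
      simp only [commutatorElement_def]; group
    rw [this]
    exact mul_mem (Subgroup.Normal.conj_mem inferInstance _ (hb g) a) (ha g)
  inv_mem' := by
    intro a ha g
    have : ⁅a⁻¹, g⁆ = a⁻¹ * ⁅a, g⁆⁻¹ * a := by
      simp only [commutatorElement_def]; group
    rw [this]
    have := Subgroup.Normal.conj_mem (H := Subgroup.center G) inferInstance _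
      (inv_mem (ha g)) a⁻¹
    rwa [inv_inv] at this

lemma K2_iff {a : G} : a ∈ K2 G ↔ ∀ g : G, ⁅a, g⁆ ∈ Subgroup.center G := Iff.rfl

lemma ctr {z : G} (hz : z ∈ Subgroup.center G) (g : G) : g * z = z * g :=
  Subgroup.mem_center_iff.mp hz g

lemma K2_mul_right {a : G} (ha : a ∈ K2 G) (g h : G) : ⁅a, g * h⁆ = ⁅a, g⁆ * ⁅a, h⁆ := by
  have h1 : ⁅a, g * h⁆ = ⁅a, g⁆ * (g * ⁅a, h⁆ * g⁻¹) := by
    simp only [commutatorElement_def]; group
  rw [h1, ctr (ha h) g, mul_inv_cancel_right]

lemma K2_mul_left {a b : G} (hb : b ∈ K2 G) (g : G) : ⁅a * b, g⁆ = ⁅b, g⁆ * ⁅a, g⁆ := by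
  have h1 : ⁅a * b, g⁆ = (a * ⁅b, g⁆ * a⁻¹) * ⁅a, g⁆ := by
    simp only [commutatorElement_def]; group
  rw [h1, ctr (hb g) a, mul_inv_cancel_right]

/-- `g ↦ ⁅a, g⁆` for `a` in the second centre -/
def brk {a : G} (ha : a ∈ K2 G) : G →* Subgroup.center G :=
  MonoidHom.mk' (fun g => ⟨⁅a, g⁆, ha g⟩) (fun g h => Subtype.ext (K2_mul_right ha g h))

lemma K2_comm {a : G} (ha : a ∈ K2 G) {b : G} (hb : b ∈ commutator G) : a * b = b * a := by
  rw [← commutatorElement_eq_one_iff_mul_comm]
  have h1 : commutator G ≤ (brk ha).ker := by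
    rw [commutator_def, Subgroup.commutator_le]
    intro g _ h _
    rw [MonoidHom.mem_ker, map_commutatorElement, commutatorElement_eq_one_iff_mul_comm]
    exact mul_comm _ _
  exact congrArg Subtype.val (MonoidHom.mem_ker.mp (h1 hb))

lemma K2_zpow_right {a : G} (ha : a ∈ K2 G) (g : G) (n : ℤ) : ⁅a, g ^ n⁆ = ⁅a, g⁆ ^ n :=
  congrArg Subtype.val (map_zpow (brk ha) g n)

lemma K2_zpow_left {a : G} (ha : a ∈ K2 G) (g : G) (n : ℤ) : ⁅a ^ n, g⁆ = ⁅a, g⁆ ^ n := by
  let f : K2 G →* Subgroup.center G := MonoidHom.mk' (fun a => ⟨⁅(a : G), g⁆, a.2 g⟩) (by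
    intro a b
    apply Subtype.ext
    show ⁅(a : G) * (b : G), g⁆ = ⁅(a : G), g⁆ * ⁅(b : G), g⁆
    rw [K2_mul_left b.2, ctr (a.2 g)])
  exact congrArg Subtype.val (map_zpow f ⟨a, ha⟩ n)

lemma comm_le_K2 (h4 : ∀ a b c e : G, ⁅⁅⁅a, b⁆, c⁆, e⁆ = 1) : commutator G ≤ K2 G := by
  rw [commutator_def, Subgroup.commutator_le]
  intro a _ b _ c
  rw [Subgroup.mem_center_iff]
  intro g
  exact (commutatorElement_eq_one_iff_mul_comm.mp (h4 a b c g)).symm

lemma eq_bot_of_le [Group.IsNilpotent G] (N : Subgroup G) (h : N ≤ ⁅N, (⊤ : Subgroup G)⁆) :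
    N = ⊥ := by
  obtain ⟨n, hn⟩ := Subgroup.nilpotent_iff_lowerCentralSeries.mp ‹Group.IsNilpotent G›
  have h1 : ∀ k, N ≤ (⊤ : Subgroup G).lowerCentralSeries k := by
    intro k
    induction k with
    | zero => exact le_top
    | succ k ih =>
      rw [Subgroup.lowerCentralSeries_succ]
      exact h.trans (Subgroup.commutator_mono ih le_rfl)
  rw [eq_bot_iff, ← hn]
  exact h1 n

lemma comm_le_of_gen {d : ℕ} (x : Fin d → G) (hx : Subgroup.closure (Set.range x) = ⊤)
    (N : Subgroup G) [N.Normal] (h : ∀ i k, ⁅x i, x k⁆ ∈ N) : commutator G ≤ N := by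
  have h1 := gen_quot x hx N
  have h2 : ∀ a b : G ⧸ N, a * b = b * a := by
    have hc : ∀ k, (⊤ : Subgroup (G ⧸ N)) ≤ Subgroup.centralizer {(x k : G ⧸ N)} := by
      intro k
      rw [← h1, Subgroup.closure_le]
      rintro _ ⟨i, rfl⟩
      rw [SetLike.mem_coe, Subgroup.mem_centralizer_singleton_iff]
      rw [← commutatorElement_eq_one_iff_mul_comm]
      exact (QuotientGroup.eq_one_iff _).mpr (h i k)
    have hd : (⊤ : Subgroup (G ⧸ N)) ≤ Subgroup.center (G ⧸ N) := by
      rw [← h1, Subgroup.closure_le]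
      rintro _ ⟨k, rfl⟩
      rw [SetLike.mem_coe, Subgroup.mem_center_iff]
      intro g
      have := hc k (Subgroup.mem_top g)
      rw [Subgroup.mem_centralizer_singleton_iff] at this
      exact this
    intro a b
    exact Subgroup.mem_center_iff.mp (hd (Subgroup.mem_top b)) a
  rw [commutator_def, Subgroup.commutator_le]
  intro a _ b _
  rw [← QuotientGroup.eq_one_iff]
  have : ((⁅a, b⁆ : G) : G ⧸ N) = ⁅(a : G ⧸ N), (b : G ⧸ N)⁆ := rfl
  rw [this, commutatorElement_eq_one_iff_mul_comm]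
  exact h2 _ _

lemma quot_comm_eq_one {N : Subgroup G} [N.Normal] {a b : G} :
    ⁅(a : G ⧸ N), (b : G ⧸ N)⁆ = 1 ↔ ⁅a, b⁆ ∈ N := by
  rw [← QuotientGroup.eq_one_iff]
  rfl

/-- in class two, the commutator subgroup is not contained in `[Ψ, G]` -/
lemma bot_of_class_two {p : ℕ} [hp : Fact p.Prime] [Finite G] (hG : IsPGroup p G)
    (hc : ∀ a b c : G, ⁅⁅a, b⁆, c⁆ = 1)
    (h : commutator G ≤ ⁅Psi p G, (⊤ : Subgroup G)⁆) : commutator G = ⊥ := by
  have hcen : commutator G ≤ Subgroup.center G := by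
    rw [commutator_def, Subgroup.commutator_le]
    intro a _ b _
    rw [Subgroup.mem_center_iff]
    intro g
    exact (commutatorElement_eq_one_iff_mul_comm.mp (hc a b g)).symm
  have hall : ∀ a : G, a ∈ K2 G := fun a g => hcen (comm_mem a g)
  letI : CommGroup (commutator G) :=
    { (inferInstance : Group (commutator G)) with
      mul_comm := fun u v => Subtype.ext ((Subgroup.mem_center_iff.mp (hcen v.2)) u) }
  let P : Subgroup G := ((powMonoidHom p : commutator G →* commutator G).range).map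
    (commutator G).subtype
  have hP : ∀ φ ∈ Psi p G, ∀ g : G, ⁅φ, g⁆ ∈ P := by
    intro φ hφ g
    let f : G →* commutator G := MonoidHom.mk' (fun a => ⟨⁅a, g⁆, comm_mem a g⟩) (by
      intro a b
      apply Subtype.ext
      show ⁅a * b, g⁆ = ⁅a, g⁆ * ⁅b, g⁆
      rw [K2_mul_left (hall b), ctr (hall a g)])
    have h1 : Psi p G ≤ ((powMonoidHom p : commutator G →* commutator G).range).comap f := by
      refine psi_le ?_ ?_
      · intro a ha
        rw [Subgroup.mem_comap]
        have : f a = 1 := by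
          apply Subtype.ext
          show ⁅a, g⁆ = 1
          rw [commutatorElement_eq_one_iff_mul_comm]
          exact (ctr (hcen ha) g).symm
        rw [this]; exact one_mem _
      · intro a
        rw [Subgroup.mem_comap, map_pow]
        exact ⟨f a, rfl⟩
    exact ⟨f φ, h1 hφ, rfl⟩
  have h2 : commutator G ≤ P := by
    refine h.trans ?_
    rw [Subgroup.commutator_le]
    intro a ha g _
    exact hP a ha g
  have h3 : Function.Surjective (powMonoidHom p : commutator G →* commutator G) := by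
    intro a
    obtain ⟨b, ⟨c, hc⟩, hb⟩ := h2 a.2
    refine ⟨c, ?_⟩
    rw [hc]
    exact Subtype.ext hb
  have h4 : Function.Injective (powMonoidHom p : commutator G →* commutator G) :=
    Finite.injective_iff_surjective.mpr h3
  rw [eq_bot_iff]
  intro a ha
  by_contra hne
  have hpg : IsPGroup p (commutator G) := hG.to_subgroup _
  obtain ⟨k, hk⟩ := hpg ⟨a, ha⟩
  have h5 : ∀ k : ℕ, (⟨a, ha⟩ : commutator G) ^ p ^ k = 1 → (⟨a, ha⟩ : commutator G) = 1 := by
    intro k
    induction k with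
    | zero => intro h; simpa using h
    | succ k ih =>
      intro h
      apply ih
      apply h4
      rw [map_one]
      show ((⟨a, ha⟩ : commutator G) ^ p ^ k) ^ p = 1
      rw [← pow_mul, ← pow_succ]
      exact h
  have h6 := h5 k hk
  apply hne
  rw [Subgroup.mem_bot]
  exact congrArg Subtype.val h6

lemma bot_of_le_psi {p : ℕ} [hp : Fact p.Prime] [Finite G] (hG : IsPGroup p G)
    (h : commutator G ≤ ⁅Psi p G, (⊤ : Subgroup G)⁆) : commutator G = ⊥ := by
  haveI : Group.IsNilpotent G := hG.isNilpotent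
  let L : Subgroup G := ⁅commutator G, (⊤ : Subgroup G)⁆
  haveI : L.Normal := Subgroup.commutator_normal _ _
  have hsurj := QuotientGroup.mk'_surjective L
  have hQ : commutator (G ⧸ L) = (commutator G).map (QuotientGroup.mk' L) := by
    rw [commutator_def, commutator_def, Subgroup.map_commutator,
      Subgroup.map_top_of_surjective _ hsurj]
  have h1 : commutator (G ⧸ L) = ⊥ := by
    refine bot_of_class_two (hG.to_quotient L) ?_ ?_
    · intro a b c
      obtain ⟨a, rfl⟩ := hsurj a
      obtain ⟨b, rfl⟩ := hsurj b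
      obtain ⟨c, rfl⟩ := hsurj c
      rw [← map_commutatorElement, ← map_commutatorElement]
      exact (QuotientGroup.eq_one_iff _).mpr
        (Subgroup.commutator_mem_commutator (comm_mem a b) (Subgroup.mem_top c))
    · rw [hQ, ← psi_map (QuotientGroup.mk' L) hsurj,
        ← Subgroup.map_top_of_surjective _ hsurj, ← Subgroup.map_commutator]
      exact Subgroup.map_mono h
  have h2 : commutator G ≤ L := by
    intro a ha
    have h3 : QuotientGroup.mk' L a ∈ commutator (G ⧸ L) := by
      rw [hQ]; exact ⟨a, ha, rfl⟩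
    rw [h1, Subgroup.mem_bot] at h3
    exact (QuotientGroup.eq_one_iff a).mp h3
  exact eq_bot_of_le _ h2

end Cen

section Main

variable {G : Type} [Group G]

lemma third {d : ℕ} (hd : 3 ≤ d) (i k : Fin d) : ∃ j, j ≠ i ∧ j ≠ k := by
  classical
  have h : ({i, k} : Finset (Fin d)).card < (Finset.univ : Finset (Fin d)).card := by
    rw [Finset.card_univ, Fintype.card_fin]
    exact lt_of_le_of_lt Finset.card_le_two (by omega)
  obtain ⟨j, _, hj⟩ := Finset.exists_mem_notMem_of_card_lt_card h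
  refine ⟨j, ?_, ?_⟩
  · rintro rfl; exact hj (by simp)
  · rintro rfl; exact hj (by simp)

theorem class_two_of_three {p : ℕ} [hp : Fact p.Prime] [Finite G] (hG : IsPGroup p G)
    (h4 : ∀ a b c e : G, ⁅⁅⁅a, b⁆, c⁆, e⁆ = 1) {d : ℕ} (hd : 3 ≤ d) (hgood : Good d G) :
    ∀ a b c : G, ⁅⁅a, b⁆, c⁆ = 1 := by
  classical
  have hA : commutator G ≤ K2 G := comm_le_K2 h4
  have hAc : ∀ a ∈ commutator G, ∀ b ∈ commutator G, a * b = b * a := fun a ha b hb =>
    K2_comm (hA ha) hb
  -- single changes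
  have hone : ∀ (x : Fin d → G), Subgroup.closure (Set.range x) = ⊤ → ∀ (j : Fin d),
      ∀ g ∈ commutator G, ∃ α ∈ AutC G, α (x j) = g * x j ∧ ∀ i, i ≠ j → α (x i) = x i := by
    intro x hx j g hg
    obtain ⟨α, hα, h1⟩ := hgood.full x hx (Function.update x j (g * x j)) (by
      intro i
      by_cases hij : i = j
      · subst hij
        rw [Function.update_self]
        have := (inferInstance : (commutator G).Normal).conj_mem g hg (x i)⁻¹
        rwa [inv_inv, mul_assoc] at this
      · simp [hij])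
    refine ⟨α, hα, ?_, fun i hij => ?_⟩
    · rw [h1 j, Function.update_self]
    · rw [h1 i, Function.update_of_ne hij]
  have hdiff : ∀ α ∈ AutC G, ∀ h : G, ∃ s ∈ commutator G, α h = s * h := by
    intro α hα h
    refine ⟨α h * h⁻¹, ?_, by group⟩
    have := (inferInstance : (commutator G).Normal).conj_mem _ (mem_of_isConj (hα h)) h
    rwa [mul_assoc, mul_assoc, mul_inv_cancel_left] at this
  have hconj : ∀ w : G, w ∉ Psi p G → ∀ κ ∈ commutator G, ∃ h : G, ⁅h, w⁆ = κ := by
    intro w hw κ hκ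
    have h1 := hgood.isConj hG hw (v := κ * w) (by
      have := (inferInstance : (commutator G).Normal).conj_mem κ hκ w⁻¹
      rwa [inv_inv, mul_assoc] at this)
    obtain ⟨h, hh⟩ := isConj_iff.mp h1
    refine ⟨h, ?_⟩
    rw [commutatorElement_def, hh, mul_inv_cancel_right]
  by_cases hC : ∃ w, w ∉ Psi p G ∧ ∀ a ∈ commutator G, w * a = a * w
  · obtain ⟨w, hw, hwA⟩ := hC
    obtain ⟨x, j, hx, rfl⟩ := hgood.exists_of hG hw
    have hk : ∀ k, ∀ g ∈ commutator G, x k * g = g * x k := by
      intro k g hg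
      by_cases hkj : k = j
      · rw [hkj]; exact hwA g hg
      obtain ⟨i, hij, hik⟩ := third hd j k
      obtain ⟨h, hh⟩ := hconj (x j) hw ⁅x i, x k⁆ (comm_mem _ _)
      obtain ⟨α, hα, h1, h2⟩ := hone x hx i g hg
      obtain ⟨s, hs, hsh⟩ := hdiff α hα h
      have h3 : α ⁅h, x j⁆ = ⁅h, x j⁆ := by
        rw [map_commutatorElement, h2 j (Ne.symm hij), hsh]
        -- `s h = h (h⁻¹ s h)`
        have hs' : h⁻¹ * s * h ∈ commutator G := by
          have := (inferInstance : (commutator G).Normal).conj_mem s hs h⁻¹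
          rwa [inv_inv] at this
        have e1 : s * h = h * (h⁻¹ * s * h) := by group
        rw [e1, commutatorElement_def, commutatorElement_def]
        have e2 := hwA _ hs'
        calc h * (h⁻¹ * s * h) * x j * (h * (h⁻¹ * s * h))⁻¹ * (x j)⁻¹
            = h * ((h⁻¹ * s * h) * x j) * (h⁻¹ * s * h)⁻¹ * h⁻¹ * (x j)⁻¹ := by group
          _ = h * (x j * (h⁻¹ * s * h)) * (h⁻¹ * s * h)⁻¹ * h⁻¹ * (x j)⁻¹ := by rw [e2]
          _ = h * x j * h⁻¹ * (x j)⁻¹ := by group
      rw [hh, map_commutatorElement, h1, h2 k (Ne.symm hik)] at h3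
      have e3 : ⁅g * x i, x k⁆ = g * ⁅x i, x k⁆ * g⁻¹ * ⁅g, x k⁆ := by
        simp only [commutatorElement_def]; group
      rw [e3, hAc g hg _ (comm_mem _ _), mul_inv_cancel_right] at h3
      have e4 : ⁅g, x k⁆ = 1 := by
        have := congrArg (fun z => (⁅x i, x k⁆)⁻¹ * z) h3
        simpa using this
      exact (commutatorElement_eq_one_iff_mul_comm.mp e4).symm
    have hcen : ∀ g ∈ commutator G, g ∈ Subgroup.center G := by
      intro g hg
      have h1 : (⊤ : Subgroup G) ≤ Subgroup.centralizer {g} := by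
        rw [← hx, Subgroup.closure_le]
        rintro _ ⟨k, rfl⟩
        rw [SetLike.mem_coe, Subgroup.mem_centralizer_singleton_iff]
        exact hk k g hg
      rw [Subgroup.mem_center_iff]
      intro z
      have := h1 (Subgroup.mem_top z)
      rw [Subgroup.mem_centralizer_singleton_iff] at this
      exact this
    intro a b c
    rw [commutatorElement_eq_one_iff_mul_comm]
    exact (ctr (hcen _ (comm_mem a b)) c).symm
  · push Not at hC
    -- the centralizer of the commutator subgroup lies in `Ψ`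
    have hCP : ∀ w : G, (∀ a ∈ commutator G, w * a = a * w) → w ∈ Psi p G := by
      intro w hw
      by_contra hw'
      obtain ⟨a, ha, hne⟩ := hC w hw'
      exact hne (hw a ha)
    obtain ⟨x, hx⟩ := hgood.ex
    haveI : (⁅Psi p G, (⊤ : Subgroup G)⁆).Normal := Subgroup.commutator_normal _ _
    have hkey : ∀ i k, ⁅x i, x k⁆ ∈ ⁅Psi p G, (⊤ : Subgroup G)⁆ := by
      intro i k
      obtain ⟨j, hji, hjk⟩ := third hd i k
      by_cases hjP : x j ∈ Psi p G
      · have hgen : Subgroup.closure (Set.range (Function.update x j 1)) = ⊤ := by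
          apply gen_of_sup hG
          rw [eq_top_iff, ← hx, Subgroup.closure_le]
          rintro _ ⟨l, rfl⟩
          by_cases hlj : l = j
          · rw [hlj]
            exact (le_sup_right : _ ≤ _ ⊔ Psi p G) hjP
          · refine (le_sup_left : _ ≤ _ ⊔ Psi p G) (Subgroup.subset_closure ⟨l, ?_⟩)
            simp [hlj]
        obtain ⟨α, hα, h1, h2⟩ := hone _ hgen j ⁅x i, x k⁆ (comm_mem _ _)
        rw [Function.update_self, map_one, mul_one] at h1
        rw [← h1]
        exact one_mem _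
      obtain ⟨h, hh⟩ := hconj (x j) hjP ⁅x i, x k⁆ (comm_mem _ _)
      have hexp : ∀ h : G, ∃ m : ℤ, ∀ g ∈ commutator G, ∀ α ∈ AutC G, α (x j) = g * x j →
          (∀ i, i ≠ j → α (x i) = x i) → (g ^ m)⁻¹ * (α h * h⁻¹) ∈ Subgroup.center G := by
        intro h
        have hmem : h ∈ Subgroup.closure (Set.range x) := by rw [hx]; exact Subgroup.mem_top h
        induction hmem using Subgroup.closure_induction with
        | mem v hv =>
          obtain ⟨l, rfl⟩ := hv
          by_cases hlj : l = j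
          · refine ⟨1, fun g hg α hα h1 h2 => ?_⟩
            rw [hlj, h1, zpow_one]
            simp only [mul_inv_cancel_right, inv_mul_cancel]
            exact one_mem _
          · refine ⟨0, fun g hg α hα h1 h2 => ?_⟩
            rw [h2 l hlj]
            simp only [zpow_zero, inv_one, one_mul, mul_inv_cancel]
            exact one_mem _
        | one =>
          refine ⟨0, fun g hg α hα h1 h2 => ?_⟩
          rw [map_one]
          simp only [zpow_zero, inv_one, one_mul]
          exact one_mem _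
        | mul u v _ _ hu hv =>
          obtain ⟨m, hm⟩ := hu
          obtain ⟨n, hn⟩ := hv
          refine ⟨m + n, fun g hg α hα h1 h2 => ?_⟩
          have hm' := hm g hg α hα h1 h2
          have hn' := hn g hg α hα h1 h2
          set s := (g ^ m)⁻¹ * (α u * u⁻¹) with hs
          set t := (g ^ n)⁻¹ * (α v * v⁻¹) with ht
          have e1 : α u = g ^ m * s * u := by rw [hs]; group
          have e2 : α v = g ^ n * t * v := by rw [ht]; group
          have hgn : g ^ n ∈ K2 G := hA (zpow_mem hg n)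
          have e3 : u * g ^ n * u⁻¹ = g ^ n * ⁅(g ^ n)⁻¹, u⁆ := by
            simp only [commutatorElement_def]; group
          have e4 : ⁅(g ^ n)⁻¹, u⁆ ∈ Subgroup.center G := (K2 G).inv_mem hgn u
          have e5 : (g ^ (m + n))⁻¹ * (α (u * v) * (u * v)⁻¹) = s * ⁅(g ^ n)⁻¹, u⁆ * t := by
            rw [map_mul, e1, e2]
            have f1 : g ^ m * s * u * (g ^ n * t * v) * (u * v)⁻¹
                = g ^ m * s * (u * g ^ n * (t * u⁻¹)) := by group
            rw [f1, ← ctr hn' u⁻¹]
            have f2 : g ^ m * s * (u * g ^ n * (u⁻¹ * t)) = g ^ m * s * (u * g ^ n * u⁻¹) * t := by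
              group
            rw [f2, e3]
            have f3 : g ^ m * s * (g ^ n * ⁅(g ^ n)⁻¹, u⁆) * t
                = g ^ m * (s * g ^ n) * ⁅(g ^ n)⁻¹, u⁆ * t := by group
            rw [f3, ← ctr hm' (g ^ n)]
            group
          rw [e5]
          exact mul_mem (mul_mem hm' e4) hn'
        | inv u _ hu =>
          obtain ⟨m, hm⟩ := hu
          refine ⟨-m, fun g hg α hα h1 h2 => ?_⟩
          have hm' := hm g hg α hα h1 h2
          set s := (g ^ m)⁻¹ * (α u * u⁻¹) with hs
          have e1 : α u = g ^ m * s * u := by rw [hs]; group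
          have hgn : g ^ m ∈ K2 G := hA (zpow_mem hg m)
          have e5 : (g ^ (-m))⁻¹ * (α u⁻¹ * (u⁻¹)⁻¹) = ⁅g ^ m, u⁻¹⁆ * s⁻¹ := by
            rw [map_inv, e1]
            have hz := ctr (inv_mem hm')
            have f0 : (g ^ (-m))⁻¹ * ((g ^ m * s * u)⁻¹ * u⁻¹⁻¹)
                = g ^ m * u⁻¹ * (s⁻¹ * (g ^ m)⁻¹) * u := by group
            rw [f0, ← hz (g ^ m)⁻¹]
            have f1 : g ^ m * u⁻¹ * ((g ^ m)⁻¹ * s⁻¹) * u
                = g ^ m * u⁻¹ * (g ^ m)⁻¹ * (s⁻¹ * u) := by group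
            rw [f1, ← hz u, commutatorElement_def]
            group
          rw [e5]
          exact mul_mem (hgn _) (inv_mem hm')
      obtain ⟨m, hm⟩ := hexp h
      have hcom : ∀ g ∈ commutator G, ⁅g, h * (x j ^ m)⁻¹⁆ = 1 := by
        intro g hg
        obtain ⟨α, hα, h1, h2⟩ := hone x hx j g hg
        have hm' := hm g hg α hα h1 h2
        set s := (g ^ m)⁻¹ * (α h * h⁻¹) with hs
        have e1 : α h = s * (g ^ m * h) := by
          rw [← mul_assoc, ← ctr hm' (g ^ m), hs]; group
        have h3 : α ⁅h, x j⁆ = ⁅h, x j⁆ := by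
          rw [hh, map_commutatorElement, h2 i (Ne.symm hji), h2 k (Ne.symm hjk)]
        rw [map_commutatorElement, e1, h1] at h3
        have e2 : ⁅s * (g ^ m * h), g * x j⁆ = ⁅g ^ m * h, g * x j⁆ := by
          rw [commutatorElement_def, commutatorElement_def]
          have : s * (g ^ m * h) * (g * x j) * (s * (g ^ m * h))⁻¹ * (g * x j)⁻¹
              = s * ((g ^ m * h) * (g * x j) * (g ^ m * h)⁻¹) * s⁻¹ * (g * x j)⁻¹ := by group
          rw [this, ← ctr hm' _, mul_inv_cancel_right]
        have hgK : g ∈ K2 G := hA hg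
        have hgmK : g ^ m ∈ K2 G := (K2 G).zpow_mem hgK m
        have e3 : ⁅g ^ m * h, g * x j⁆
            = (g ^ m * ⁅h, g * x j⁆ * (g ^ m)⁻¹) * ⁅g ^ m, g * x j⁆ := by
          simp only [commutatorElement_def]; group
        have e4 : ⁅h, g * x j⁆ = ⁅h, g⁆ * (g * ⁅h, x j⁆ * g⁻¹) := by
          simp only [commutatorElement_def]; group
        have e5 : ⁅g ^ m, g * x j⁆ = ⁅g, x j⁆ ^ m := by
          rw [K2_mul_right hgmK, K2_zpow_left hgK, K2_zpow_left hgK, commutatorElement_self,
            one_zpow, one_mul]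
        have e6 : g * ⁅h, x j⁆ * g⁻¹ = ⁅h, x j⁆ := by
          rw [hAc g hg _ (comm_mem _ _), mul_inv_cancel_right]
        have e7 : g ^ m * (⁅h, g⁆ * ⁅h, x j⁆) * (g ^ m)⁻¹ = ⁅h, g⁆ * ⁅h, x j⁆ := by
          rw [hAc (g ^ m) (zpow_mem hg m) _ (mul_mem (comm_mem _ _) (comm_mem _ _)),
            mul_inv_cancel_right]
        rw [e2, e3, e4, e6, e7, e5] at h3
        -- `⁅h, g⁆ ⁅h, x⁆ ⁅g, x⁆ ^ m = ⁅h, x⁆`
        have hcz : ⁅g, x j⁆ ^ m ∈ Subgroup.center G := zpow_mem (hgK (x j)) m
        have e8 : ⁅h, g⁆ * ⁅g, x j⁆ ^ m = 1 := by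
          have f1 : ⁅h, g⁆ * ⁅h, x j⁆ * ⁅g, x j⁆ ^ m = (⁅h, g⁆ * ⁅g, x j⁆ ^ m) * ⁅h, x j⁆ := by
            rw [mul_assoc, ctr hcz, mul_assoc]
          rw [f1] at h3
          exact mul_eq_right.mp h3
        have e9 : ⁅g, h⁆ = ⁅g, x j⁆ ^ m := by
          rw [← commutatorElement_inv h g]
          exact inv_eq_of_mul_eq_one_right e8
        rw [K2_mul_right hgK, ← zpow_neg, K2_zpow_right hgK, e9, zpow_neg, mul_inv_cancel]
      have hφ : h * (x j ^ m)⁻¹ ∈ Psi p G := by
        apply hCP
        intro a ha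
        exact (commutatorElement_eq_one_iff_mul_comm.mp (hcom a ha)).symm
      have e10 : ⁅x i, x k⁆ = ⁅h * (x j ^ m)⁻¹, x j⁆ := by
        rw [← hh, commutatorElement_def, commutatorElement_def]
        have hx1 : (x j ^ m)⁻¹ * x j * (x j ^ m) = x j := by
          rw [← zpow_neg, ← zpow_add_one, ← zpow_add]
          have : -m + 1 + m = 1 := by ring
          rw [this, zpow_one]
        calc h * x j * h⁻¹ * (x j)⁻¹
            = h * ((x j ^ m)⁻¹ * x j * (x j ^ m)) * h⁻¹ * (x j)⁻¹ := by rw [hx1]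
          _ = h * (x j ^ m)⁻¹ * x j * (h * (x j ^ m)⁻¹)⁻¹ * (x j)⁻¹ := by group
      rw [e10]
      exact Subgroup.commutator_mem_commutator hφ (Subgroup.mem_top _)
    have h5 : commutator G ≤ ⁅Psi p G, (⊤ : Subgroup G)⁆ := comm_le_of_gen x hx _ hkey
    have h6 := bot_of_le_psi hG h5
    intro a b c
    have : ⁅a, b⁆ = 1 := by
      have := comm_mem a b
      rwa [h6, Subgroup.mem_bot] at this
    rw [this, commutatorElement_one_left]

end Main

end Pool.Agent.N47.AC
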