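import Mathlib
import Pool.Agent.N47.AC.Rank

/-!
Class-preserving automorphisms of finite `p`-groups: pairs of generators.
-/

set_option autoImplicit false

open scoped commutatorElement

namespace Pool.Agent.N47.AC

open Pool.Agent.Helper832.AutC

variable {G : Type} [Group G]

omit [Group G] in
lemma range_pair (x y : G) : Set.range ![x, y] = {x, y} := by
  ext z
  simp only [Set.mem_range, Set.mem_insert_iff, Set.mem_singleton_iff]
  constructor
  · rintro ⟨i, rfl⟩
    fin_cases i
    · left; rfl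
    · right; rfl
  · rintro (rfl | rfl)
    · exact ⟨0, rfl⟩
    · exact ⟨1, rfl⟩

lemma Good.pair (hgood : Good 2 G) {x y : G} (hxy : Subgroup.closure {x, y} = ⊤)
    {g h : G} (hg : g ∈ commutator G) (hh : h ∈ commutator G) :
    ∃ α ∈ AutC G, α x = g * x ∧ α y = h * y := by
  have hc : ∀ a ∈ commutator G, ∀ w : G, w⁻¹ * (a * w) ∈ commutator G := by
    intro a ha w
    have := (inferInstance : (commutator G).Normal).conj_mem a ha w⁻¹
    rwa [inv_inv, mul_assoc] at this
  obtain ⟨α, hα, h1⟩ := hgood.full ![x, y] (by rw [range_pair, hxy]) ![g * x, h * y] (by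
    intro i
    fin_cases i
    · exact hc g hg x
    · exact hc h hh y)
  exact ⟨α, hα, h1 0, h1 1⟩

lemma Good.ex_pair (hgood : Good 2 G) : ∃ x y : G, Subgroup.closure {x, y} = ⊤ := by
  obtain ⟨x, hx⟩ := hgood.ex
  refine ⟨x 0, x 1, ?_⟩
  have e : ![x 0, x 1] = x := by
    funext i
    fin_cases i <;> rfl
  rw [← range_pair, e, hx]

lemma Good.pair_of {p : ℕ} [Fact p.Prime] [Finite G] (hG : IsPGroup p G) (hgood : Good 2 G)
    {w : G} (hw : w ∉ Psi p G) : ∃ y : G, Subgroup.closure {w, y} = ⊤ := by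
  obtain ⟨x, j, hx, rfl⟩ := hgood.exists_of hG hw
  have h : ∀ j : Fin 2, Set.range x = {x j, x (1 - j)} := by
    intro j
    ext z
    simp only [Set.mem_range, Set.mem_insert_iff, Set.mem_singleton_iff]
    constructor
    · rintro ⟨i, rfl⟩
      fin_cases i <;> fin_cases j <;> simp
    · rintro (rfl | rfl)
      · exact ⟨_, rfl⟩
      · exact ⟨_, rfl⟩
  exact ⟨x (1 - j), by rw [← h j, hx]⟩

/-- a subset closed under conjugation by two generators of a finite group is closed under
conjugation -/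
lemma mem_of_isConj_pair [Finite G] {x y : G} (hxy : Subgroup.closure {x, y} = ⊤) (S : Set G)
    (hx : ∀ s ∈ S, x * s * x⁻¹ ∈ S) (hy : ∀ s ∈ S, y * s * y⁻¹ ∈ S) {s t : G} (hs : s ∈ S)
    (h : IsConj s t) : t ∈ S := by
  have key : ∀ g : G, ∀ s ∈ S, g * s * g⁻¹ ∈ S := by
    intro g
    have hg : g ∈ Subgroup.closure {x, y} := by rw [hxy]; exact Subgroup.mem_top g
    induction hg using Subgroup.closure_induction with
    | mem g hg =>
      rcases hg with rfl | hg
      · exact hx
      · rw [Set.mem_singleton_iff.mp hg]; exact hy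
    | one => intro s hs; simpa using hs
    | mul a b _ _ ha hb =>
      intro s hs
      have := ha _ (hb s hs)
      have e : a * b * s * (a * b)⁻¹ = a * (b * s * b⁻¹) * a⁻¹ := by group
      rw [e]; exact this
    | inv a _ ha =>
      have hpow : ∀ n : ℕ, ∀ s ∈ S, a ^ n * s * (a ^ n)⁻¹ ∈ S := by
        intro n
        induction n with
        | zero => intro s hs; simpa using hs
        | succ n ih =>
          intro s hs
          have := ha _ (ih s hs)
          have e : a ^ (n + 1) * s * (a ^ (n + 1))⁻¹ = a * (a ^ n * s * (a ^ n)⁻¹) * a⁻¹ := by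
            rw [pow_succ']; group
          rw [e]; exact this
      have h1 : a⁻¹ = a ^ (orderOf a - 1) := by
        rw [inv_eq_iff_mul_eq_one, ← pow_succ', Nat.sub_add_cancel (orderOf_pos a),
          pow_orderOf_eq_one]
      rw [h1]
      exact hpow _
  obtain ⟨g, rfl⟩ := isConj_iff.mp h
  exact key g s hs

lemma comm_le_of_pair {x y : G} (hxy : Subgroup.closure {x, y} = ⊤)
    (N : Subgroup G) [N.Normal] (h : ⁅x, y⁆ ∈ N) : commutator G ≤ N := by
  apply comm_le_of_gen ![x, y] (by rw [range_pair, hxy]) N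
  intro i k
  fin_cases i <;> fin_cases k
  · show ⁅x, x⁆ ∈ N
    rw [commutatorElement_self]; exact one_mem _
  · exact h
  · show ⁅y, x⁆ ∈ N
    rw [← commutatorElement_inv]; exact inv_mem h
  · show ⁅y, y⁆ ∈ N
    rw [commutatorElement_self]; exact one_mem _

lemma exists_central {p : ℕ} [hp : Fact p.Prime] [Finite G] (hG : IsPGroup p G) (N : Subgroup G)
    [hN : N.Normal] (hne : N ≠ ⊥) :
    ∃ z ∈ N, z ∈ Subgroup.center G ∧ orderOf z = p := by
  classical
  have hnil : Group.IsNilpotent G := hG.isNilpotent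
  obtain ⟨n, hn⟩ := Subgroup.nilpotent_iff_lowerCentralSeries.mp hnil
  let F : ℕ → Subgroup G := fun k => Nat.rec N (fun _ H => ⁅H, (⊤ : Subgroup G)⁆) k
  have hF0 : F 0 = N := rfl
  have hFs : ∀ k, F (k + 1) = ⁅F k, (⊤ : Subgroup G)⁆ := fun k => rfl
  have h1 : ∀ k, F k ≤ (⊤ : Subgroup G).lowerCentralSeries k := by
    intro k
    induction k with
    | zero => exact le_top
    | succ k ih =>
      rw [Subgroup.lowerCentralSeries_succ, hFs]
      exact Subgroup.commutator_mono ih le_rfl
  have h2 : ∀ k, F k ≤ N := by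
    intro k
    induction k with
    | zero => exact le_rfl
    | succ k ih =>
      rw [hFs]
      refine (Subgroup.commutator_mono ih le_rfl).trans ?_
      exact Subgroup.commutator_le_left N ⊤
  have hex : ∀ k, F k = ⊥ → ∃ j, F j ≠ ⊥ ∧ F (j + 1) = ⊥ := by
    intro k
    induction k with
    | zero => intro h; exact absurd h hne
    | succ k ih =>
      intro h
      rcases Classical.em (F k = ⊥) with h0 | h0
      · exact ih h0
      · exact ⟨k, h0, h⟩
  obtain ⟨k, h5, h4⟩ := hex n (by rw [eq_bot_iff, ← hn]; exact h1 n)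
  obtain ⟨⟨a, ha⟩, hane⟩ := (Subgroup.ne_bot_iff_exists_ne_one.mp h5)
  have ha1 : a ≠ 1 := fun h => hane (Subtype.ext h)
  have hac : a ∈ Subgroup.center G := by
    rw [Subgroup.mem_center_iff]
    intro g
    have h6 : ⁅a, g⁆ ∈ F (k + 1) := by
      rw [hFs]
      exact Subgroup.commutator_mem_commutator ha (Subgroup.mem_top g)
    rw [h4, Subgroup.mem_bot, commutatorElement_eq_one_iff_mul_comm] at h6
    exact h6.symm
  obtain ⟨m, hm⟩ := IsPGroup.iff_orderOf.mp hG a
  have hm0 : m ≠ 0 := by
    rintro rfl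
    rw [pow_zero, orderOf_eq_one_iff] at hm
    exact ha1 hm
  refine ⟨a ^ p ^ (m - 1), pow_mem (h2 k ha) _, pow_mem hac _, ?_⟩
  rw [orderOf_pow, hm]
  have e : p ^ m = p * p ^ (m - 1) := by
    rw [← pow_succ', Nat.sub_add_cancel (Nat.pos_of_ne_zero hm0)]
  rw [e, Nat.gcd_eq_right (dvd_mul_left _ _),
    Nat.mul_div_cancel _ (pow_pos hp.out.pos _)]

lemma zpowers_normal_of_central {z : G} (hz : z ∈ Subgroup.center G) :
    (Subgroup.zpowers z).Normal := by
  refine ⟨fun a ha g => ?_⟩
  have : a ∈ Subgroup.center G := (Subgroup.zpowers_le.mpr hz) ha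
  rw [ctr this g, mul_inv_cancel_right]
  exact ha

lemma comm_quot (N : Subgroup G) [N.Normal] :
    commutator (G ⧸ N) = (commutator G).map (QuotientGroup.mk' N) := by
  rw [commutator_def, commutator_def, Subgroup.map_commutator,
    Subgroup.map_top_of_surjective _ (QuotientGroup.mk'_surjective N)]

/-- a cyclic commutator subgroup is generated by the commutator of two generators -/
lemma comm_eq_zpowers [Finite G] {x y : G} (hxy : Subgroup.closure {x, y} = ⊤)
    (hcyc : IsCyclic (commutator G)) : commutator G = Subgroup.zpowers ⁅x, y⁆ := by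
  classical
  apply le_antisymm
  · have hn : (Subgroup.zpowers ⁅x, y⁆).Normal := by
      refine ⟨fun a ha g => ?_⟩
      obtain ⟨k, rfl⟩ := ha
      have h1 : g * ⁅x, y⁆ * g⁻¹ ∈ Subgroup.zpowers ⁅x, y⁆ := by
        let C : commutator G := ⟨⁅x, y⁆, comm_mem x y⟩
        let D : commutator G := ⟨g * ⁅x, y⁆ * g⁻¹,
          (inferInstance : (commutator G).Normal).conj_mem _ (comm_mem x y) g⟩
        have h2 : D ∈ Subgroup.zpowers C := by
          apply mem_zpowers_of_dvd
          have e1 : orderOf D = orderOf (D : G) := (Subgroup.orderOf_coe D).symm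
          have e2 : orderOf C = orderOf (C : G) := (Subgroup.orderOf_coe C).symm
          have e3 : orderOf (D : G) = orderOf (C : G) := by
            show orderOf (g * ⁅x, y⁆ * g⁻¹) = orderOf ⁅x, y⁆
            exact (MulAut.conj g).orderOf_eq ⁅x, y⁆
          rw [e1, e3, e2]
        obtain ⟨m, hm⟩ := h2
        exact ⟨m, congrArg Subtype.val hm⟩
      have e : g * ⁅x, y⁆ ^ k * g⁻¹ = (g * ⁅x, y⁆ * g⁻¹) ^ k := by
        rw [conj_zpow]
      show g * ⁅x, y⁆ ^ k * g⁻¹ ∈ _
      rw [e]
      exact zpow_mem h1 k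
    exact comm_le_of_pair hxy _ (Subgroup.mem_zpowers _)
  · rw [Subgroup.zpowers_le]
    exact comm_mem x y

lemma not_mem_psi_of_pair {p : ℕ} [hp : Fact p.Prime] [Finite G] (hG : IsPGroup p G) {x y : G}
    (hxy : Subgroup.closure {x, y} = ⊤) (hne : commutator G ≠ ⊥) : x ∉ Psi p G := by
  intro hx
  apply hne
  have h1 : Subgroup.closure {y} = ⊤ := by
    apply gen_of_sup hG
    rw [eq_top_iff, ← hxy, Subgroup.closure_le]
    rintro z (rfl | hz)
    · exact (le_sup_right : _ ≤ _ ⊔ Psi p G) hx
    · exact (le_sup_left : Subgroup.closure {y} ≤ _ ⊔ Psi p G) (Subgroup.subset_closure hz)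
  have h2 : ⁅x, y⁆ ∈ (⊥ : Subgroup G) := by
    rw [Subgroup.mem_bot, commutatorElement_eq_one_iff_mul_comm]
    have hx' : x ∈ Subgroup.closure {y} := by rw [h1]; exact Subgroup.mem_top x
    rw [Subgroup.mem_closure_singleton] at hx'
    obtain ⟨k, rfl⟩ := hx'
    exact ((Commute.refl y).zpow_left k)
  rw [eq_bot_iff]
  exact comm_le_of_pair hxy _ h2

end Pool.Agent.N47.AC
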