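import Mathlib
import Pool.Agent.N47.AC.Pair

/-!
Class-preserving automorphisms of finite `p`-groups: two generators, `p` odd.
-/

set_option autoImplicit false

open scoped commutatorElement

namespace Pool.Agent.N47.AC

open Pool.Agent.Helper832.AutC

section

variable {G : Type} [Group G]

lemma gen_pair_quot {x y : G} (hxy : Subgroup.closure {x, y} = ⊤) (N : Subgroup G) [N.Normal] :
    Subgroup.closure {(x : G ⧸ N), (y : G ⧸ N)} = ⊤ := by
  have e : ({(x : G ⧸ N), (y : G ⧸ N)} : Set (G ⧸ N)) = (QuotientGroup.mk' N) '' {x, y} := by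
    rw [Set.image_pair]; rfl
  rw [e, ← MonoidHom.map_closure, hxy,
    Subgroup.map_top_of_surjective _ (QuotientGroup.mk'_surjective N)]

lemma quot_cyc [Finite G] {z : G} [(Subgroup.zpowers z).Normal]
    (hcyc : IsCyclic (commutator (G ⧸ Subgroup.zpowers z))) {x y : G}
    (hxy : Subgroup.closure {x, y} = ⊤) {a : G} (ha : a ∈ commutator G) :
    ∃ k : ℤ, (⁅x, y⁆ ^ k)⁻¹ * a ∈ Subgroup.zpowers z := by
  have h1 := comm_eq_zpowers (gen_pair_quot hxy (Subgroup.zpowers z)) hcyc
  have h2 : (a : G ⧸ Subgroup.zpowers z) ∈ commutator (G ⧸ Subgroup.zpowers z) := by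
    rw [comm_quot]; exact ⟨a, ha, rfl⟩
  rw [h1] at h2
  obtain ⟨k, hk⟩ := h2
  exact ⟨k, QuotientGroup.eq.mp hk⟩

lemma card_quot_lt [Finite G] {N : Subgroup G} [N.Normal] (hN : N ≠ ⊥) :
    Nat.card (G ⧸ N) < Nat.card G := by
  rw [Subgroup.card_eq_card_quotient_mul_card_subgroup N]
  have h1 : 1 < Nat.card N := by
    rw [Subgroup.one_lt_card_iff_ne_bot]; exact hN
  have h2 : 0 < Nat.card (G ⧸ N) := Nat.card_pos
  nlinarith

lemma mem_zpowers_prime {p : ℕ} [hp : Fact p.Prime] {z : G} (hz : orderOf z = p) {w : G}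
    (hw : w ∈ Subgroup.zpowers z) (hw1 : w ≠ 1) : z ∈ Subgroup.zpowers w := by
  obtain ⟨k, rfl⟩ := hw
  have h1 : ¬ (p : ℤ) ∣ k := by
    intro h
    apply hw1
    show z ^ k = 1
    rw [← hz] at h
    exact orderOf_dvd_iff_zpow_eq_one.mp h
  have h2 : IsCoprime k (p : ℤ) := by
    rw [isCoprime_comm]
    exact (Prime.coprime_iff_not_dvd (Nat.prime_iff_prime_int.mp hp.out)).mpr h1
  obtain ⟨r, s, hrs⟩ := h2
  refine ⟨r, ?_⟩
  show (z ^ k) ^ r = z
  have h3 : z ^ (p : ℤ) = 1 := by rw [zpow_natCast, ← hz, pow_orderOf_eq_one]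
  rw [← zpow_mul]
  have : k * r = 1 - p * s := by linarith
  rw [this, zpow_sub, zpow_mul, h3, one_zpow, zpow_one, inv_one, mul_one]

lemma mem_center_of_pair {x y : G} (hxy : Subgroup.closure {x, y} = ⊤) {a : G}
    (hx : x * a = a * x) (hy : y * a = a * y) : a ∈ Subgroup.center G := by
  have h1 : (⊤ : Subgroup G) ≤ Subgroup.centralizer {a} := by
    rw [← hxy, Subgroup.closure_le]
    rintro g (rfl | hg)
    · rw [SetLike.mem_coe, Subgroup.mem_centralizer_singleton_iff]; exact hx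
    · rw [Set.mem_singleton_iff.mp hg, SetLike.mem_coe, Subgroup.mem_centralizer_singleton_iff]
      exact hy
  rw [Subgroup.mem_center_iff]
  intro z
  have := h1 (Subgroup.mem_top z)
  rwa [Subgroup.mem_centralizer_singleton_iff] at this

/-- if the commutator subgroup is generated by `c` and the central element `z` of order `p`, and
`c ^ p = 1`, then `c` is central modulo `z` -/
lemma comm_mem_zpowers {p : ℕ} [hp : Fact p.Prime] [Finite G] (hG : IsPGroup p G) {c z : G}
    (hz : z ∈ Subgroup.center G)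
    (hcA : c ∈ commutator G)
    (hc : c ^ p = 1) (hA : ∀ a ∈ commutator G, ∃ k : ℤ, (c ^ k)⁻¹ * a ∈ Subgroup.zpowers z)
    (g : G) : ⁅g, c⁆ ∈ Subgroup.zpowers z := by
  haveI := zpowers_normal_of_central hz
  have hQ : IsPGroup p (G ⧸ Subgroup.zpowers z) := hG.to_quotient _
  haveI : Group.IsNilpotent (G ⧸ Subgroup.zpowers z) := hQ.isNilpotent
  set Q := G ⧸ Subgroup.zpowers z with hQdef
  -- the commutator subgroup of the quotient has order dividing `p`
  have h1 : ∀ b ∈ commutator Q, b ∈ Subgroup.zpowers (c : Q) := by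
    intro b hb
    rw [comm_quot] at hb
    obtain ⟨a, ha, rfl⟩ := hb
    obtain ⟨k, hk⟩ := hA a ha
    exact ⟨k, QuotientGroup.eq.mpr hk⟩
  have h2 : ∀ b ∈ commutator Q, ∀ q : Q, ⁅b, q⁆ = 1 := by
    by_contra hcon
    push Not at hcon
    obtain ⟨b, hb, q, hbq⟩ := hcon
    have h3 : commutator Q = ⊥ := by
      apply eq_bot_of_le
      intro a ha
      have h4 : ⁅b, q⁆ ∈ ⁅commutator Q, (⊤ : Subgroup Q)⁆ :=
        Subgroup.commutator_mem_commutator hb (Subgroup.mem_top q)
      have hcQ : (c : Q) ^ p = 1 := by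
        have : ((c ^ p : G) : Q) = 1 := by rw [hc]; rfl
        exact this
      have h5 : (c : Q) ≠ 1 := by
        intro h
        have h6 := h1 _ (comm_mem b q)
        rw [h, Subgroup.zpowers_one_eq_bot, Subgroup.mem_bot] at h6
        exact hbq h6
      have h7 : orderOf (c : Q) = p := orderOf_eq_prime hcQ h5
      have h8 : (c : Q) ∈ Subgroup.zpowers ⁅b, q⁆ :=
        mem_zpowers_prime h7 (h1 _ (comm_mem b q)) hbq
      have h9 : Subgroup.zpowers (c : Q) ≤ ⁅commutator Q, (⊤ : Subgroup Q)⁆ := by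
        rw [Subgroup.zpowers_le]
        exact (Subgroup.zpowers_le.mpr h4) h8
      exact h9 (h1 a ha)
    rw [h3, Subgroup.mem_bot] at hb
    rw [hb, commutatorElement_one_left] at hbq
    exact hbq rfl
  have h3 : ⁅(c : Q), (g : Q)⁆ = 1 := h2 _ (by rw [comm_quot]; exact ⟨c, hcA, rfl⟩) _
  have h4 : ⁅(g : Q), (c : Q)⁆ = 1 := by
    rw [← commutatorElement_inv, h3, inv_one]
  exact quot_comm_eq_one.mp h4

end

theorem cyclic_of_odd (p : ℕ) [hp : Fact p.Prime] (hp2 : p ≠ 2) : ∀ (n : ℕ) (G : Type) [Group G]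
    [Finite G], Nat.card G = n → IsPGroup p G → Good 2 G → IsCyclic (commutator G) := by
  intro n
  induction n using Nat.strong_induction_on with
  | _ n ih =>
  intro G _ _ hn hG hgood
  by_contra hnc
  have hbot : commutator G ≠ ⊥ := by
    intro h
    apply hnc
    rw [h]
    infer_instance
  obtain ⟨x, y, hxy⟩ := hgood.ex_pair
  set c := ⁅x, y⁆ with hc
  have hcA : c ∈ commutator G := comm_mem x y
  have key : ∀ z ∈ commutator G, z ∈ Subgroup.center G → z ≠ 1 →
      ∀ a ∈ commutator G, ∃ k : ℤ, (c ^ k)⁻¹ * a ∈ Subgroup.zpowers z := by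
    intro z hz hzc hz1 a ha
    haveI := zpowers_normal_of_central hzc
    have hle : Subgroup.zpowers z ≤ Psi p G :=
      (Subgroup.zpowers_le.mpr hz).trans (comm_le_psi p)
    have h1 : IsCyclic (commutator (G ⧸ Subgroup.zpowers z)) :=
      ih _ (by rw [← hn]; exact card_quot_lt (by rwa [Ne, Subgroup.zpowers_eq_bot])) _ rfl
        (hG.to_quotient _) (good_quot hG hgood _ hle)
    exact quot_cyc h1 hxy ha
  obtain ⟨z, hzA, hzc, hzo⟩ := exists_central hG (commutator G) hbot
  have hz1 : z ≠ 1 := by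
    rintro rfl
    rw [orderOf_one] at hzo
    exact hp.out.one_lt.ne hzo
  have hAz := key z hzA hzc hz1
  -- `z` is not a power of `c`
  have hzcn : z ∉ Subgroup.zpowers c := by
    intro h
    apply hnc
    rw [isCyclic_iff_exists_zpowers_eq_top]
    refine ⟨⟨c, hcA⟩, ?_⟩
    rw [eq_top_iff]
    rintro ⟨a, ha⟩ _
    obtain ⟨k, hk⟩ := hAz a ha
    have h1 : a ∈ Subgroup.zpowers c := by
      have h2 := (Subgroup.zpowers_le.mpr h) hk
      have h3 := mul_mem (Subgroup.zpow_mem _ (Subgroup.mem_zpowers c) k) h2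
      rwa [mul_inv_cancel_left] at h3
    obtain ⟨m, hm⟩ := h1
    exact ⟨m, Subtype.ext hm⟩
  have hcp : c ^ p = 1 := by
    by_contra hcp
    have hn2 : (Subgroup.zpowers (c ^ p)).Normal := by
      refine ⟨fun a ha g => ?_⟩
      obtain ⟨m, rfl⟩ := ha
      obtain ⟨k, hk⟩ := hAz (g * c * g⁻¹)
        ((inferInstance : (commutator G).Normal).conj_mem _ hcA g)
      obtain ⟨l, hl⟩ := hk
      have e1 : g * c * g⁻¹ = c ^ k * z ^ l := by
        have hl' : z ^ l = (c ^ k)⁻¹ * (g * c * g⁻¹) := hl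
        rw [hl', mul_inv_cancel_left]
      have hzl : z ^ l ∈ Subgroup.center G := zpow_mem hzc l
      have hcomm : Commute (c ^ k) (z ^ l) := ctr hzl _
      have hzp : z ^ (p : ℕ) = 1 := by rw [← hzo, pow_orderOf_eq_one]
      have e2 : g * c ^ p * g⁻¹ = (c ^ p) ^ k := by
        rw [← conj_pow, e1, hcomm.mul_pow, ← zpow_natCast (z ^ l), ← zpow_mul, mul_comm l,
          zpow_mul, zpow_natCast, hzp, one_zpow, mul_one, ← zpow_natCast, ← zpow_mul,
          mul_comm, zpow_mul, zpow_natCast]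
      refine ⟨k * m, ?_⟩
      show (c ^ p) ^ (k * m) = g * (c ^ p) ^ m * g⁻¹
      rw [← conj_zpow, e2, zpow_mul]
    obtain ⟨w, hw, hwc, hwo⟩ := exists_central hG (Subgroup.zpowers (c ^ p))
      (by rwa [Ne, Subgroup.zpowers_eq_bot])
    have hw1 : w ≠ 1 := by
      rintro rfl
      rw [orderOf_one] at hwo
      exact hp.out.one_lt.ne hwo
    have hle : Subgroup.zpowers (c ^ p) ≤ Subgroup.zpowers c := by
      rw [Subgroup.zpowers_le]
      exact pow_mem (Subgroup.mem_zpowers c) p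
    have hwA : w ∈ commutator G := (Subgroup.zpowers_le.mpr hcA) (hle hw)
    obtain ⟨k, hk⟩ := key w hwA hwc hw1 z hzA
    apply hzcn
    have h2 := (Subgroup.zpowers_le.mpr (hle hw)) hk
    have h3 := mul_mem (Subgroup.zpow_mem _ (Subgroup.mem_zpowers c) k) h2
    rwa [mul_inv_cancel_left] at h3
  have hcz : ∀ g : G, ⁅g, c⁆ ∈ Subgroup.zpowers z := fun g =>
    comm_mem_zpowers hG hzc hcA hcp hAz g
  -- an element outside `Ψ` which commutes with the commutator subgroup
  have hcomm_of : ∀ w : G, w * c = c * w → ∀ a ∈ commutator G, w * a = a * w := by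
    intro w hw a ha
    obtain ⟨k, l, hl⟩ := hAz a ha
    have e1 : a = c ^ k * z ^ l := by
      have hl' : z ^ l = (c ^ k)⁻¹ * a := hl
      rw [hl', mul_inv_cancel_left]
    have h1 : Commute w (c ^ k) := (show Commute w c from hw).zpow_right k
    have h2 : Commute w (z ^ l) := ctr (zpow_mem hzc l) w
    rw [e1]
    exact h1.mul_right h2
  obtain ⟨w, hwP, hwA⟩ : ∃ w, w ∉ Psi p G ∧ ∀ a ∈ commutator G, w * a = a * w := by
    by_cases hxc : ⁅x, c⁆ = 1
    · exact ⟨x, not_mem_psi_of_pair hG hxy hbot,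
        hcomm_of x (commutatorElement_eq_one_iff_mul_comm.mp hxc)⟩
    · have h1 : z ∈ Subgroup.zpowers ⁅x, c⁆ := mem_zpowers_prime hzo (hcz x) hxc
      obtain ⟨k, hk⟩ := (Subgroup.zpowers_le.mpr h1) (hcz y)
      have hk' : ⁅x, c⁆ ^ k = ⁅y, c⁆ := hk
      have hgen : Subgroup.closure {y * (x ^ k)⁻¹, x} = ⊤ := by
        rw [eq_top_iff, ← hxy, Subgroup.closure_le]
        have hx' : x ∈ Subgroup.closure {y * (x ^ k)⁻¹, x} :=
          Subgroup.subset_closure (by simp)
        have hy' : y * (x ^ k)⁻¹ ∈ Subgroup.closure {y * (x ^ k)⁻¹, x} :=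
          Subgroup.subset_closure (by simp)
        rintro g (rfl | hg)
        · exact hx'
        · rw [Set.mem_singleton_iff.mp hg]
          have := mul_mem hy' (zpow_mem hx' k)
          rwa [inv_mul_cancel_right] at this
      refine ⟨y * (x ^ k)⁻¹, not_mem_psi_of_pair hG hgen hbot, hcomm_of _ ?_⟩
      have hcK : c ∈ K2 G := by
        intro g
        rw [← commutatorElement_inv]
        exact inv_mem ((Subgroup.zpowers_le.mpr hzc) (hcz g))
      rw [← commutatorElement_eq_one_iff_mul_comm, ← commutatorElement_inv,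
        K2_mul_right hcK, ← zpow_neg, K2_zpow_right hcK]
      have e1 : ⁅c, y⁆ = ⁅c, x⁆ ^ k := by
        rw [← commutatorElement_inv y c, ← hk', ← commutatorElement_inv x c, inv_zpow]
      rw [e1, zpow_neg, mul_inv_cancel, inv_one]
  -- the class of `w` is too small
  obtain ⟨v, hwv⟩ := hgood.pair_of hG hwP
  set e := ⁅v, w⁆ with he
  have heA : e ∈ commutator G := comm_mem v w
  have hev : v * w * v⁻¹ = e * w := by rw [he, commutatorElement_def]; group
  have hez : ⁅v, e⁆ ∈ Subgroup.zpowers z := by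
    obtain ⟨k, l, hl⟩ := hAz e heA
    have e1 : e = c ^ k * z ^ l := by
      have hl' : z ^ l = (c ^ k)⁻¹ * e := hl
      rw [hl', mul_inv_cancel_left]
    have hzl : z ^ l ∈ Subgroup.center G := zpow_mem hzc l
    have e2 : ⁅v, e⁆ = v * c ^ k * v⁻¹ * (c ^ k)⁻¹ := by
      rw [commutatorElement_def, e1]
      have : v * (c ^ k * z ^ l) * v⁻¹ * (c ^ k * z ^ l)⁻¹
          = v * c ^ k * (z ^ l * v⁻¹) * (z ^ l)⁻¹ * (c ^ k)⁻¹ := by group
      rw [this, ← ctr hzl v⁻¹]
      group
    rw [e2, ← conj_zpow]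
    have e3 : v * c * v⁻¹ = ⁅v, c⁆ * c := by rw [commutatorElement_def]; group
    have h3 : Commute ⁅v, c⁆ c := by
      have := ctr ((Subgroup.zpowers_le.mpr hzc) (hcz v)) c
      exact this.symm
    rw [e3, h3.mul_zpow, mul_inv_cancel_right]
    exact zpow_mem (hcz v) k
  set f := ⁅v, e⁆ with hf
  have hfc : f ∈ Subgroup.center G := (Subgroup.zpowers_le.mpr hzc) hez
  have hve : v * e * v⁻¹ = f * e := by rw [hf, commutatorElement_def]; group
  have hzw : z * w ∈ {s : G | ∃ j : ℕ, s = e ^ j * f ^ (j.choose 2) * w} := by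
    refine mem_of_isConj_pair (x := w) (y := v) hwv _ ?_ ?_ (s := w) ⟨0, by simp⟩ ?_
    · rintro s ⟨j, rfl⟩
      refine ⟨j, ?_⟩
      have h1 : Commute w (e ^ j) := (show Commute w e from hwA e heA).pow_right j
      have h2 : Commute w (f ^ (j.choose 2)) := ctr (pow_mem hfc _) w
      have h3 := h1.mul_right h2
      rw [← mul_assoc, h3.eq]
      group
    · rintro s ⟨j, rfl⟩
      refine ⟨j + 1, ?_⟩
      have h1 : f ^ (j.choose 2) ∈ Subgroup.center G := pow_mem hfc _
      have h2 : f ^ j ∈ Subgroup.center G := pow_mem hfc _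
      have hcm : Commute f e := (ctr hfc e).symm
      have e1 : v * (e ^ j * f ^ (j.choose 2) * w) * v⁻¹
          = (v * e * v⁻¹) ^ j * (v * f ^ (j.choose 2) * v⁻¹) * (v * w * v⁻¹) := by
        rw [conj_pow]; group
      rw [e1, hve, hev, ctr h1 v, mul_inv_cancel_right, hcm.mul_pow]
      have e2 : (j + 1).choose 2 = j + j.choose 2 := by
        rw [Nat.choose_succ_succ' j 1, Nat.choose_one_right]
      rw [e2, pow_add f, pow_succ e]
      have h3 := ctr h1 e
      have h4 := ctr h2 (e ^ j * e)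
      calc f ^ j * e ^ j * f ^ (j.choose 2) * (e * w)
          = f ^ j * e ^ j * (f ^ (j.choose 2) * e) * w := by group
        _ = f ^ j * e ^ j * (e * f ^ (j.choose 2)) * w := by rw [h3]
        _ = f ^ j * (e ^ j * e) * f ^ (j.choose 2) * w := by group
        _ = (e ^ j * e) * f ^ j * f ^ (j.choose 2) * w := by rw [← h4]
        _ = (e ^ j * e) * (f ^ j * f ^ (j.choose 2)) * w := by group
    · apply hgood.isConj hG hwP
      have : w⁻¹ * (z * w) = z := by rw [← ctr hzc w, inv_mul_cancel_left]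
      rw [this]; exact hzA
  obtain ⟨j, hj⟩ := hzw
  have hj1 : z = e ^ j * f ^ (j.choose 2) := mul_right_cancel hj
  -- `e` is not in `⟨z⟩`
  have heAgen : ∀ a ∈ commutator G, ∃ k : ℤ, (e ^ k)⁻¹ * a ∈ Subgroup.zpowers z := by
    intro a ha
    haveI := zpowers_normal_of_central hzc
    have hle : Subgroup.zpowers z ≤ Psi p G :=
      (Subgroup.zpowers_le.mpr hzA).trans (comm_le_psi p)
    have h1 : IsCyclic (commutator (G ⧸ Subgroup.zpowers z)) :=
      ih _ (by rw [← hn]; exact card_quot_lt (by rwa [Ne, Subgroup.zpowers_eq_bot])) _ rfl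
        (hG.to_quotient _) (good_quot hG hgood _ hle)
    have hvw : Subgroup.closure {v, w} = ⊤ := by rw [Set.pair_comm]; exact hwv
    exact quot_cyc h1 hvw ha
  have henz : e ∉ Subgroup.zpowers z := by
    intro h
    apply hnc
    rw [isCyclic_iff_exists_zpowers_eq_top]
    refine ⟨⟨z, hzA⟩, ?_⟩
    rw [eq_top_iff]
    rintro ⟨a, ha⟩ _
    obtain ⟨k, hk⟩ := heAgen a ha
    have h3 := mul_mem (Subgroup.zpow_mem _ h k) hk
    rw [mul_inv_cancel_left] at h3
    obtain ⟨m, hm⟩ := h3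
    exact ⟨m, Subtype.ext hm⟩
  have hep : e ^ p = 1 := by
    obtain ⟨k, l, hl⟩ := hAz e heA
    have e1 : e = c ^ k * z ^ l := by
      have hl' : z ^ l = (c ^ k)⁻¹ * e := hl
      rw [hl', mul_inv_cancel_left]
    have hzl : z ^ l ∈ Subgroup.center G := zpow_mem hzc l
    have hcomm : Commute (c ^ k) (z ^ l) := ctr hzl _
    have hzp : z ^ (p : ℕ) = 1 := by rw [← hzo, pow_orderOf_eq_one]
    rw [e1, hcomm.mul_pow, ← zpow_natCast (z ^ l), ← zpow_mul, mul_comm l,
          zpow_mul, zpow_natCast, hzp, one_zpow, mul_one, ← zpow_natCast, ← zpow_mul,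
          mul_comm, zpow_mul, zpow_natCast, hcp, one_zpow]
  have hejz : e ^ j ∈ Subgroup.zpowers z := by
    have : e ^ j = z * (f ^ (j.choose 2))⁻¹ := by rw [hj1, mul_inv_cancel_right]
    rw [this]
    exact mul_mem (Subgroup.mem_zpowers z) (inv_mem (pow_mem hez _))
  have hpj : p ∣ j := by
    by_contra h
    apply henz
    have hcop : Nat.Coprime j p := ((Nat.Prime.coprime_iff_not_dvd hp.out).mpr h).symm
    have h2 : IsCoprime (j : ℤ) (p : ℤ) := Nat.isCoprime_iff_coprime.mpr hcop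
    obtain ⟨r, s, hrs⟩ := h2
    have h3 : e = (e ^ j) ^ r := by
      rw [← zpow_natCast, ← zpow_mul]
      have : (j : ℤ) * r = 1 - p * s := by linarith
      rw [this, zpow_sub, zpow_mul, zpow_natCast, hep, one_zpow, zpow_one, inv_one, mul_one]
    rw [h3]
    exact zpow_mem hejz r
  have hfp : f ^ p = 1 := by
    obtain ⟨l, hl⟩ := hez
    have hl' : z ^ l = f := hl
    rw [← hl', ← zpow_natCast, ← zpow_mul, mul_comm, zpow_mul, zpow_natCast, ← hzo,
      pow_orderOf_eq_one, one_zpow]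
  apply hz1
  rw [hj1]
  obtain ⟨r, hr⟩ := hpj
  obtain ⟨s, hs⟩ := dvd_choose_two hp.out hp2 (m := j) ⟨r, hr⟩
  rw [hs, hr, pow_mul, pow_mul, hep, hfp, one_pow, one_pow, mul_one]

end Pool.Agent.N47.AC
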