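import Mathlib
import Pool.Agent.N47.AC.Odd

/-!
Class-preserving automorphisms of finite `2`-groups: computations in a two-generator group whose
commutator subgroup is elementary abelian modulo a central subgroup of order two.
-/

set_option autoImplicit false

open scoped commutatorElement

namespace Pool.Agent.N47.AC

/-- the model of the commutator subgroup: exponents of `c, u, v, t` -/
abbrev Mo : Type := ZMod 4 × ZMod 2 × ZMod 2 × ZMod 2

/-- reduction modulo two -/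
def red (i : ZMod 4) : ZMod 2 := ZMod.castHom (show 2 ∣ 4 by norm_num) (ZMod 2) i

lemma red_add (i j : ZMod 4) : red (i + j) = red i + red j := map_add _ i j

/-- conjugation by `x` -/
def mX (α β : ZMod 2) (m : Mo) : Mo :=
  (m.1, m.2.1 + red m.1, m.2.2.1, m.2.2.2 + α * m.2.1 + β * m.2.2.1)

/-- conjugation by `y` -/
def mY (β γ : ZMod 2) (m : Mo) : Mo :=
  (m.1, m.2.1, m.2.2.1 + red m.1, m.2.2.2 + β * m.2.1 + γ * m.2.2.1)

def homX (α β : ZMod 2) : Mo →+ Mo where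
  toFun := mX α β
  map_zero' := by simp [mX, red]
  map_add' := by
    rintro ⟨a, b, c, d⟩ ⟨a', b', c', d'⟩
    simp only [mX, Prod.mk_add_mk, red_add, Prod.mk.injEq]
    refine ⟨trivial, by ring, trivial, by ring⟩

def homY (β γ : ZMod 2) : Mo →+ Mo where
  toFun := mY β γ
  map_zero' := by simp [mY, red]
  map_add' := by
    rintro ⟨a, b, c, d⟩ ⟨a', b', c', d'⟩
    simp only [mY, Prod.mk_add_mk, red_add, Prod.mk.injEq]
    refine ⟨trivial, trivial, by ring, by ring⟩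

lemma mo_decomp (m : Mo) : m = m.1.val • ((1, 0, 0, 0) : Mo) + m.2.1.val • ((0, 1, 0, 0) : Mo)
    + m.2.2.1.val • ((0, 0, 1, 0) : Mo) + m.2.2.2.val • ((0, 0, 0, 1) : Mo) := by
  obtain ⟨a, b, c, d⟩ := m
  simp [Prod.smul_mk, Prod.mk_add_mk]

lemma mo_ext {B : Type*} [AddMonoid B] {f g : Mo →+ B} (h1 : f (1, 0, 0, 0) = g (1, 0, 0, 0))
    (h2 : f (0, 1, 0, 0) = g (0, 1, 0, 0)) (h3 : f (0, 0, 1, 0) = g (0, 0, 1, 0))
    (h4 : f (0, 0, 0, 1) = g (0, 0, 0, 1)) : f = g := by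
  ext m
  rw [mo_decomp m]
  simp only [map_add, map_nsmul, h1, h2, h3, h4]

/-- the orbit of `0` under two maps -/
def orb (fx fy : Mo → Mo) : ℕ → Finset Mo
  | 0 => {0}
  | n + 1 => orb fx fy n ∪ (orb fx fy n).image fx ∪ (orb fx fy n).image fy

lemma zero_mem_orb (fx fy : Mo → Mo) (n : ℕ) : (0 : Mo) ∈ orb fx fy n := by
  induction n with
  | zero => exact Finset.mem_singleton_self _
  | succ n ih =>
    exact Finset.mem_union_left _ (Finset.mem_union_left _ ih)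

/-- closed and avoids the `t` up to the kernel -/
def Bad (fx fy : Mo → Mo) (n : ℕ) (K : Finset Mo) : Prop :=
  (orb fx fy n).image fx ⊆ orb fx fy n ∧ (orb fx fy n).image fy ⊆ orb fx fy n ∧
    ∀ m ∈ orb fx fy n, m - (0, 0, 0, 1) ∉ K

instance (fx fy : Mo → Mo) (n : ℕ) (K : Finset Mo) : Decidable (Bad fx fy n K) := by
  unfold Bad; infer_instance

def ker1 (ε δ : ZMod 2) : Finset Mo :=
  {(0, 0, 0, 0), (2, 0, 0, ε), (0, 1, 0, δ), (2, 1, 0, ε + δ)}

def ker2 (ε : ZMod 2) : Finset Mo := {(0, 0, 0, 0), (2, 0, 0, ε)}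

/-- rank one, `u = 1`, the class of `x` -/
lemma bad1a : ∀ γ ε : ZMod 2,
    Bad (mX 0 0) (fun m => mY 0 γ m + (3, 0, 0, 0)) 8 (ker1 ε 0) := by
  decide +kernel

/-- rank one, `u = t`, `γ₄ = 1`, `c² = t`, the class of `y` -/
lemma bad1c : Bad (fun m => mX 0 0 m + (1, 0, 0, 0)) (mY 0 0) 8 (ker1 1 1) := by
  decide +kernel

/-- rank two, `γ₄ = 1`, `c² = t`, the class of `x` -/
lemma bad2a : Bad (mX 0 0) (fun m => mY 0 0 m + (3, 0, 0, 0)) 8 (ker2 1) := by
  decide +kernel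

/-- rank two, form `(0, 0, 1)`, the class of `x` -/
lemma bad2b : ∀ ε : ZMod 2,
    Bad (mX 0 0) (fun m => mY 0 1 m + (3, 0, 0, 0)) 8 (ker2 ε) := by
  decide +kernel

/-- rank two, form `(0, 1, 0)`, the class of `c` -/
lemma bad2c : ∀ ε : ZMod 2,
    Bad (fun m => mX 0 1 m + (0, 1, 0, 0)) (fun m => mY 1 0 m + (0, 0, 1, 0)) 8 (ker2 ε) := by
  decide +kernel

/-- rank two, form `(1, 0, 1)`, the class of `x² y²` -/
lemma bad2d : ∀ ε : ZMod 2,
    Bad (fun m => mX 1 0 m + (2, 0, 1, 0)) (fun m => mY 0 1 m + (2, 1, 0, 0)) 8 (ker2 ε) := by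
  decide +kernel

end Pool.Agent.N47.AC
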