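import Mathlib
import Pool.Agent.N47.AC.TwoDat

/-!
Class-preserving automorphisms of finite `2`-groups: the commutator subgroup of a critical group.
-/

set_option autoImplicit false

open scoped commutatorElement

namespace Pool.Agent.N47.AC

open Pool.Agent.Helper832.AutC

/-- generators and relations of a critical group -/
structure Dat {G : Type} [Group G] (x y t c u v : G) (α β γ ε : ZMod 2) : Prop where
  gen : Subgroup.closure {x, y} = ⊤
  hc : ⁅x, y⁆ = c
  hu : x * c * x⁻¹ = u * c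
  hv : y * c * y⁻¹ = v * c
  ht : t ∈ Subgroup.center G
  t2 : t ^ 2 = 1
  t1 : t ≠ 1
  tA : t ∈ commutator G
  xu : x * u * x⁻¹ = t ^ α.val * u
  xv : x * v * x⁻¹ = t ^ β.val * v
  yu : y * u * y⁻¹ = t ^ β.val * u
  yv : y * v * y⁻¹ = t ^ γ.val * v
  c2 : c ^ 2 = t ^ ε.val
  u2 : u ^ 2 = 1
  v2 : v ^ 2 = 1
  cu : c * u = u * c
  cv : c * v = v * c
  uv : u * v = v * u

section

variable {G : Type} [Group G] {x y t c u v : G} {α β γ ε : ZMod 2}

/-- the exponential map of the model -/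
def EE (c u v t : G) (m : Mo) : G :=
  c ^ m.1.val * u ^ m.2.1.val * v ^ m.2.2.1.val * t ^ m.2.2.2.val

lemma Dat.c4 (D : Dat x y t c u v α β γ ε) : c ^ 4 = 1 := by
  have : c ^ 4 = (c ^ 2) ^ 2 := by rw [← pow_mul]
  rw [this, D.c2, ← pow_mul, mul_comm, pow_mul, D.t2, one_pow]

lemma val_pow {n : ℕ} [NeZero n] {g : G} (hg : g ^ n = 1) (a b : ZMod n) :
    g ^ (a + b).val = g ^ a.val * g ^ b.val := by
  rw [ZMod.val_add, ← pow_add, ← pow_mod_of_pow_eq_one' hg]
where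
  pow_mod_of_pow_eq_one' {n : ℕ} {g : G} (hg : g ^ n = 1) {k : ℕ} : g ^ k = g ^ (k % n) := by
    conv_lhs => rw [← Nat.mod_add_div k n, pow_add, pow_mul, hg, one_pow, mul_one]

lemma Dat.add (D : Dat x y t c u v α β γ ε) (m m' : Mo) :
    EE c u v t (m + m') = EE c u v t m * EE c u v t m' := by
  obtain ⟨i, j, k, l⟩ := m
  obtain ⟨i', j', k', l'⟩ := m'
  have hcu : Commute c u := D.cu
  have hcv : Commute c v := D.cv
  have huv : Commute u v := D.uv
  have htc : Commute t c := (ctr D.ht c).symm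
  have htu : Commute t u := (ctr D.ht u).symm
  have htv : Commute t v := (ctr D.ht v).symm
  show c ^ (i + i').val * u ^ (j + j').val * v ^ (k + k').val * t ^ (l + l').val
    = (c ^ i.val * u ^ j.val * v ^ k.val * t ^ l.val)
      * (c ^ i'.val * u ^ j'.val * v ^ k'.val * t ^ l'.val)
  rw [val_pow D.c4, val_pow D.u2, val_pow D.v2, val_pow D.t2]
  have h1 : Commute (u ^ j.val) (c ^ i'.val) := (hcu.symm.pow_pow _ _)
  have h2 : Commute (v ^ k.val) (c ^ i'.val) := (hcv.symm.pow_pow _ _)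
  have h3 : Commute (t ^ l.val) (c ^ i'.val) := (htc.pow_pow _ _)
  have h4 : Commute (v ^ k.val) (u ^ j'.val) := (huv.symm.pow_pow _ _)
  have h5 : Commute (t ^ l.val) (u ^ j'.val) := (htu.pow_pow _ _)
  have h6 : Commute (t ^ l.val) (v ^ k'.val) := (htv.pow_pow _ _)
  have hR : (c ^ i.val * u ^ j.val * v ^ k.val * t ^ l.val)
      * (c ^ i'.val * u ^ j'.val * v ^ k'.val * t ^ l'.val)
      = c ^ i.val * u ^ j.val * v ^ k.val * (t ^ l.val * c ^ i'.val) * u ^ j'.val * v ^ k'.val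
        * t ^ l'.val := by group
  rw [hR, h3.eq]
  have hR2 : c ^ i.val * u ^ j.val * v ^ k.val * (c ^ i'.val * t ^ l.val) * u ^ j'.val
      * v ^ k'.val * t ^ l'.val
      = c ^ i.val * u ^ j.val * (v ^ k.val * c ^ i'.val) * (t ^ l.val * u ^ j'.val)
      * v ^ k'.val * t ^ l'.val := by group
  rw [hR2, h2.eq, h5.eq]
  have hR3 : c ^ i.val * u ^ j.val * (c ^ i'.val * v ^ k.val) * (u ^ j'.val * t ^ l.val)
      * v ^ k'.val * t ^ l'.val
      = c ^ i.val * (u ^ j.val * c ^ i'.val) * (v ^ k.val * u ^ j'.val) * (t ^ l.val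
      * v ^ k'.val) * t ^ l'.val := by group
  rw [hR3, h1.eq, h4.eq, h6.eq]
  group

lemma hom_zero {F : Mo → G} (hF : ∀ m m', F (m + m') = F m * F m') : F 0 = 1 := by
  have := hF 0 0
  rw [add_zero] at this
  exact (mul_eq_left.mp this.symm)

lemma hom_nsmul {F : Mo → G} (hF : ∀ m m', F (m + m') = F m * F m') (n : ℕ) (m : Mo) :
    F (n • m) = F m ^ n := by
  induction n with
  | zero => rw [zero_nsmul, pow_zero, hom_zero hF]
  | succ n ih => rw [succ_nsmul, pow_succ, hF, ih]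

lemma hom_ext {F F' : Mo → G} (hF : ∀ m m', F (m + m') = F m * F m')
    (hF' : ∀ m m', F' (m + m') = F' m * F' m')
    (h1 : F (1, 0, 0, 0) = F' (1, 0, 0, 0)) (h2 : F (0, 1, 0, 0) = F' (0, 1, 0, 0))
    (h3 : F (0, 0, 1, 0) = F' (0, 0, 1, 0)) (h4 : F (0, 0, 0, 1) = F' (0, 0, 0, 1)) (m : Mo) :
    F m = F' m := by
  rw [mo_decomp m]
  simp only [hF, hF', hom_nsmul hF, hom_nsmul hF', h1, h2, h3, h4]

lemma EE_c : EE c u v t (1, 0, 0, 0) = c := by
  show c ^ 1 * u ^ 0 * v ^ 0 * t ^ 0 = c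
  simp

lemma EE_u : EE c u v t (0, 1, 0, 0) = u := by
  show c ^ 0 * u ^ 1 * v ^ 0 * t ^ 0 = u
  simp

lemma EE_v : EE c u v t (0, 0, 1, 0) = v := by
  show c ^ 0 * u ^ 0 * v ^ 1 * t ^ 0 = v
  simp

lemma EE_t : EE c u v t (0, 0, 0, 1) = t := by
  show c ^ 0 * u ^ 0 * v ^ 0 * t ^ 1 = t
  simp

lemma Dat.zero (D : Dat x y t c u v α β γ ε) : EE c u v t 0 = 1 := hom_zero D.add

lemma Dat.conj_x (D : Dat x y t c u v α β γ ε) (m : Mo) :
    x * EE c u v t m * x⁻¹ = EE c u v t (mX α β m) := by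
  have h1 : ∀ m m' : Mo, EE c u v t (mX α β (m + m'))
      = EE c u v t (mX α β m) * EE c u v t (mX α β m') := by
    intro m m'
    rw [← D.add]
    congr 1
    exact map_add (homX α β) m m'
  refine hom_ext (F := fun m => x * EE c u v t m * x⁻¹) (F' := fun m => EE c u v t (mX α β m))
    ?_ h1 ?_ ?_ ?_ ?_ m
  · intro m m'
    show x * EE c u v t (m + m') * x⁻¹ = _
    rw [D.add]; group
  · show x * EE c u v t (1, 0, 0, 0) * x⁻¹ = EE c u v t (mX α β (1, 0, 0, 0))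
    have e : mX α β (1, 0, 0, 0) = (0, 1, 0, 0) + (1, 0, 0, 0) := by
      clear h1 D; revert α β; decide
    rw [e, D.add, EE_c, EE_u, D.hu]
  · show x * EE c u v t (0, 1, 0, 0) * x⁻¹ = EE c u v t (mX α β (0, 1, 0, 0))
    have e : mX α β (0, 1, 0, 0) = α.val • (0, 0, 0, 1) + (0, 1, 0, 0) := by
      clear h1 D; revert α β; decide
    rw [e, D.add, hom_nsmul D.add, EE_t, EE_u, D.xu]
  · show x * EE c u v t (0, 0, 1, 0) * x⁻¹ = EE c u v t (mX α β (0, 0, 1, 0))
    have e : mX α β (0, 0, 1, 0) = β.val • (0, 0, 0, 1) + (0, 0, 1, 0) := by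
      clear h1 D; revert α β; decide
    rw [e, D.add, hom_nsmul D.add, EE_t, EE_v, D.xv]
  · show x * EE c u v t (0, 0, 0, 1) * x⁻¹ = EE c u v t (mX α β (0, 0, 0, 1))
    have e : mX α β (0, 0, 0, 1) = (0, 0, 0, 1) := by
      clear h1 D; revert α β; decide
    rw [e, EE_t, ctr D.ht, mul_inv_cancel_right]

lemma Dat.conj_y (D : Dat x y t c u v α β γ ε) (m : Mo) :
    y * EE c u v t m * y⁻¹ = EE c u v t (mY β γ m) := by
  have h1 : ∀ m m' : Mo, EE c u v t (mY β γ (m + m'))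
      = EE c u v t (mY β γ m) * EE c u v t (mY β γ m') := by
    intro m m'
    rw [← D.add]
    congr 1
    exact map_add (homY β γ) m m'
  refine hom_ext (F := fun m => y * EE c u v t m * y⁻¹) (F' := fun m => EE c u v t (mY β γ m))
    ?_ h1 ?_ ?_ ?_ ?_ m
  · intro m m'
    show y * EE c u v t (m + m') * y⁻¹ = _
    rw [D.add]; group
  · show y * EE c u v t (1, 0, 0, 0) * y⁻¹ = EE c u v t (mY β γ (1, 0, 0, 0))
    have e : mY β γ (1, 0, 0, 0) = (0, 0, 1, 0) + (1, 0, 0, 0) := by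
      clear h1 D; revert β γ; decide
    rw [e, D.add, EE_c, EE_v, D.hv]
  · show y * EE c u v t (0, 1, 0, 0) * y⁻¹ = EE c u v t (mY β γ (0, 1, 0, 0))
    have e : mY β γ (0, 1, 0, 0) = β.val • (0, 0, 0, 1) + (0, 1, 0, 0) := by
      clear h1 D; revert β γ; decide
    rw [e, D.add, hom_nsmul D.add, EE_t, EE_u, D.yu]
  · show y * EE c u v t (0, 0, 1, 0) * y⁻¹ = EE c u v t (mY β γ (0, 0, 1, 0))
    have e : mY β γ (0, 0, 1, 0) = γ.val • (0, 0, 0, 1) + (0, 0, 1, 0) := by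
      clear h1 D; revert β γ; decide
    rw [e, D.add, hom_nsmul D.add, EE_t, EE_v, D.yv]
  · show y * EE c u v t (0, 0, 0, 1) * y⁻¹ = EE c u v t (mY β γ (0, 0, 0, 1))
    have e : mY β γ (0, 0, 0, 1) = (0, 0, 0, 1) := by
      clear h1 D; revert β γ; decide
    rw [e, EE_t, ctr D.ht, mul_inv_cancel_right]

/-- every element of the commutator subgroup is a value of the exponential map -/
lemma Dat.surj [Finite G] (D : Dat x y t c u v α β γ ε) {a : G} (ha : a ∈ commutator G) :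
    ∃ m, EE c u v t m = a := by
  let N : Subgroup G :=
    { carrier := Set.range (EE c u v t)
      one_mem' := ⟨0, D.zero⟩
      mul_mem' := by
        rintro _ _ ⟨m, rfl⟩ ⟨m', rfl⟩
        exact ⟨m + m', D.add m m'⟩
      inv_mem' := by
        rintro _ ⟨m, rfl⟩
        refine ⟨-m, ?_⟩
        rw [eq_inv_iff_mul_eq_one, ← D.add, neg_add_cancel, D.zero] }
  have hN : N.Normal := by
    refine ⟨fun n hn g => ?_⟩
    exact mem_of_isConj_pair D.gen (N : Set G) (by
      rintro _ ⟨m, rfl⟩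
      exact ⟨_, (D.conj_x m).symm⟩) (by
      rintro _ ⟨m, rfl⟩
      exact ⟨_, (D.conj_y m).symm⟩) hn (isConj_iff.mpr ⟨g, rfl⟩)
  have h1 : commutator G ≤ N := by
    apply comm_le_of_pair D.gen
    rw [D.hc]
    exact ⟨_, EE_c⟩
  exact h1 ha

lemma Dat.mem (D : Dat x y t c u v α β γ ε) (m : Mo) : EE c u v t m ∈ commutator G := by
  have hcA : c ∈ commutator G := by rw [← D.hc]; exact comm_mem _ _
  have huA : u ∈ commutator G := by
    have : u = ⁅x, c⁆ := by rw [commutatorElement_def, D.hu, mul_inv_cancel_right]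
    rw [this]; exact comm_mem _ _
  have hvA : v ∈ commutator G := by
    have : v = ⁅y, c⁆ := by rw [commutatorElement_def, D.hv, mul_inv_cancel_right]
    rw [this]; exact comm_mem _ _
  exact mul_mem (mul_mem (mul_mem (pow_mem hcA _) (pow_mem huA _)) (pow_mem hvA _))
    (pow_mem D.tA _)

/-- if the conjugates of `w` are controlled by a bad pair of maps, then `t w` is not conjugate
to `w` -/
lemma Dat.not_isConj [Finite G] (D : Dat x y t c u v α β γ ε) {K : Finset Mo}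
    (hK : ∀ m, EE c u v t m = 1 → m ∈ K) {w : G} {ξ η : Mo}
    (hξ : x * w * x⁻¹ = EE c u v t ξ * w) (hη : y * w * y⁻¹ = EE c u v t η * w)
    {fx fy : Mo → Mo} (hfx : ∀ m, fx m = mX α β m + ξ) (hfy : ∀ m, fy m = mY β γ m + η)
    {n : ℕ} (hbad : Bad fx fy n K) : ¬ IsConj w (t * w) := by
  intro h
  obtain ⟨h1, h2, h3⟩ := hbad
  have hmem : t * w ∈ {s : G | ∃ m ∈ orb fx fy n, s = EE c u v t m * w} := by
    refine mem_of_isConj_pair D.gen _ ?_ ?_ (s := w) ⟨0, zero_mem_orb _ _ _, ?_⟩ h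
    · rintro s ⟨m, hm, rfl⟩
      refine ⟨fx m, h1 (Finset.mem_image_of_mem _ hm), ?_⟩
      rw [hfx, D.add, ← D.conj_x, mul_assoc (x * EE c u v t m * x⁻¹), ← hξ]
      group
    · rintro s ⟨m, hm, rfl⟩
      refine ⟨fy m, h2 (Finset.mem_image_of_mem _ hm), ?_⟩
      rw [hfy, D.add, ← D.conj_y, mul_assoc (y * EE c u v t m * y⁻¹), ← hη]
      group
    · rw [D.zero, one_mul]
  obtain ⟨m, hm, hmt⟩ := hmem
  have h4 : t = EE c u v t m := mul_right_cancel hmt
  apply h3 m hm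
  apply hK
  have h5 : EE c u v t (m - (0, 0, 0, 1)) * EE c u v t (0, 0, 0, 1) = EE c u v t m := by
    rw [← D.add, sub_add_cancel]
  rw [EE_t, ← h4] at h5
  exact mul_eq_right.mp h5

lemma Dat.y_conj_x (D : Dat x y t c u v α β γ ε) :
    y * x * y⁻¹ = EE c u v t (3, 0, 0, 0) * x := by
  have e : EE c u v t (3, 0, 0, 0) = c⁻¹ := by
    rw [eq_inv_iff_mul_eq_one, ← EE_c (c := c) (u := u) (v := v) (t := t)]
    conv_lhs => rw [EE_c (c := c) (u := u) (v := v) (t := t)]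
    have : EE c u v t (3, 0, 0, 0) * c = EE c u v t ((3, 0, 0, 0) + (1, 0, 0, 0)) := by
      rw [D.add, EE_c]
    rw [this]
    exact D.zero
  rw [e, ← D.hc, commutatorElement_def]; group

lemma Dat.x_conj_y (D : Dat x y t c u v α β γ ε) :
    x * y * x⁻¹ = EE c u v t (1, 0, 0, 0) * y := by
  rw [EE_c, ← D.hc, commutatorElement_def]; group

end

end Pool.Agent.N47.AC
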