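import Mathlib
import Pool.Agent.N47.AC.TwoStr

/-!
Class-preserving automorphisms of finite `2`-groups: there is no critical group.
-/

set_option autoImplicit false

open scoped commutatorElement

namespace Pool.Agent.N47.AC

open Pool.Agent.Helper832.AutC

variable {G : Type} [Group G]

instance K2_normal : (K2 G).Normal := by
  refine ⟨fun a ha g h => ?_⟩
  have : ⁅g * a * g⁻¹, h⁆ = g * ⁅a, g⁻¹ * h * g⁆ * g⁻¹ := by
    simp only [commutatorElement_def]; group
  rw [this]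
  exact (inferInstance : (Subgroup.center G).Normal).conj_mem _ (ha _) g

structure Crit (t : G) : Prop where
  ht : t ∈ Subgroup.center G
  t2 : t ^ 2 = 1
  t1 : t ≠ 1
  tA : t ∈ commutator G
  sq : ∀ a ∈ commutator G, a ^ 2 ∈ Subgroup.zpowers t
  g4 : ∀ a b c e : G, ⁅⁅⁅a, b⁆, c⁆, e⁆ ∈ Subgroup.zpowers t
  nc : ∀ x y : G, Subgroup.closure {x, y} = ⊤ →
    ∃ a ∈ commutator G, ∀ k : ℤ, (⁅x, y⁆ ^ k)⁻¹ * a ∉ Subgroup.zpowers t
  ne : ¬ ((∀ a ∈ commutator G, a ^ 2 = 1) ∧ ∀ a b c e : G, ⁅⁅⁅a, b⁆, c⁆, e⁆ = 1)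

lemma exists_zmod {t a : G} (t2 : t ^ 2 = 1) (ha : a ∈ Subgroup.zpowers t) :
    ∃ ε : ZMod 2, a = t ^ ε.val := by
  obtain ⟨k, rfl⟩ := ha
  rcases Int.even_or_odd' k with ⟨m, rfl | rfl⟩
  · refine ⟨0, ?_⟩
    show t ^ (2 * m) = _
    rw [zpow_mul, show t ^ (2 : ℤ) = 1 from by exact_mod_cast t2, one_zpow, ZMod.val_zero,
      pow_zero]
  · refine ⟨1, ?_⟩
    show t ^ (2 * m + 1) = _
    rw [zpow_add, zpow_mul, show t ^ (2 : ℤ) = 1 from by exact_mod_cast t2, one_zpow, one_mul,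
      zpow_one]
    exact (pow_one t).symm

lemma Crit.dat {t : G} (C : Crit t) {x y : G} (hxy : Subgroup.closure {x, y} = ⊤) :
    ∃ (c u v : G) (α β γ ε : ZMod 2), Dat x y t c u v α β γ ε := by
  set c := ⁅x, y⁆ with hc
  set u := ⁅x, c⁆ with hu
  set v := ⁅y, c⁆ with hv
  have hZ : Subgroup.zpowers t ≤ Subgroup.center G := Subgroup.zpowers_le.mpr C.ht
  have hcA : c ∈ commutator G := comm_mem _ _
  have hvA : v ∈ commutator G := comm_mem _ _
  have huA : u ∈ commutator G := comm_mem _ _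
  have hK : ∀ w g : G, ⁅⁅w, c⁆, g⁆ ∈ Subgroup.zpowers t := by
    intro w g
    have h1 := C.g4 x y w g
    have hcen : ⁅⁅c, w⁆, g⁆ ∈ Subgroup.center G := hZ h1
    have e : ⁅⁅w, c⁆, g⁆ = (⁅⁅c, w⁆, g⁆)⁻¹ := by
      rw [← commutatorElement_inv c w]
      set z := ⁅c, w⁆ with hz
      have e1 : ⁅z⁻¹, g⁆ = z⁻¹ * ⁅z, g⁆⁻¹ * z := by
        simp only [commutatorElement_def]; group
      rw [e1, ctr (inv_mem hcen), inv_mul_cancel_right]
    rw [e]
    exact inv_mem h1
  have hK2 : ∀ w : G, ⁅w, c⁆ ∈ K2 G := fun w g => hZ (hK w g)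
  have hK' : ∀ w g : G, ∃ α : ZMod 2, g * ⁅w, c⁆ * g⁻¹ = t ^ α.val * ⁅w, c⁆ := by
    intro w g
    obtain ⟨α, hα⟩ := exists_zmod C.t2 (inv_mem (hK w g))
    refine ⟨α, ?_⟩
    rw [← hα, commutatorElement_inv, commutatorElement_def g]
    group
  obtain ⟨α, hα⟩ := hK' x x
  obtain ⟨β, hβ⟩ := hK' y x
  obtain ⟨β', hβ'⟩ := hK' x y
  obtain ⟨γ, hγ⟩ := hK' y y
  obtain ⟨ε, hε⟩ := exists_zmod C.t2 (C.sq c hcA)
  have hcu : c * u = u * c := (K2_comm (hK2 x) hcA).symm
  have hcv : c * v = v * c := (K2_comm (hK2 y) hcA).symm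
  have huv : u * v = v * u := K2_comm (hK2 x) hvA
  have hxc : x * c * x⁻¹ = u * c := by rw [hu, commutatorElement_def]; group
  have hyc : y * c * y⁻¹ = v * c := by rw [hv, commutatorElement_def]; group
  have hc2 : c ^ 2 ∈ Subgroup.center G := hZ (C.sq c hcA)
  have hu2 : u ^ 2 = 1 := by
    have h1 : (x * c * x⁻¹) ^ 2 = c ^ 2 := by
      rw [conj_pow, ctr hc2, mul_inv_cancel_right]
    rw [hxc, (show Commute u c from hcu.symm).mul_pow] at h1
    exact mul_eq_right.mp h1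
  have hv2 : v ^ 2 = 1 := by
    have h1 : (y * c * y⁻¹) ^ 2 = c ^ 2 := by
      rw [conj_pow, ctr hc2, mul_inv_cancel_right]
    rw [hyc, (show Commute v c from hcv.symm).mul_pow] at h1
    exact mul_eq_right.mp h1
  have hββ : t ^ β'.val = t ^ β.val := by
    -- `(x y) c (x y)⁻¹ = (y x) c (y x)⁻¹`
    have e1 : x * (y * c * y⁻¹) * x⁻¹ = c * (y * (x * c * x⁻¹) * y⁻¹) * c⁻¹ := by
      rw [hc, commutatorElement_def]; group
    have hin : y * (x * c * x⁻¹) * y⁻¹ ∈ Subgroup.center G ∨ True := Or.inr trivial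
    have e2 : x * (v * c) * x⁻¹ = (x * v * x⁻¹) * (x * c * x⁻¹) := by group
    have e3 : y * (u * c) * y⁻¹ = (y * u * y⁻¹) * (y * c * y⁻¹) := by group
    have hβt : ∀ (δ : ZMod 2) (g : G), g * t ^ δ.val = t ^ δ.val * g := fun δ g =>
      ctr (pow_mem C.ht _) g
    rw [hyc, hxc, e2, e3, hβ, hβ', hxc, hyc] at e1
    -- `t^β v (u c) = c (t^β' u (v c)) c⁻¹`
    have e4 : c * (t ^ β'.val * u * (v * c)) * c⁻¹ = t ^ β'.val * (u * (v * c)) := by
      have f1 : c * (t ^ β'.val * u * (v * c)) * c⁻¹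
          = (c * t ^ β'.val) * (u * v) := by group
      have f2 : c * (u * v) = (u * v) * c := by
        rw [← mul_assoc, hcu, mul_assoc, hcv, mul_assoc]
      rw [f1, hβt, mul_assoc, f2]
      group
    rw [e4] at e1
    have e5 : t ^ β.val * v * (u * c) = t ^ β.val * (u * (v * c)) := by
      have : v * (u * c) = u * (v * c) := by rw [← mul_assoc, ← huv, mul_assoc]
      rw [mul_assoc, this]
    rw [e5] at e1
    exact (mul_right_cancel e1).symm
  refine ⟨c, u, v, α, β, γ, ε, ?_⟩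
  exact
    { gen := hxy, hc := rfl, hu := hxc, hv := hyc, ht := C.ht, t2 := C.t2, t1 := C.t1,
      tA := C.tA, xu := hα, xv := hβ, yu := by rw [← hββ]; exact hβ', yv := hγ, c2 := hε,
      u2 := hu2, v2 := hv2, cu := hcu, cv := hcv, uv := huv }

section

variable {x y t c u v : G} {α β γ ε : ZMod 2}

lemma val_eq_zero_of {t : G} (t1 : t ≠ 1) {α : ZMod 2} (h : t ^ α.val = 1) : α = 0 := by
  revert h
  have : ∀ α : ZMod 2, α = 0 ∨ α = 1 := by decide
  rcases this α with rfl | rfl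
  · intro _; rfl
  · intro h
    exact absurd ((pow_one t).symm.trans h) t1

lemma Dat.comm_EE (D : Dat x y t c u v α β γ ε) (m m' : Mo) :
    EE c u v t m * EE c u v t m' = EE c u v t m' * EE c u v t m := by
  rw [← D.add, ← D.add, add_comm]

/-- swap -/
lemma Dat.swap (D : Dat x y t c u v α β γ ε) : Dat y x t c⁻¹ v u γ β α ε where
  gen := by rw [Set.pair_comm]; exact D.gen
  hc := by rw [← D.hc, commutatorElement_inv]
  hu := by
    have : y * c⁻¹ * y⁻¹ = (y * c * y⁻¹)⁻¹ := by group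
    rw [this, D.hv, mul_inv_rev]
    have h1 : v⁻¹ = v := by
      rw [inv_eq_iff_mul_eq_one, ← pow_two]; exact D.v2
    rw [h1]
    exact (show Commute c v from D.cv).inv_left
  hv := by
    have : x * c⁻¹ * x⁻¹ = (x * c * x⁻¹)⁻¹ := by group
    rw [this, D.hu, mul_inv_rev]
    have h1 : u⁻¹ = u := by
      rw [inv_eq_iff_mul_eq_one, ← pow_two]; exact D.u2
    rw [h1]
    exact (show Commute c u from D.cu).inv_left
  ht := D.ht
  t2 := D.t2
  t1 := D.t1
  tA := D.tA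
  xu := D.yv
  xv := D.yu
  yu := D.xv
  yv := D.xu
  c2 := by
    rw [inv_pow, D.c2, inv_eq_iff_mul_eq_one, ← pow_two, ← pow_mul, mul_comm, pow_mul, D.t2,
      one_pow]
  u2 := D.v2
  v2 := D.u2
  cu := (show Commute c v from D.cv).inv_left
  cv := (show Commute c u from D.cu).inv_left
  uv := D.uv.symm

/-- `(x, y) ↦ (x y, y)` -/
lemma Dat.shift (D : Dat x y t c u v α β γ ε) :
    Dat (x * y) y t c (EE c u v t (0, 1, 1, β)) v (α + γ) (β + γ) γ ε := by
  have hcc : ∀ m : Mo, (x * y) * EE c u v t m * (x * y)⁻¹ = EE c u v t (mX α β (mY β γ m)) := by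
    intro m
    rw [← D.conj_x, ← D.conj_y]; group
  have htp : ∀ δ : ZMod 2, t ^ δ.val = EE c u v t (0, 0, 0, δ) := by
    intro δ
    show _ = c ^ 0 * u ^ 0 * v ^ 0 * t ^ δ.val
    simp
  refine
    { gen := ?_, hc := ?_, hu := ?_, hv := D.hv, ht := D.ht, t2 := D.t2, t1 := D.t1,
      tA := D.tA, xu := ?_, xv := ?_, yu := ?_, yv := D.yv, c2 := D.c2,
      u2 := ?_, v2 := D.v2, cu := ?_, cv := D.cv, uv := ?_ }
  · rw [eq_top_iff, ← D.gen, Subgroup.closure_le]
    have h1 : y ∈ Subgroup.closure {x * y, y} := Subgroup.subset_closure (by simp)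
    have h2 : x * y ∈ Subgroup.closure {x * y, y} := Subgroup.subset_closure (by simp)
    rintro g (rfl | hg)
    · have := mul_mem h2 (inv_mem h1)
      rwa [mul_inv_cancel_right] at this
    · rw [Set.mem_singleton_iff.mp hg]; exact h1
  · rw [← D.hc]; simp only [commutatorElement_def]; group
  · conv_lhs => rw [← EE_c (c := c) (u := u) (v := v) (t := t)]
    rw [hcc]
    have e : mX α β (mY β γ (1, 0, 0, 0)) = (0, 1, 1, β) + (1, 0, 0, 0) := by
      clear hcc htp D; revert α β γ; decide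
    rw [e, D.add, EE_c]
  · rw [hcc, htp, ← D.add]
    congr 1
    clear hcc htp D; revert α β γ; decide
  · conv_lhs => rw [← EE_v (c := c) (u := u) (v := v) (t := t)]
    conv_rhs => rw [← EE_v (c := c) (u := u) (v := v) (t := t)]
    rw [hcc]
    have e : t ^ (β + γ).val * EE c u v t (0, 0, 1, 0)
        = EE c u v t ((0, 0, 0, β + γ) + (0, 0, 1, 0)) := by rw [D.add, ← htp]
    rw [e]
    congr 1
    clear e hcc htp D; revert α β γ; decide
  · rw [D.conj_y, htp, ← D.add]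
    congr 1
    clear hcc htp D; revert α β γ; decide
  · rw [← hom_nsmul D.add]
    have e : (2 : ℕ) • ((0, 1, 1, β) : Mo) = 0 := by
      clear hcc htp D; revert β; decide
    rw [e, D.zero]
  · have := D.comm_EE (1, 0, 0, 0) (0, 1, 1, β)
    rwa [EE_c] at this
  · have := D.comm_EE (0, 1, 1, β) (0, 0, 1, 0)
    rwa [EE_v] at this

end

end Pool.Agent.N47.AC
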