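import Mathlib
import Pool.Agent.N47.AC.TwoFin

/-!
Class-preserving automorphisms of finite `2`-groups: there is no critical group.
-/

set_option autoImplicit false

open scoped commutatorElement

namespace Pool.Agent.N47.AC

open Pool.Agent.Helper832.AutC

variable {G : Type} [Group G] {x y t c u v : G} {α β γ ε : ZMod 2}

lemma red_zero {a : ZMod 4} (h : red a = 0) : a = 0 ∨ a = 2 := by
  revert h; revert a; decide

lemma Dat.E_t (D : Dat x y t c u v α β γ ε) (δ : ZMod 2) :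
    t ^ δ.val = EE c u v t (0, 0, 0, δ) := by
  show _ = c ^ 0 * u ^ 0 * v ^ 0 * t ^ δ.val
  simp

lemma Dat.E_c2 (D : Dat x y t c u v α β γ ε) :
    EE c u v t (2, 0, 0, 0) = t ^ ε.val := by
  rw [← D.c2]
  show c ^ 2 * u ^ 0 * v ^ 0 * t ^ 0 = _
  simp

lemma Dat.zp (D : Dat x y t c u v α β γ ε) {s : G} (hs : s ∈ Subgroup.zpowers t) :
    ∃ δ : ZMod 2, s = EE c u v t (0, 0, 0, δ) := by
  obtain ⟨δ, hδ⟩ := exists_zmod D.t2 hs
  exact ⟨δ, by rw [hδ, D.E_t]⟩

lemma Dat.E_zp (D : Dat x y t c u v α β γ ε) (δ : ZMod 2) :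
    EE c u v t (0, 0, 0, δ) ∈ Subgroup.zpowers t := by
  rw [← D.E_t]
  exact pow_mem (Subgroup.mem_zpowers t) _

lemma Crit.not_zero [Finite G] (C : Crit t) (D : Dat x y t c u v 0 0 0 0) : False := by
  apply C.ne
  have hcen : ∀ m : Mo, red m.1 = 0 → EE c u v t m ∈ Subgroup.center G := by
    intro m hm
    apply mem_center_of_pair D.gen
    · have h := D.conj_x m
      have e : mX 0 0 m = m := by
        clear h; revert m; decide
      rw [e] at h
      exact mul_inv_eq_iff_eq_mul.mp h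
    · have h := D.conj_y m
      have e : mY 0 0 m = m := by
        clear h; revert m; decide
      rw [e] at h
      exact mul_inv_eq_iff_eq_mul.mp h
  constructor
  · intro a ha
    obtain ⟨m, rfl⟩ := D.surj ha
    rw [← hom_nsmul D.add]
    have : (2 : ℕ) • m = 0 ∨ (2 : ℕ) • m = (2, 0, 0, 0) := by
      clear ha; revert m; decide
    rcases this with h | h
    · rw [h, D.zero]
    · rw [h, D.E_c2, ZMod.val_zero, pow_zero]
  · have hK : commutator G ≤ K2 G := by
      apply comm_le_of_pair D.gen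
      rw [D.hc]
      intro g
      have h1 : g * c * g⁻¹ ∈ {s : G | ∃ m : Mo, red m.1 = 0 ∧ s = EE c u v t m * c} := by
        refine mem_of_isConj_pair D.gen _ ?_ ?_ (s := c) ⟨0, by decide, by rw [D.zero, one_mul]⟩
          (isConj_iff.mpr ⟨g, rfl⟩)
        · rintro s ⟨m, hm, rfl⟩
          refine ⟨m + (0, 1, 0, 0), ?_, ?_⟩
          · revert m; decide
          · rw [D.add, EE_u]
            have h2 := ctr (hcen m hm) x
            calc x * (EE c u v t m * c) * x⁻¹ = (x * EE c u v t m) * c * x⁻¹ := by group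
              _ = EE c u v t m * (x * c * x⁻¹) := by rw [h2]; group
              _ = EE c u v t m * u * c := by rw [D.hu]; group
        · rintro s ⟨m, hm, rfl⟩
          refine ⟨m + (0, 0, 1, 0), ?_, ?_⟩
          · revert m; decide
          · rw [D.add, EE_v]
            have h2 := ctr (hcen m hm) y
            calc y * (EE c u v t m * c) * y⁻¹ = (y * EE c u v t m) * c * y⁻¹ := by group
              _ = EE c u v t m * (y * c * y⁻¹) := by rw [h2]; group
              _ = EE c u v t m * v * c := by rw [D.hv]; group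
      obtain ⟨m, hm, hs⟩ := h1
      have h2 : ⁅c, g⁆ = (EE c u v t m)⁻¹ := by
        have : ⁅c, g⁆ = c * (g * c * g⁻¹)⁻¹ := by rw [commutatorElement_def]; group
        rw [this, hs]; group
      rw [h2]
      exact inv_mem (hcen m hm)
    intro a b d e
    have h1 : ⁅⁅a, b⁆, d⁆ ∈ Subgroup.center G := hK (comm_mem a b) d
    rw [commutatorElement_eq_one_iff_mul_comm]
    exact (ctr h1 e).symm

/-- `u` and `v` are not both powers of `t` -/
lemma Crit.not_both [Finite G] (C : Crit t) (D : Dat x y t c u v α β γ ε)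
    (hu : u ∈ Subgroup.zpowers t) (hv : v ∈ Subgroup.zpowers t) : False := by
  obtain ⟨a, ha, hna⟩ := C.nc x y D.gen
  obtain ⟨m, rfl⟩ := D.surj ha
  apply hna m.1.val
  rw [D.hc, zpow_natCast]
  have : (c ^ m.1.val)⁻¹ * EE c u v t m = u ^ m.2.1.val * v ^ m.2.2.1.val * t ^ m.2.2.2.val := by
    show (c ^ m.1.val)⁻¹ * (c ^ m.1.val * u ^ m.2.1.val * v ^ m.2.2.1.val * t ^ m.2.2.2.val) = _
    group
  rw [this]
  exact mul_mem (mul_mem (pow_mem hu _) (pow_mem hv _)) (pow_mem (Subgroup.mem_zpowers t) _)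

/-- elements of the kernel have even first coordinate -/
lemma Crit.even [Finite G] (C : Crit t) (D : Dat x y t c u v α β γ ε) {m : Mo}
    (hm : EE c u v t m = 1) : red m.1 = 0 := by
  have h01 : ∀ r : ZMod 2, r = 0 ∨ r = 1 := by decide
  rcases h01 (red m.1) with h | h
  · exact h
  exfalso
  have hx : EE c u v t (mX α β m) = 1 := by
    rw [← D.conj_x, hm, mul_one, mul_inv_cancel]
  have hy : EE c u v t (mY β γ m) = 1 := by
    rw [← D.conj_y, hm, mul_one, mul_inv_cancel]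
  have ex : ∃ δ : ZMod 2, mX α β m = m + (0, 1, 0, δ) := by
    refine ⟨α * m.2.1 + β * m.2.2.1, ?_⟩
    obtain ⟨a, b, k, d⟩ := m
    simp only [mX, Prod.mk_add_mk, add_zero] at h ⊢
    rw [h, add_assoc]
  have ey : ∃ δ : ZMod 2, mY β γ m = m + (0, 0, 1, δ) := by
    refine ⟨β * m.2.1 + γ * m.2.2.1, ?_⟩
    obtain ⟨a, b, k, d⟩ := m
    simp only [mY, Prod.mk_add_mk, add_zero] at h ⊢
    rw [h, add_assoc]
  obtain ⟨δ, ex⟩ := ex
  obtain ⟨δ', ey⟩ := ey
  rw [ex, D.add, hm, one_mul] at hx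
  rw [ey, D.add, hm, one_mul] at hy
  have eu : EE c u v t (0, 1, 0, δ) = u * t ^ δ.val := by
    show c ^ 0 * u ^ 1 * v ^ 0 * t ^ δ.val = _
    simp
  have ev : EE c u v t (0, 0, 1, δ') = v * t ^ δ'.val := by
    show c ^ 0 * u ^ 0 * v ^ 1 * t ^ δ'.val = _
    simp
  rw [eu] at hx
  rw [ev] at hy
  refine C.not_both D ?_ ?_
  · rw [mul_eq_one_iff_eq_inv] at hx
    rw [hx]
    exact inv_mem (pow_mem (Subgroup.mem_zpowers t) _)
  · rw [mul_eq_one_iff_eq_inv] at hy
    rw [hy]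
    exact inv_mem (pow_mem (Subgroup.mem_zpowers t) _)

lemma Crit.ne_bot (C : Crit t) : commutator G ≠ ⊥ := by
  intro h
  have := C.tA
  rw [h, Subgroup.mem_bot] at this
  exact C.t1 this

section

variable [Finite G]

lemma Crit.class_x (hG : IsPGroup 2 G) (hgood : Good 2 G) (C : Crit t)
    (hgen : Subgroup.closure {x, y} = ⊤) : IsConj x (t * x) := by
  haveI : Fact (Nat.Prime 2) := ⟨Nat.prime_two⟩
  apply hgood.isConj hG (not_mem_psi_of_pair hG hgen C.ne_bot)
  have : x⁻¹ * (t * x) = t := by rw [← ctr C.ht x, inv_mul_cancel_left]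
  rw [this]; exact C.tA

lemma Crit.class_y (hG : IsPGroup 2 G) (hgood : Good 2 G) (C : Crit t)
    (hgen : Subgroup.closure {x, y} = ⊤) : IsConj y (t * y) := by
  apply C.class_x hG hgood (y := x)
  rw [Set.pair_comm]; exact hgen

lemma Dat.E_split (D : Dat x y t c u v α β γ ε) (m : Mo) :
    EE c u v t m = EE c u v t (m.1, 0, 0, 0) * EE c u v t (0, m.2.1, 0, 0)
      * EE c u v t (0, 0, m.2.2.1, 0) * EE c u v t (0, 0, 0, m.2.2.2) := by
  rw [← D.add, ← D.add, ← D.add]
  congr 1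
  obtain ⟨a, b, k, d⟩ := m
  simp

/-- the kernel is small if `u` and `v` are independent modulo `t` -/
lemma Crit.ker2 (C : Crit t) (D : Dat x y t c u v α β γ ε) (hu : u ∉ Subgroup.zpowers t)
    (hv : v ∉ Subgroup.zpowers t) (huv : u * v ∉ Subgroup.zpowers t) {m : Mo}
    (hm : EE c u v t m = 1) : m ∈ AC.ker2 ε := by
  have h1 := C.even D hm
  obtain ⟨a, b, k, d⟩ := m
  have h2 : ∃ δ : ZMod 2, EE c u v t (0, b, k, 0) = EE c u v t (0, 0, 0, δ) ∧
      (a = 0 → δ = d) ∧ (a = 2 → δ = ε + d) := by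
    have ha : a = 0 ∨ a = 2 := red_zero h1
    rcases ha with rfl | rfl
    · refine ⟨d, ?_, fun _ => rfl, fun h => absurd h (by decide)⟩
      have e : ((0, b, k, 0) : Mo) = (0, b, k, d) + (0, 0, 0, d) := by
        clear hm h1; revert b k d; decide
      rw [e, D.add, hm, one_mul]
    · refine ⟨ε + d, ?_, fun h => absurd h (by decide), fun _ => rfl⟩
      have e : ((0, b, k, 0) : Mo) + (2, 0, 0, 0) = (2, b, k, d) + (0, 0, 0, d) := by
        clear hm h1; revert b k d; decide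
      have h3 : EE c u v t (0, b, k, 0) * EE c u v t (2, 0, 0, 0) = EE c u v t (0, 0, 0, d) := by
        rw [← D.add, e, D.add, hm, one_mul]
      rw [D.E_c2, D.E_t] at h3
      have e2 : ((0, b, k, 0) : Mo) = ((0, b, k, 0) + (0, 0, 0, ε)) + (0, 0, 0, ε) := by
        clear hm h1 h3 e D; revert b k ε; decide
      rw [e2, D.add, D.add, h3, ← D.add]
      congr 1
      clear hm h1 h3 e D e2; revert d ε; decide
  obtain ⟨δ, h2, ha0, ha2⟩ := h2
  have h3 : EE c u v t (0, b, k, 0) ∈ Subgroup.zpowers t := by rw [h2]; exact D.E_zp δ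
  have h01 : ∀ r : ZMod 2, r = 0 ∨ r = 1 := by decide
  have e10 : EE c u v t (0, 1, 0, 0) = u := EE_u
  have e01 : EE c u v t (0, 0, 1, 0) = v := EE_v
  have e11 : EE c u v t (0, 1, 1, 0) = u * v := by
    have : ((0, 1, 1, 0) : Mo) = (0, 1, 0, 0) + (0, 0, 1, 0) := by decide
    rw [this, D.add, EE_u, EE_v]
  rcases h01 b with rfl | rfl <;> rcases h01 k with rfl | rfl
  · -- `δ = 0`
    have h4 : δ = 0 := by
      apply val_eq_zero_of D.t1
      rw [D.E_t, ← h2]
      exact D.zero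
    have ha : a = 0 ∨ a = 2 := red_zero h1
    rcases ha with rfl | rfl
    · have := (ha0 rfl).symm.trans h4
      rw [this]
      simp [AC.ker2]
    · have h5 : ε + d = 0 := (ha2 rfl).symm.trans h4
      have h6 : d = ε := by
        clear h2 h3 ha0 ha2 h4 hm D h1; revert h5; revert d ε; decide
      rw [h6]
      simp [AC.ker2]
  · exact absurd (e01 ▸ h3) hv
  · exact absurd (e10 ▸ h3) hu
  · exact absurd (e11 ▸ h3) huv

/-- the kernel if `u = t ^ δ` and `v` is not a power of `t` -/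
lemma Crit.ker1 (C : Crit t) (D : Dat x y t c u v α β γ ε) {δ : ZMod 2} (hu : u = t ^ δ.val)
    (hv : v ∉ Subgroup.zpowers t) {m : Mo}
    (hm : EE c u v t m = 1) : m ∈ AC.ker1 ε δ := by
  have h1 := C.even D hm
  obtain ⟨a, b, k, d⟩ := m
  have h01 : ∀ r : ZMod 2, r = 0 ∨ r = 1 := by decide
  have hb : EE c u v t (0, b, 0, 0) = EE c u v t (0, 0, 0, b * δ) := by
    rcases h01 b with rfl | rfl
    · rw [zero_mul]
    · rw [EE_u, one_mul, ← D.E_t]; exact hu
  have ha : a = 0 ∨ a = 2 := red_zero h1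
  have ha' : ∃ ρ : ZMod 2, EE c u v t (a, 0, 0, 0) = EE c u v t (0, 0, 0, ρ * ε) ∧
      (ρ = 0 → a = 0) ∧ (ρ = 1 → a = 2) := by
    rcases ha with rfl | rfl
    · exact ⟨0, by rw [zero_mul], fun _ => rfl, fun h => absurd h (by decide)⟩
    · exact ⟨1, by rw [one_mul, D.E_c2, D.E_t], fun h => absurd h (by decide), fun _ => rfl⟩
  obtain ⟨ρ, ha1, ha2, ha3⟩ := ha'
  have h4 := D.E_split (a, b, k, d)
  rw [hm] at h4
  simp only at h4
  rw [ha1, hb, ← D.add, ← D.add, ← D.add] at h4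
  have hk : k = 0 := by
    rcases h01 k with rfl | rfl
    · rfl
    · exfalso
      apply hv
      have h5 : v = EE c u v t (0, 0, 0, ρ * ε + b * δ + d) := by
        have e1 : ((0, 0, 1, 0) : Mo) = ((0, 0, 0, ρ * ε) + (0, 0, 0, b * δ) + (0, 0, 1, 0)
            + (0, 0, 0, d)) + (0, 0, 0, ρ * ε + b * δ + d) := by
          clear hm h1 h4 ha1 ha2 ha3 ha hb D hu
          revert ρ ε b δ d; decide
        calc v = EE c u v t (0, 0, 1, 0) := EE_v.symm
          _ = _ := by
            rw [e1, D.add, ← h4, one_mul]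
      rw [h5]
      exact D.E_zp _
  subst hk
  have h6 : ρ * ε + b * δ + d = 0 := by
    apply val_eq_zero_of D.t1
    rw [D.E_t, h4]
    congr 1
    simp
  have h7 : d = ρ * ε + b * δ := by
    clear hm h1 h4 ha1 ha2 ha3 ha hb D hu
    revert h6
    revert ρ ε b δ d; decide
  subst h7
  rcases h01 ρ with rfl | rfl <;> rcases h01 b with rfl | rfl
  · rw [ha2 rfl]; simp [AC.ker1]
  · rw [ha2 rfl]; simp [AC.ker1]
  · rw [ha3 rfl]; simp [AC.ker1]
  · rw [ha3 rfl]; simp [AC.ker1]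

/-- `⁅x, ⁅x, y⁆⁆ ≠ 1` -/
lemma Crit.r1a (hG : IsPGroup 2 G) (hgood : Good 2 G) (C : Crit t)
    (D : Dat x y t c u v α β γ ε) (hu : u = 1) : False := by
  have hv : v ∉ Subgroup.zpowers t := fun h => C.not_both D (hu ▸ one_mem _) h
  have hα : α = 0 := by
    apply val_eq_zero_of D.t1
    have := D.xu
    rw [hu, mul_one, mul_inv_cancel, mul_one] at this
    exact this.symm
  have hβ : β = 0 := by
    apply val_eq_zero_of D.t1
    have := D.yu
    rw [hu, mul_one, mul_inv_cancel, mul_one] at this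
    exact this.symm
  subst hα hβ
  refine D.not_isConj (K := AC.ker1 ε 0) (fun m hm => C.ker1 D (by rw [hu, ZMod.val_zero, pow_zero])
    hv hm) (w := x) (ξ := 0) (η := (3, 0, 0, 0)) ?_ D.y_conj_x (fx := mX 0 0)
    (fy := fun m => mY 0 γ m + (3, 0, 0, 0)) (fun m => (add_zero _).symm) (fun m => rfl)
    (bad1a γ ε) (C.class_x hG hgood D.gen)
  rw [D.zero, one_mul, mul_inv_cancel_right]

lemma Crit.r1b (hG : IsPGroup 2 G) (hgood : Good 2 G) (C : Crit t)
    (D : Dat x y t c u v α β γ ε) (hu : u = t) : False := by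
  have hv : v ∉ Subgroup.zpowers t := fun h => C.not_both D (hu ▸ Subgroup.mem_zpowers t) h
  have hα : α = 0 := by
    apply val_eq_zero_of D.t1
    have := D.xu
    rw [hu, ctr D.ht, mul_inv_cancel_right] at this
    exact (mul_eq_right.mp this.symm)
  have hβ : β = 0 := by
    apply val_eq_zero_of D.t1
    have := D.yu
    rw [hu, ctr D.ht, mul_inv_cancel_right] at this
    exact (mul_eq_right.mp this.symm)
  subst hα hβ
  have h01 : ∀ r : ZMod 2, r = 0 ∨ r = 1 := by decide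
  rcases h01 γ with rfl | rfl
  · rcases h01 ε with rfl | rfl
    · exact C.not_zero D
    · refine D.not_isConj (K := AC.ker1 1 1) (fun m hm => C.ker1 D
        (by rw [hu]; exact (pow_one t).symm) hv hm) (w := y) (ξ := (1, 0, 0, 0)) (η := 0)
        D.x_conj_y ?_ (fx := fun m => mX 0 0 m + (1, 0, 0, 0))
        (fy := mY 0 0) (fun m => rfl) (fun m => (add_zero _).symm)
        bad1c (C.class_y hG hgood D.gen)
      rw [D.zero, one_mul, mul_inv_cancel_right]
  · -- the pair `x y², y`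
    have hgen : Subgroup.closure {x * y ^ 2, y} = ⊤ := by
      rw [eq_top_iff, ← D.gen, Subgroup.closure_le]
      have h1 : y ∈ Subgroup.closure {x * y ^ 2, y} := Subgroup.subset_closure (by simp)
      have h2 : x * y ^ 2 ∈ Subgroup.closure {x * y ^ 2, y} :=
        Subgroup.subset_closure (by simp)
      rintro g (rfl | hg)
      · have := mul_mem h2 (inv_mem (pow_mem h1 2))
        rwa [mul_inv_cancel_right] at this
      · rw [Set.mem_singleton_iff.mp hg]; exact h1
    obtain ⟨c', u', v', α', β', γ', ε', D'⟩ := C.dat hgen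
    have hc' : c' = c := by
      rw [← D'.hc, ← D.hc]; simp only [commutatorElement_def]; group
    apply C.r1a hG hgood D'
    have h1 := D'.hu
    rw [hc'] at h1
    have h2 : y ^ 2 * c * (y ^ 2)⁻¹ = t * c := by
      have e : y ^ 2 * c * (y ^ 2)⁻¹ = y * (y * c * y⁻¹) * y⁻¹ := by
        rw [pow_two]; group
      have e2 : y * (v * c) * y⁻¹ = (y * v * y⁻¹) * (y * c * y⁻¹) := by group
      rw [e, D.hv, e2, D.hv, D.yv, ZMod.val_one, pow_one, mul_assoc t, ← mul_assoc v v,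
        ← pow_two, D.v2, one_mul]
    have h3 : (x * y ^ 2) * c * (x * y ^ 2)⁻¹ = c := by
      have e : (x * y ^ 2) * c * (x * y ^ 2)⁻¹ = x * (y ^ 2 * c * (y ^ 2)⁻¹) * x⁻¹ := by group
      have e2 : x * (t * c) * x⁻¹ = (x * t) * c * x⁻¹ := by group
      have e3 : t * x * c * x⁻¹ = t * (x * c * x⁻¹) := by group
      rw [e, h2, e2, ctr D.ht, e3, D.hu, hu, ← mul_assoc, ← pow_two, D.t2, one_mul]
    rw [h3] at h1
    exact (mul_eq_right.mp h1.symm)

lemma Crit.u_not (hG : IsPGroup 2 G) (hgood : Good 2 G) (C : Crit t)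
    (D : Dat x y t c u v α β γ ε) : u ∉ Subgroup.zpowers t := by
  intro h
  obtain ⟨δ, hδ⟩ := exists_zmod C.t2 h
  have h01 : ∀ r : ZMod 2, r = 0 ∨ r = 1 := by decide
  rcases h01 δ with rfl | rfl
  · exact C.r1a hG hgood D (by rw [hδ, ZMod.val_zero, pow_zero])
  · exact C.r1b hG hgood D (by rw [hδ]; exact pow_one t)

lemma Crit.kk (hG : IsPGroup 2 G) (hgood : Good 2 G) (C : Crit t)
    (D : Dat x y t c u v α β γ ε) {m : Mo} (hm : EE c u v t m = 1) : m ∈ AC.ker2 ε := by
  refine C.ker2 D (C.u_not hG hgood D) (C.u_not hG hgood D.swap) ?_ hm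
  intro h
  apply C.u_not hG hgood D.shift
  have e : EE c u v t (0, 1, 1, β) = (u * v) * EE c u v t (0, 0, 0, β) := by
    rw [show ((0, 1, 1, β) : Mo) = (0, 1, 0, 0) + (0, 0, 1, 0) + (0, 0, 0, β) by simp,
      D.add, D.add, EE_u, EE_v]
  rw [e]
  exact mul_mem h (D.E_zp β)

lemma Crit.c001 (hG : IsPGroup 2 G) (hgood : Good 2 G) (C : Crit t)
    (D : Dat x y t c u v 0 0 1 ε) : False := by
  refine D.not_isConj (K := AC.ker2 ε) (fun m hm => C.kk hG hgood D hm) (w := x) (ξ := 0)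
    (η := (3, 0, 0, 0)) ?_ D.y_conj_x (fx := mX 0 0)
    (fy := fun m => mY 0 1 m + (3, 0, 0, 0)) (fun m => (add_zero _).symm) (fun m => rfl)
    (bad2b ε) (C.class_x hG hgood D.gen)
  rw [D.zero, one_mul, mul_inv_cancel_right]

lemma Crit.c000 (hG : IsPGroup 2 G) (hgood : Good 2 G) (C : Crit t)
    (D : Dat x y t c u v 0 0 0 ε) : False := by
  have h01 : ∀ r : ZMod 2, r = 0 ∨ r = 1 := by decide
  rcases h01 ε with rfl | rfl
  · exact C.not_zero D
  · refine D.not_isConj (K := AC.ker2 1) (fun m hm => C.kk hG hgood D hm) (w := x) (ξ := 0)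
      (η := (3, 0, 0, 0)) ?_ D.y_conj_x (fx := mX 0 0)
      (fy := fun m => mY 0 0 m + (3, 0, 0, 0)) (fun m => (add_zero _).symm) (fun m => rfl)
      bad2a (C.class_x hG hgood D.gen)
    rw [D.zero, one_mul, mul_inv_cancel_right]

lemma Crit.c010 (hG : IsPGroup 2 G) (hgood : Good 2 G) (C : Crit t)
    (D : Dat x y t c u v 0 1 0 ε) : False := by
  refine D.not_isConj (K := AC.ker2 ε) (fun m hm => C.kk hG hgood D hm) (w := c)
    (ξ := (0, 1, 0, 0)) (η := (0, 0, 1, 0)) (by rw [EE_u, D.hu]) (by rw [EE_v, D.hv])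
    (fx := fun m => mX 0 1 m + (0, 1, 0, 0))
    (fy := fun m => mY 1 0 m + (0, 0, 1, 0)) (fun m => rfl) (fun m => rfl)
    (bad2c ε) ?_
  have hvA : v ∈ commutator G := by
    have := D.mem (0, 0, 1, 0)
    rwa [EE_v] at this
  obtain ⟨φ, hφ, h1, h2⟩ := hgood.pair D.gen (one_mem _) hvA
  rw [one_mul] at h1
  have h3 : φ c = t * c := by
    rw [← D.hc, map_commutatorElement, h1, h2]
    have h4 := D.xv
    rw [ZMod.val_one, pow_one] at h4
    calc ⁅x, v * y⁆ = (x * v * x⁻¹) * ⁅x, y⁆ * v⁻¹ := by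
          simp only [commutatorElement_def]; group
      _ = t * ⁅x, y⁆ := by
          rw [h4, D.hc]
          have h5 : t * v * c * v⁻¹ = t * (v * c) * v⁻¹ := by group
          rw [h5, ← D.cv]; group
  rw [← h3]
  exact hφ c

lemma Crit.c101 (hG : IsPGroup 2 G) (hgood : Good 2 G) (C : Crit t)
    (D : Dat x y t c u v 1 0 1 ε) : False := by
  have hxw : x * (x ^ 2 * y ^ 2) * x⁻¹ = EE c u v t (2, 0, 1, 0) * (x ^ 2 * y ^ 2) := by
    have e0 : x * y ^ 2 * x⁻¹ = EE c u v t (2, 0, 1, 0) * y ^ 2 := by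
      have e1 : x * y ^ 2 * x⁻¹ = (x * y * x⁻¹) ^ 2 := by rw [conj_pow]
      have e2 : (EE c u v t (1, 0, 0, 0) * y) ^ 2
          = EE c u v t (1, 0, 0, 0) * (y * EE c u v t (1, 0, 0, 0) * y⁻¹) * y ^ 2 := by
        simp only [pow_two]; group
      rw [e1, D.x_conj_y, e2, D.conj_y, ← D.add]
      congr 2
    have e3 : x ^ 2 * EE c u v t (2, 0, 1, 0) * (x ^ 2)⁻¹ = EE c u v t (2, 0, 1, 0) := by
      have e4 : x ^ 2 * EE c u v t (2, 0, 1, 0) * (x ^ 2)⁻¹
          = x * (x * EE c u v t (2, 0, 1, 0) * x⁻¹) * x⁻¹ := by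
        simp only [pow_two]; group
      rw [e4, D.conj_x, D.conj_x]
      congr 1
    calc x * (x ^ 2 * y ^ 2) * x⁻¹ = x ^ 2 * (x * y ^ 2 * x⁻¹) := by
          simp only [pow_two]; group
      _ = (x ^ 2 * EE c u v t (2, 0, 1, 0) * (x ^ 2)⁻¹) * (x ^ 2 * y ^ 2) := by
          rw [e0]; group
      _ = _ := by rw [e3]
  have hyw : y * (x ^ 2 * y ^ 2) * y⁻¹ = EE c u v t (2, 1, 0, 0) * (x ^ 2 * y ^ 2) := by
    have e0 : y * x ^ 2 * y⁻¹ = EE c u v t (2, 1, 0, 0) * x ^ 2 := by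
      have e1 : y * x ^ 2 * y⁻¹ = (y * x * y⁻¹) ^ 2 := by rw [conj_pow]
      have e2 : (EE c u v t (3, 0, 0, 0) * x) ^ 2
          = EE c u v t (3, 0, 0, 0) * (x * EE c u v t (3, 0, 0, 0) * x⁻¹) * x ^ 2 := by
        simp only [pow_two]; group
      rw [e1, D.y_conj_x, e2, D.conj_x, ← D.add]
      congr 2
    calc y * (x ^ 2 * y ^ 2) * y⁻¹ = (y * x ^ 2 * y⁻¹) * y ^ 2 := by
          simp only [pow_two]; group
      _ = _ := by rw [e0]; group
  refine D.not_isConj (K := AC.ker2 ε) (fun m hm => C.kk hG hgood D hm) (w := x ^ 2 * y ^ 2)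
    (ξ := (2, 0, 1, 0)) (η := (2, 1, 0, 0)) hxw hyw
    (fx := fun m => mX 1 0 m + (2, 0, 1, 0))
    (fy := fun m => mY 0 1 m + (2, 1, 0, 0)) (fun m => rfl) (fun m => rfl)
    (bad2d ε) ?_
  have huA : u ∈ commutator G := by
    have := D.mem (0, 1, 0, 0)
    rwa [EE_u] at this
  obtain ⟨φ, hφ, h1, h2⟩ := hgood.pair D.gen huA (one_mem _)
  rw [one_mul] at h2
  have h3 : φ (x ^ 2 * y ^ 2) = t * (x ^ 2 * y ^ 2) := by
    rw [map_mul, map_pow, map_pow, h1, h2]
    have h4 := D.xu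
    rw [ZMod.val_one, pow_one] at h4
    have h5 : (u * x) ^ 2 = t * x ^ 2 := by
      calc (u * x) ^ 2 = u * (x * u * x⁻¹) * x ^ 2 := by simp only [pow_two]; group
        _ = u * (t * u) * x ^ 2 := by rw [h4]
        _ = (u * t) * u * x ^ 2 := by group
        _ = t * (u ^ 2) * x ^ 2 := by rw [ctr D.ht u, pow_two u, mul_assoc t]
        _ = t * x ^ 2 := by rw [D.u2, mul_one]
    rw [h5, mul_assoc]
  rw [← h3]
  exact hφ _

theorem Crit.false (hG : IsPGroup 2 G) (hgood : Good 2 G) (C : Crit t) : False := by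
  obtain ⟨x, y, hxy⟩ := hgood.ex_pair
  obtain ⟨c, u, v, α, β, γ, ε, D⟩ := C.dat hxy
  have h01 : ∀ r : ZMod 2, r = 0 ∨ r = 1 := by decide
  rcases h01 α with rfl | rfl <;> rcases h01 β with rfl | rfl <;> rcases h01 γ with rfl | rfl
  · exact C.c000 hG hgood D
  · exact C.c001 hG hgood D
  · exact C.c010 hG hgood D
  · have D' := D.shift
    have e : (1 : ZMod 2) + 1 = 0 := by decide
    rw [zero_add, e] at D'
    exact C.c101 hG hgood D'
  · exact C.c001 hG hgood D.swap
  · exact C.c101 hG hgood D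
  · have D' := D.swap.shift
    have e : (1 : ZMod 2) + 1 = 0 := by decide
    rw [zero_add, e] at D'
    exact C.c101 hG hgood D'
  · have D' := D.shift
    have e : (1 : ZMod 2) + 1 = 0 := by decide
    rw [e] at D'
    exact C.c001 hG hgood D'

end

end Pool.Agent.N47.AC
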