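import Mathlib
import Pool.Agent.N47.AC.Two

/-!
Class-preserving automorphisms of finite `2`-groups with two generators: induction.
-/

set_option autoImplicit false

open scoped commutatorElement

namespace Pool.Agent.N47.AC

open Pool.Agent.Helper832.AutC

/-- the subgroup generated by the squares of the commutator subgroup -/
def Sq (G : Type) [Group G] : Subgroup G :=
  Subgroup.closure {b | ∃ a ∈ commutator G, b = a ^ 2}

instance sq_normal (G : Type) [Group G] : (Sq G).Normal := by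
  unfold Sq
  refine ⟨fun n hn g => ?_⟩
  have h : (Subgroup.closure {b | ∃ a ∈ commutator G, b = a ^ 2}).map
      (MulAut.conj g).toMonoidHom ≤ Subgroup.closure {b | ∃ a ∈ commutator G, b = a ^ 2} := by
    rw [MonoidHom.map_closure, Subgroup.closure_le]
    rintro _ ⟨b, ⟨a, ha, rfl⟩, rfl⟩
    apply Subgroup.subset_closure
    refine ⟨g * a * g⁻¹, (inferInstance : (commutator G).Normal).conj_mem _ ha g, ?_⟩
    show g * a ^ 2 * g⁻¹ = _
    rw [conj_pow]
  exact h ⟨n, hn, rfl⟩

lemma sq_le (G : Type) [Group G] : Sq G ≤ commutator G := by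
  unfold Sq
  rw [Subgroup.closure_le]
  rintro _ ⟨a, ha, rfl⟩
  exact pow_mem ha 2

/-- the fourth term of the lower central series -/
def G4 (G : Type) [Group G] : Subgroup G :=
  ⁅⁅commutator G, (⊤ : Subgroup G)⁆, (⊤ : Subgroup G)⁆

instance g4_normal (G : Type) [Group G] : (G4 G).Normal := by
  unfold G4; infer_instance

lemma g4_le (G : Type) [Group G] : G4 G ≤ commutator G := by
  unfold G4
  exact (Subgroup.commutator_le_left _ _).trans (Subgroup.commutator_le_left _ _)

lemma g4_mem {G : Type} [Group G] (a b c e : G) : ⁅⁅⁅a, b⁆, c⁆, e⁆ ∈ G4 G :=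
  Subgroup.commutator_mem_commutator (Subgroup.commutator_mem_commutator (comm_mem a b)
    (Subgroup.mem_top _)) (Subgroup.mem_top _)

lemma g4_bot {G : Type} [Group G] (h : commutator G ≤ K2 G) : G4 G = ⊥ := by
  unfold G4
  rw [Subgroup.commutator_eq_bot_iff_le_centralizer]
  rw [Subgroup.commutator_le]
  intro a ha g _
  rw [Subgroup.mem_centralizer_iff]
  intro k _
  exact ctr (h ha g) k

theorem two_gen_two : ∀ (n : ℕ) (G : Type) [Group G] [Finite G], Nat.card G = n →
    IsPGroup 2 G → Good 2 G → IsCyclic (commutator G) ∨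
      ((∀ a ∈ commutator G, a ^ 2 = 1) ∧ ∀ a b c e : G, ⁅⁅⁅a, b⁆, c⁆, e⁆ = 1) := by
  haveI : Fact (Nat.Prime 2) := ⟨Nat.prime_two⟩
  intro n
  induction n using Nat.strong_induction_on with
  | _ n ih =>
  intro G _ _ hn hG hgood
  by_contra hcon
  push Not at hcon
  obtain ⟨hnc, hne⟩ := hcon
  have hne' : ¬ ((∀ a ∈ commutator G, a ^ 2 = 1) ∧ ∀ a b c e : G, ⁅⁅⁅a, b⁆, c⁆, e⁆ = 1) := by
    rintro ⟨h1, h2⟩
    obtain ⟨a, b, c, e, h⟩ := hne h1
    exact h (h2 a b c e)
  obtain ⟨x, y, hxy⟩ := hgood.ex_pair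
  set c := ⁅x, y⁆ with hc
  have hcA : c ∈ commutator G := comm_mem x y
  -- the choice of `t`
  obtain ⟨t, htA, htc, hto, hch⟩ : ∃ t ∈ commutator G, t ∈ Subgroup.center G ∧ orderOf t = 2 ∧
      (t ∈ Sq G ∨ ((∀ a ∈ commutator G, a ^ 2 = 1) ∧ t ∈ G4 G)) := by
    by_cases hs : Sq G = ⊥
    · have h1 : ∀ a ∈ commutator G, a ^ 2 = 1 := by
        intro a ha
        have : a ^ 2 ∈ Sq G := Subgroup.subset_closure ⟨a, ha, rfl⟩
        rwa [hs, Subgroup.mem_bot] at this
      have h2 : G4 G ≠ ⊥ := by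
        intro h
        apply hne'
        refine ⟨h1, fun a b c e => ?_⟩
        have := g4_mem a b c e
        rwa [h, Subgroup.mem_bot] at this
      obtain ⟨t, ht, htc, hto⟩ := exists_central hG (G4 G) h2
      exact ⟨t, g4_le G ht, htc, hto, Or.inr ⟨h1, ht⟩⟩
    · obtain ⟨t, ht, htc, hto⟩ := exists_central hG (Sq G) hs
      exact ⟨t, sq_le G ht, htc, hto, Or.inl ht⟩
  have ht1 : t ≠ 1 := by
    rintro rfl
    rw [orderOf_one] at hto
    exact absurd hto (by norm_num)
  have ht2 : t ^ 2 = 1 := by rw [← hto, pow_orderOf_eq_one]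
  haveI := zpowers_normal_of_central htc
  have hle : Subgroup.zpowers t ≤ Psi 2 G :=
    (Subgroup.zpowers_le.mpr htA).trans (comm_le_psi 2)
  have hQ := ih _ (by rw [← hn]; exact card_quot_lt (by rwa [Ne, Subgroup.zpowers_eq_bot]))
    (G ⧸ Subgroup.zpowers t) rfl (hG.to_quotient _) (good_quot hG hgood _ hle)
  by_cases hQc : IsCyclic (commutator (G ⧸ Subgroup.zpowers t))
  · have hAz : ∀ a ∈ commutator G, ∃ k : ℤ, (c ^ k)⁻¹ * a ∈ Subgroup.zpowers t :=
      fun a ha => quot_cyc hQc hxy ha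
    rcases hch with ht | ⟨hsq, ht⟩
    · -- `t` is a power of `c`
      have h1 : Sq G ≤ Subgroup.zpowers c := by
        unfold Sq
        rw [Subgroup.closure_le]
        rintro _ ⟨a, ha, rfl⟩
        obtain ⟨k, l, hl⟩ := hAz a ha
        have e1 : a = c ^ k * t ^ l := by
          have hl' : t ^ l = (c ^ k)⁻¹ * a := hl
          rw [hl', mul_inv_cancel_left]
        have h2 : Commute (c ^ k) (t ^ l) := ctr (zpow_mem htc l) _
        have h3 : (t ^ l) ^ 2 = 1 := by
          rw [← zpow_natCast, ← zpow_mul, mul_comm, zpow_mul, zpow_natCast, ht2, one_zpow]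
        rw [e1, h2.mul_pow, h3, mul_one]
        exact pow_mem (zpow_mem (Subgroup.mem_zpowers c) k) 2
      apply hnc
      rw [isCyclic_iff_exists_zpowers_eq_top]
      refine ⟨⟨c, hcA⟩, ?_⟩
      rw [eq_top_iff]
      rintro ⟨a, ha⟩ _
      obtain ⟨k, hk⟩ := hAz a ha
      have h1 : a ∈ Subgroup.zpowers c := by
        have h2 := (Subgroup.zpowers_le.mpr (h1 ht)) hk
        have h3 := mul_mem (Subgroup.zpow_mem _ (Subgroup.mem_zpowers c) k) h2
        rwa [mul_inv_cancel_left] at h3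
      obtain ⟨m, hm⟩ := h1
      exact ⟨m, Subtype.ext hm⟩
    · have hcz : ∀ g : G, ⁅g, c⁆ ∈ Subgroup.zpowers t := fun g =>
        comm_mem_zpowers hG htc hcA (hsq c hcA) hAz g
      have hK : commutator G ≤ K2 G := by
        apply comm_le_of_pair hxy
        intro g
        rw [← commutatorElement_inv]
        exact inv_mem ((Subgroup.zpowers_le.mpr htc) (hcz g))
      rw [g4_bot hK, Subgroup.mem_bot] at ht
      exact ht1 ht
  · rcases hQ with hQ | ⟨hQ1, hQ2⟩
    · exact hQc hQ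
    · have C : Crit t :=
        { ht := htc
          t2 := ht2
          t1 := ht1
          tA := htA
          sq := by
            intro a ha
            have h1 := hQ1 (a : G ⧸ Subgroup.zpowers t)
              (by rw [comm_quot]; exact ⟨a, ha, rfl⟩)
            exact (QuotientGroup.eq_one_iff (a ^ 2)).mp h1
          g4 := by
            intro a b c e
            have h1 := hQ2 (a : G ⧸ Subgroup.zpowers t) b c e
            exact (QuotientGroup.eq_one_iff (⁅⁅⁅a, b⁆, c⁆, e⁆)).mp h1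
          nc := by
            intro x y hxy
            by_contra hno
            push Not at hno
            apply hQc
            rw [isCyclic_iff_exists_zpowers_eq_top]
            refine ⟨⟨⁅(x : G ⧸ Subgroup.zpowers t), (y : G ⧸ Subgroup.zpowers t)⁆,
              comm_mem _ _⟩, ?_⟩
            rw [eq_top_iff]
            rintro ⟨q, hq⟩ _
            have hq' := hq
            rw [comm_quot] at hq'
            obtain ⟨a, ha, hq'⟩ := hq'
            obtain ⟨k, hk⟩ := hno a ha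
            refine ⟨k, Subtype.ext ?_⟩
            show ⁅(x : G ⧸ Subgroup.zpowers t), (y : G ⧸ Subgroup.zpowers t)⁆ ^ k = q
            rw [← hq']
            exact QuotientGroup.eq.mpr hk
          ne := hne' }
      exact C.false hG hgood

section Step

variable {G : Type} [Group G]

lemma inv_or {c d : G} (h4 : c ^ 4 = 1) (h : d ∈ Subgroup.zpowers c) (hd : orderOf d = orderOf c) :
    d = c ∨ d = c⁻¹ := by
  have h5 : c ^ (4 : ℤ) = 1 := by exact_mod_cast h4
  obtain ⟨k, rfl⟩ := h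
  simp only at hd ⊢
  have h6 : c ^ k = c ^ (k % 4) := by
    conv_lhs => rw [← Int.emod_add_mul_ediv k 4, zpow_add, zpow_mul, h5, one_zpow, mul_one]
  have h7 : k % 4 = 0 ∨ k % 4 = 1 ∨ k % 4 = 2 ∨ k % 4 = 3 := by omega
  rcases h7 with h | h | h | h
  · left
    rw [h6, h, zpow_zero] at hd
    rw [h6, h, zpow_zero]
    rw [orderOf_one] at hd
    exact (orderOf_eq_one_iff.mp hd.symm).symm
  · left
    rw [h6, h, zpow_one]
  · have h8 : (c ^ k) ^ 2 = 1 := by
      rw [h6, h, ← zpow_natCast, ← zpow_mul]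
      exact h5
    have h9 : c ^ 2 = 1 := by
      have := orderOf_dvd_of_pow_eq_one h8
      rw [hd] at this
      exact orderOf_dvd_iff_pow_eq_one.mp this
    have h10 : c ^ k = 1 := by
      rw [h6, h]
      exact_mod_cast h9
    left
    rw [h10, orderOf_one] at hd
    rw [h10]
    exact (orderOf_eq_one_iff.mp hd.symm).symm
  · right
    rw [h6, h, eq_inv_iff_mul_eq_one, ← zpow_add_one]
    exact h5

lemma central_of_fourth [Finite G] (hG : IsPGroup 2 G) (hgood : Good 2 G)
    (hcyc : IsCyclic (commutator G)) (h4 : ∀ a ∈ commutator G, a ^ 4 = 1) :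
    commutator G ≤ Subgroup.center G := by
  haveI : Fact (Nat.Prime 2) := ⟨Nat.prime_two⟩
  have key : ∀ x y : G, Subgroup.closure {x, y} = ⊤ → ∀ g : G, g * ⁅x, y⁆ * g⁻¹ = ⁅x, y⁆ ∨
      g * ⁅x, y⁆ * g⁻¹ = ⁅x, y⁆⁻¹ := by
    intro x y hxy g
    apply inv_or (h4 _ (comm_mem x y))
    · rw [← comm_eq_zpowers hxy hcyc]
      exact (inferInstance : (commutator G).Normal).conj_mem _ (comm_mem x y) g
    · exact (MulAut.conj g).orderOf_eq ⁅x, y⁆
  -- main case
  have main : ∀ x y : G, Subgroup.closure {x, y} = ⊤ → x * ⁅x, y⁆ * x⁻¹ = ⁅x, y⁆ →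
      y * ⁅x, y⁆ * y⁻¹ = ⁅x, y⁆⁻¹ → ⁅x, y⁆ ^ 2 = 1 := by
    intro x y hxy hx hy
    by_cases hbot : commutator G = ⊥
    · have := comm_mem x y
      rw [hbot, Subgroup.mem_bot] at this
      rw [this, one_pow]
    set c := ⁅x, y⁆ with hc
    have h1 : c * x ∈ ({x, c⁻¹ * x} : Set G) := by
      refine mem_of_isConj_pair hxy _ ?_ ?_ (s := x) (Set.mem_insert _ _)
        (hgood.isConj hG (not_mem_psi_of_pair hG hxy hbot) ?_)
      · rintro s (rfl | hs)
        · left; group
        · right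
          rw [Set.mem_singleton_iff.mp hs, Set.mem_singleton_iff]
          have : x * (c⁻¹ * x) * x⁻¹ = (x * c * x⁻¹)⁻¹ * x := by group
          rw [this, hx]
      · rintro s (rfl | hs)
        · right
          rw [Set.mem_singleton_iff, hc, commutatorElement_def]; group
        · left
          rw [Set.mem_singleton_iff.mp hs]
          have e1 : y * (c⁻¹ * x) * y⁻¹ = (y * c * y⁻¹)⁻¹ * (y * x * y⁻¹) := by group
          have e2 : y * x * y⁻¹ = c⁻¹ * x := by rw [hc, commutatorElement_def]; group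
          rw [e1, hy, e2, inv_inv, mul_inv_cancel_left]
      · have := (inferInstance : (commutator G).Normal).conj_mem c (comm_mem x y) x⁻¹
        rwa [inv_inv, mul_assoc] at this
    rcases h1 with h1 | h1
    · have : c = 1 := mul_eq_right.mp h1
      rw [this, one_pow]
    · have h2 : c = c⁻¹ := mul_right_cancel (Set.mem_singleton_iff.mp h1)
      rw [pow_two]
      exact mul_eq_one_iff_eq_inv.mpr h2
  obtain ⟨x, y, hxy⟩ := hgood.ex_pair
  have hcen : ∀ x y : G, Subgroup.closure {x, y} = ⊤ → ⁅x, y⁆ ∈ Subgroup.center G →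
      commutator G ≤ Subgroup.center G := by
    intro x y hxy h
    exact comm_le_of_pair hxy _ h
  have hsq : ∀ x y : G, Subgroup.closure {x, y} = ⊤ → ⁅x, y⁆ ^ 2 = 1 →
      commutator G ≤ Subgroup.center G := by
    intro x y hxy h
    apply hcen x y hxy
    have h2 : ⁅x, y⁆⁻¹ = ⁅x, y⁆ := by
      rw [inv_eq_iff_mul_eq_one, ← pow_two]; exact h
    rw [Subgroup.mem_center_iff]
    intro g
    have := key x y hxy g
    rw [h2, or_self] at this
    exact mul_inv_eq_iff_eq_mul.mp this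
  rcases key x y hxy x with hx | hx <;> rcases key x y hxy y with hy | hy
  · exact hcen x y hxy (mem_center_of_pair hxy (mul_inv_eq_iff_eq_mul.mp hx)
      (mul_inv_eq_iff_eq_mul.mp hy))
  · exact hsq x y hxy (main x y hxy hx hy)
  · have hyx : Subgroup.closure {y, x} = ⊤ := by rw [Set.pair_comm]; exact hxy
    refine hsq y x hyx (main y x hyx ?_ ?_)
    · rw [← commutatorElement_inv x y]
      have : y * ⁅x, y⁆⁻¹ * y⁻¹ = (y * ⁅x, y⁆ * y⁻¹)⁻¹ := conj_inv.symm
      rw [this, hy]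
    · rw [← commutatorElement_inv x y]
      have : x * ⁅x, y⁆⁻¹ * x⁻¹ = (x * ⁅x, y⁆ * x⁻¹)⁻¹ := conj_inv.symm
      rw [this, hx]
  · have hxy' : Subgroup.closure {x * y, y} = ⊤ := by
      rw [eq_top_iff, ← hxy, Subgroup.closure_le]
      have h1 : y ∈ Subgroup.closure {x * y, y} := Subgroup.subset_closure (by simp)
      have h2 : x * y ∈ Subgroup.closure {x * y, y} := Subgroup.subset_closure (by simp)
      rintro g (rfl | hg)
      · have := mul_mem h2 (inv_mem h1)
        rwa [mul_inv_cancel_right] at this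
      · rw [Set.mem_singleton_iff.mp hg]; exact h1
    have e : ⁅x * y, y⁆ = ⁅x, y⁆ := by simp only [commutatorElement_def]; group
    refine hsq (x * y) y hxy' (main (x * y) y hxy' ?_ ?_)
    · rw [e]
      have : x * y * ⁅x, y⁆ * (x * y)⁻¹ = x * (y * ⁅x, y⁆ * y⁻¹) * x⁻¹ := by group
      have h2 : x * ⁅x, y⁆⁻¹ * x⁻¹ = (x * ⁅x, y⁆ * x⁻¹)⁻¹ := conj_inv.symm
      rw [this, hy, h2, hx, inv_inv]
    · rw [e, hy]

theorem comm_fourth [Finite G] (hG : IsPGroup 2 G) (hgood : Good 2 G)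
    (hcyc : IsCyclic (commutator G)) {a : G} (ha : a ∈ commutator G) (g : G) :
    ∃ b ∈ commutator G, ⁅a, g⁆ = b ^ 4 := by
  haveI : Fact (Nat.Prime 2) := ⟨Nat.prime_two⟩
  obtain ⟨x, y, hxy⟩ := hgood.ex_pair
  have hA := comm_eq_zpowers hxy hcyc
  set c := ⁅x, y⁆ with hc
  have hcA : c ∈ commutator G := comm_mem x y
  have hn : (Subgroup.zpowers (c ^ 4)).Normal := by
    refine ⟨fun a ha g => ?_⟩
    obtain ⟨m, rfl⟩ := ha
    have h1 := (inferInstance : (commutator G).Normal).conj_mem _ hcA g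
    rw [hA] at h1
    obtain ⟨k, hk⟩ := h1
    refine ⟨k * m, ?_⟩
    show (c ^ 4) ^ (k * m) = g * (c ^ 4) ^ m * g⁻¹
    have hk' : c ^ k = g * c * g⁻¹ := hk
    rw [← conj_zpow, ← conj_pow, ← hk', zpow_mul]
    congr 1
    rw [← zpow_natCast, ← zpow_natCast, ← zpow_mul, ← zpow_mul, mul_comm]
  have hle : Subgroup.zpowers (c ^ 4) ≤ Psi 2 G :=
    (Subgroup.zpowers_le.mpr (pow_mem hcA 4)).trans (comm_le_psi 2)
  have hgq := good_quot hG hgood _ hle
  have hgen := gen_pair_quot hxy (Subgroup.zpowers (c ^ 4))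
  have hcq : commutator (G ⧸ Subgroup.zpowers (c ^ 4))
      = Subgroup.zpowers (c : G ⧸ Subgroup.zpowers (c ^ 4)) := by
    rw [comm_quot, hA, MonoidHom.map_zpowers]
    rfl
  have hcycq : IsCyclic (commutator (G ⧸ Subgroup.zpowers (c ^ 4))) := by
    rw [hcq]; infer_instance
  have h := central_of_fourth (hG.to_quotient _) hgq hcycq (by
    intro q hq
    rw [comm_quot] at hq
    obtain ⟨b, hb, rfl⟩ := hq
    have hb' : b ∈ commutator G := hb
    rw [hA] at hb'
    obtain ⟨k, rfl⟩ := hb'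
    apply (QuotientGroup.eq_one_iff ((c ^ k) ^ 4)).mpr
    refine ⟨k, ?_⟩
    show (c ^ 4) ^ k = (c ^ k) ^ 4
    rw [← zpow_natCast, ← zpow_natCast, ← zpow_mul, ← zpow_mul, mul_comm])
  have h1 : (a : G ⧸ Subgroup.zpowers (c ^ 4)) ∈ commutator (G ⧸ Subgroup.zpowers (c ^ 4)) := by
    rw [comm_quot]; exact ⟨a, ha, rfl⟩
  have h2 : ⁅(a : G ⧸ Subgroup.zpowers (c ^ 4)), (g : G ⧸ Subgroup.zpowers (c ^ 4))⁆ = 1 := by
    rw [commutatorElement_eq_one_iff_mul_comm]
    exact (ctr (h h1) _).symm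
  have h3 : ⁅a, g⁆ ∈ Subgroup.zpowers (c ^ 4) := (QuotientGroup.eq_one_iff (⁅a, g⁆)).mp h2
  obtain ⟨k, hk⟩ := h3
  refine ⟨c ^ k, zpow_mem hcA k, ?_⟩
  have hk' : (c ^ 4) ^ k = ⁅a, g⁆ := hk
  rw [← hk', ← zpow_natCast, ← zpow_natCast, ← zpow_mul, ← zpow_mul, mul_comm]

end Step

end Pool.Agent.N47.AC
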