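import Mathlib
import Pool.Agent.N47.AC.TwoInd

/-!
Class-preserving automorphisms of finite `p`-groups: rank, and the groups of class at most two.
-/

set_option autoImplicit false

open scoped commutatorElement

namespace Pool.Agent.N47.AC

open Pool.Agent.Helper832.AutC

variable {G : Type} [Group G]

lemma exists_gen_rank [Finite G] :
    ∃ x : Fin (Group.rank G) → G, Subgroup.closure (Set.range x) = ⊤ := by
  obtain ⟨S, hS, hS2⟩ := Group.rank_spec G
  have e : Fin (Group.rank G) ≃ S := by
    refine (Fintype.equivFinOfCardEq ?_).symm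
    rw [Fintype.card_coe, hS]
  refine ⟨fun i => (e i : G), ?_⟩
  rw [← hS2]
  congr 1
  ext z
  constructor
  · rintro ⟨i, rfl⟩
    exact (e i).2
  · intro hz
    exact ⟨e.symm ⟨z, hz⟩, by simp⟩

/-- a product with an exponent prime to `p` is not in the Frattini subgroup -/
lemma not_mem_frattini {p : ℕ} [hp : Fact p.Prime] [Finite G] (hG : IsPGroup p G) {d : ℕ}
    (x : Fin d → G) (hx : Subgroup.closure (Set.range x) = ⊤) (hd : d = Group.rank G)
    (w : G) (a : Fin d → ℤ)
    (ha : Abelianization.of w = ∏ i, (Abelianization.of (x i)) ^ a i) (j : Fin d)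
    (hj : ¬ (p : ℤ) ∣ a j) : w ∉ frattini G := by
  classical
  intro hw
  have hker : ∀ (K : Subgroup G), commutator G ≤ K → ∀ g : G,
      Abelianization.of g ∈ K.map Abelianization.of → g ∈ K := by
    intro K hK g hg
    obtain ⟨k, hk, hkg⟩ := hg
    have h1 : k⁻¹ * g ∈ commutator G := QuotientGroup.eq.mp hkg
    have h2 := mul_mem hk (hK h1)
    rwa [mul_inv_cancel_left] at h2
  set H := Subgroup.closure (((Finset.univ.erase j).image x : Finset G) : Set G) with hH
  set K := H ⊔ frattini G with hK
  have hcK : commutator G ≤ K :=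
    ((comm_le_psi p).trans (psi_le_frattini hG)).trans le_sup_right
  have hwK : w ∈ K := (le_sup_right : _ ≤ K) hw
  have hiK : ∀ i, i ≠ j → x i ∈ K := fun i hi =>
    (le_sup_left : H ≤ K) (Subgroup.subset_closure (by
      simp only [Finset.coe_image, Set.mem_image]
      exact ⟨i, by simp [hi], rfl⟩))
  have h1 : x j ^ a j ∈ K := by
    apply hker K hcK
    have h2 : Abelianization.of (x j ^ a j) = Abelianization.of w
        * (∏ i ∈ Finset.univ.erase j, (Abelianization.of (x i)) ^ a i)⁻¹ := by
      rw [ha, ← Finset.mul_prod_erase Finset.univ _ (Finset.mem_univ j), mul_inv_cancel_right,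
        map_zpow]
    rw [h2]
    refine mul_mem (Subgroup.mem_map_of_mem _ hwK)
      (inv_mem (Subgroup.prod_mem _ (fun i hi => ?_)))
    exact zpow_mem (Subgroup.mem_map_of_mem _ (hiK i (Finset.ne_of_mem_erase hi))) _
  have h3 : x j ^ (p : ℤ) ∈ K := by
    rw [zpow_natCast]
    exact (le_sup_right : _ ≤ K) (psi_le_frattini hG (pow_mem_psi p _))
  have h4 : IsCoprime (a j) (p : ℤ) := by
    rw [isCoprime_comm]
    exact (Prime.coprime_iff_not_dvd (Nat.prime_iff_prime_int.mp hp.out)).mpr hj
  obtain ⟨r, s, hrs⟩ := h4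
  have h5 : x j ∈ K := by
    have : x j = (x j ^ a j) ^ r * (x j ^ (p : ℤ)) ^ s := by
      rw [← zpow_mul, ← zpow_mul, ← zpow_add]
      have : a j * r + p * s = 1 := by linarith
      rw [this, zpow_one]
    rw [this]
    exact mul_mem (zpow_mem h1 r) (zpow_mem h3 s)
  have h6 : K = ⊤ := by
    rw [eq_top_iff, ← hx, Subgroup.closure_le]
    rintro _ ⟨i, rfl⟩
    by_cases hij : i = j
    · rw [hij]; exact h5
    · exact hiK i hij
  have h7 : H = ⊤ := frattini_nongenerating h6
  have h8 := Group.rank_le h7
  have h9 : ((Finset.univ.erase j).image x).card ≤ d - 1 := by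
    refine Finset.card_image_le.trans ?_
    rw [Finset.card_erase_of_mem (Finset.mem_univ j), Finset.card_univ, Fintype.card_fin]
  have h10 : 0 < d := Fin.pos j
  omega

lemma gen_not_mem_frattini {p : ℕ} [hp : Fact p.Prime] [Finite G] (hG : IsPGroup p G) {d : ℕ}
    (x : Fin d → G) (hx : Subgroup.closure (Set.range x) = ⊤) (hd : d = Group.rank G)
    (i : Fin d) : x i ∉ frattini G := by
  classical
  refine not_mem_frattini hG x hx hd (x i) (fun k => if k = i then 1 else 0) ?_ i ?_
  · rw [Finset.prod_eq_single i]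
    · simp
    · intro k _ hk
      simp [hk]
    · intro h; exact absurd (Finset.mem_univ i) h
  · simp only [if_true]
    intro h
    have h1 := Int.le_of_dvd one_pos h
    have h2 : (2 : ℤ) ≤ p := by exact_mod_cast hp.out.two_le
    omega

theorem full_of_class_two {p : ℕ} [hp : Fact p.Prime] [Finite G] (hG : IsPGroup p G)
    (hc : ∀ a b c : G, ⁅⁅a, b⁆, c⁆ = 1)
    (hP : ∀ w, w ∉ frattini G → ∀ v, w⁻¹ * v ∈ commutator G → IsConj w v) {d : ℕ}
    (x : Fin d → G) (hx : Subgroup.closure (Set.range x) = ⊤) (hd : d = Group.rank G) :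
    Full x := by
  classical
  have hcrit : Pool.Agent.Helper832.AutC.Crit hc x := by
    intro a j g
    have main : ∀ n : ℕ, ∀ a : Fin d → ℤ, ∑ i, (a i).natAbs ≤ n →
        ∃ h : G, (pr hc (x j) g) ^ a j = ∏ i, (pr hc (x i) h) ^ a i := by
      intro n
      induction n with
      | zero =>
        intro a ha
        have h0 : ∀ i, a i = 0 := by
          intro i
          have h1 : (a i).natAbs ≤ ∑ i, (a i).natAbs :=
            Finset.single_le_sum (f := fun i => (a i).natAbs) (fun _ _ => Nat.zero_le _)
              (Finset.mem_univ i)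
          have h2 : (a i).natAbs = 0 := by omega
          exact Int.natAbs_eq_zero.mp h2
        refine ⟨1, ?_⟩
        simp [h0]
      | succ n ih =>
        intro a ha
        by_cases hall : ∀ i, (p : ℤ) ∣ a i
        · choose b hb using hall
          have h1 : 2 * ∑ i, (b i).natAbs ≤ ∑ i, (a i).natAbs := by
            rw [Finset.mul_sum]
            refine Finset.sum_le_sum (fun i _ => ?_)
            rw [hb i, Int.natAbs_mul, Int.natAbs_natCast]
            exact Nat.mul_le_mul_right _ hp.out.two_le
          obtain ⟨h, hh⟩ := ih b (by omega)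
          refine ⟨h, ?_⟩
          have h2 : ∀ (z : Subgroup.center G) (i : Fin d), z ^ a i = (z ^ b i) ^ p := by
            intro z i
            rw [hb i, mul_comm, zpow_mul, zpow_natCast]
          rw [h2, hh, ← Finset.prod_pow]
          exact Finset.prod_congr rfl (fun i _ => (h2 _ i).symm)
        · push Not at hall
          obtain ⟨i, hi⟩ := hall
          have hw : wd x a ∉ frattini G :=
            not_mem_frattini hG x hx hd _ a (hom_wd Abelianization.of x a) i hi
          have h1 : IsConj (wd x a) (wd x a * ⁅x j, g⁆ ^ a j) := by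
            apply hP _ hw
            rw [inv_mul_cancel_left]
            exact zpow_mem (comm_mem _ _) _
          obtain ⟨h, hh⟩ := (isConj_iff_two hc _ _).mp h1
          refine ⟨h, ?_⟩
          rw [← pr_wd]
          apply Subtype.ext
          have h2 := mul_left_cancel hh
          show ((pr hc (x j) g : Subgroup.center G) ^ a j : Subgroup.center G).1 = ⁅wd x a, h⁆
          rw [← h2]
          rfl
    exact main _ a le_rfl
  have hs := surjP_of_crit hc x hx hcrit
  intro y hy
  exact hs y (fun i => hP _ (gen_not_mem_frattini hG x hx hd i) _ (hy i))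

theorem class_two_of_good {p : ℕ} [hp : Fact p.Prime] [Finite G] (hG : IsPGroup p G)
    {d : ℕ} (hd : 3 ≤ d) (hgood : Good d G) : ∀ a b c : G, ⁅⁅a, b⁆, c⁆ = 1 := by
  have hnil : Group.IsNilpotent G := hG.isNilpotent
  have hle : G4 G ≤ Psi p G := (g4_le G).trans (comm_le_psi p)
  have h1 := class_two_of_three (hG.to_quotient (G4 G)) (by
    intro a b c e
    obtain ⟨a, rfl⟩ := QuotientGroup.mk_surjective a
    obtain ⟨b, rfl⟩ := QuotientGroup.mk_surjective b
    obtain ⟨c, rfl⟩ := QuotientGroup.mk_surjective c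
    obtain ⟨e, rfl⟩ := QuotientGroup.mk_surjective e
    exact (QuotientGroup.eq_one_iff (⁅⁅⁅a, b⁆, c⁆, e⁆)).mpr (g4_mem a b c e)) hd
    (good_quot hG hgood _ hle)
  have h2 : commutator (G ⧸ G4 G) ≤ Subgroup.center (G ⧸ G4 G) := by
    rw [commutator_def, Subgroup.commutator_le]
    intro a _ b _
    exact comm_center h1 a b
  have h3 : ⁅commutator G, (⊤ : Subgroup G)⁆ ≤ G4 G := by
    rw [Subgroup.commutator_le]
    intro a ha g _
    apply quot_comm_eq_one.mp
    have h4 : (a : G ⧸ G4 G) ∈ commutator (G ⧸ G4 G) := by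
      rw [comm_quot]; exact ⟨a, ha, rfl⟩
    rw [commutatorElement_eq_one_iff_mul_comm]
    exact (ctr (h2 h4) _).symm
  have h5 : ⁅commutator G, (⊤ : Subgroup G)⁆ = ⊥ := eq_bot_of_le _ h3
  intro a b c
  have h6 : ⁅⁅a, b⁆, c⁆ ∈ ⁅commutator G, (⊤ : Subgroup G)⁆ :=
    Subgroup.commutator_mem_commutator (comm_mem a b) (Subgroup.mem_top c)
  rwa [h5, Subgroup.mem_bot] at h6

end Pool.Agent.N47.AC
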