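import Mathlib
import Pool.Agent.N47.AC.SufOne

/-!
Class-preserving automorphisms of finite `p`-groups: two generators and a cyclic commutator
subgroup.
-/

set_option autoImplicit false

open scoped commutatorElement

namespace Pool.Agent.N47.AC

open Pool.Agent.Helper832.AutC

/-- geometric sums -/
def gs (s : ℤ) (k : ℕ) : ℤ := ∑ i ∈ Finset.range k, s ^ i

lemma gs_zero (s : ℤ) : gs s 0 = 0 := rfl

lemma gs_add (s : ℤ) (i k : ℕ) : gs s (i + k) = gs s i + s ^ i * gs s k := by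
  unfold gs
  rw [Finset.sum_range_add, Finset.mul_sum]
  congr 1
  exact Finset.sum_congr rfl (fun j _ => pow_add s i j)

lemma gs_one (s : ℤ) : gs s 1 = 1 := by simp [gs]

lemma gs_succ (s : ℤ) (k : ℕ) : gs s (k + 1) = 1 + s * gs s k := by
  rw [add_comm, gs_add, gs_one, pow_one]

lemma gs_mul (s : ℤ) (k : ℕ) : gs s k * (s - 1) = s ^ k - 1 := geom_sum_mul s k

lemma dvd_of_gs {p : ℕ} [hp : Fact p.Prime] {s : ℤ} (hs : (p : ℤ) ∣ s - 1)
    (h2 : p = 2 → (4 : ℤ) ∣ s - 1) {n k : ℕ} (h : ((p ^ n : ℕ) : ℤ) ∣ gs s k) : p ^ n ∣ k := by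
  have hpp : Prime (p : ℤ) := Nat.prime_iff_prime_int.mp hp.out
  by_cases h1 : s = 1
  · subst h1
    have e : gs 1 k = k := by simp [gs]
    rw [e] at h
    exact_mod_cast h
  · have hne : s - 1 ≠ 0 := sub_ne_zero.mpr h1
    have hsp : ¬ (p : ℤ) ∣ s := by
      intro hd
      have : (p : ℤ) ∣ 1 := by
        have := dvd_sub hd hs
        rwa [sub_sub_cancel] at this
      exact hpp.not_isUnit (isUnit_of_dvd_one this)
    have hem : emultiplicity (p : ℤ) (s ^ k - 1) = emultiplicity (p : ℤ) (s - 1)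
        + emultiplicity (p : ℤ) (k : ℤ) := by
      rcases hp.out.eq_two_or_odd' with hp2 | hodd
      · have := Int.two_pow_sub_pow' (x := s) (y := 1) k (h2 hp2) (by
          intro hd
          apply hsp
          rw [hp2]
          exact_mod_cast hd)
        rw [one_pow] at this
        have e : (p : ℤ) = 2 := by rw [hp2]; rfl
        rw [e]
        exact this
      · have := Int.emultiplicity_pow_sub_pow hp.out hodd (x := s) (y := 1) hs hsp k
        rw [one_pow] at this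
        rw [this, Int.natCast_emultiplicity]
    have hfin : FiniteMultiplicity (p : ℤ) (s - 1) := by
      rw [Int.finiteMultiplicity_iff]
      refine ⟨?_, hne⟩
      rw [Int.natAbs_natCast]
      exact hp.out.one_lt.ne'
    rw [← gs_mul, emultiplicity_mul hpp, add_comm] at hem
    have h3 : emultiplicity (p : ℤ) (gs s k) = emultiplicity (p : ℤ) (k : ℤ) := by
      have h4 : emultiplicity (p : ℤ) (s - 1) ≠ ⊤ := by
        rw [Ne, emultiplicity_eq_top, not_not]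
        exact hfin
      exact ENat.add_right_injective_of_ne_top h4 hem
    have h5 : ((p : ℤ)) ^ n ∣ gs s k := by exact_mod_cast h
    rw [pow_dvd_iff_le_emultiplicity, h3, ← pow_dvd_iff_le_emultiplicity] at h5
    exact_mod_cast h5

lemma exists_gs {p : ℕ} [hp : Fact p.Prime] {s : ℤ} (hs : (p : ℤ) ∣ s - 1)
    (h2 : p = 2 → (4 : ℤ) ∣ s - 1) (n : ℕ) (t : ℤ) :
    ∃ j : ℕ, ((p ^ n : ℕ) : ℤ) ∣ gs s j - t := by
  have hpp : Prime (p : ℤ) := Nat.prime_iff_prime_int.mp hp.out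
  have hsp : ¬ (p : ℤ) ∣ s := by
    intro hd
    have : (p : ℤ) ∣ 1 := by
      have := dvd_sub hd hs
      rwa [sub_sub_cancel] at this
    exact hpp.not_isUnit (isUnit_of_dvd_one this)
  haveI : NeZero (p ^ n) := ⟨(pow_pos hp.out.pos n).ne'⟩
  let f : Fin (p ^ n) → ZMod (p ^ n) := fun j => (gs s j : ZMod (p ^ n))
  have key : ∀ i j : ℕ, i ≤ j → j < p ^ n → ((gs s i : ℤ) : ZMod (p ^ n)) = (gs s j : ℤ) →
      i = j := by
    intro i j hij hj h
    obtain ⟨k, rfl⟩ := Nat.exists_eq_add_of_le hij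
    rw [gs_add, eq_comm, ← sub_eq_zero, ← Int.cast_sub, add_sub_cancel_left,
      ZMod.intCast_zmod_eq_zero_iff_dvd] at h
    have hcop : IsCoprime (((p ^ n : ℕ) : ℤ)) (s ^ i) := by
      push_cast
      apply IsCoprime.pow
      exact (Prime.coprime_iff_not_dvd hpp).mpr hsp
    have h3 := hcop.dvd_of_dvd_mul_left h
    have h4 := dvd_of_gs hs h2 h3
    have h5 : k < p ^ n := by omega
    have h6 := Nat.eq_zero_of_dvd_of_lt h4 h5
    omega
  have hinj : Function.Injective f := by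
    intro i j h
    apply Fin.ext
    rcases le_total i.1 j.1 with hij | hij
    · exact key i j hij j.2 h
    · exact (key j i hij i.2 h.symm).symm
  have hbij : Function.Bijective f := hinj.bijective_of_nat_card_le (by
    rw [Nat.card_zmod, Nat.card_eq_fintype_card, Fintype.card_fin])
  obtain ⟨j, hj⟩ := hbij.2 (t : ZMod (p ^ n))
  refine ⟨j, ?_⟩
  rw [← ZMod.intCast_zmod_eq_zero_iff_dvd, Int.cast_sub, sub_eq_zero]
  exact hj

section

variable {G : Type} [Group G] [Finite G]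

lemma zpow_gs {p : ℕ} [hp : Fact p.Prime] (hG : IsPGroup p G) {s : ℤ} (hs : (p : ℤ) ∣ s - 1)
    (h2 : p = 2 → (4 : ℤ) ∣ s - 1) (c : G) (t : ℤ) : ∃ j : ℕ, c ^ gs s j = c ^ t := by
  obtain ⟨n, hn⟩ := IsPGroup.iff_orderOf.mp hG c
  obtain ⟨j, hj⟩ := exists_gs hs h2 n t
  refine ⟨j, ?_⟩
  have h3 : c ^ (gs s j - t) = 1 := by
    rw [← hn] at hj
    exact orderOf_dvd_iff_zpow_eq_one.mp hj
  rw [zpow_sub, mul_inv_eq_one] at h3
  exact h3

omit [Finite G] in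
lemma conj_npow {y x c : G} {s : ℤ} (hyx : y * x * y⁻¹ = c * x) (hyc : y * c * y⁻¹ = c ^ s)
    (j : ℕ) : y ^ j * x * (y ^ j)⁻¹ = c ^ gs s j * x := by
  induction j with
  | zero => rw [gs_zero]; simp
  | succ j ih =>
    have e : y ^ (j + 1) * x * (y ^ (j + 1))⁻¹ = y * (y ^ j * x * (y ^ j)⁻¹) * y⁻¹ := by
      rw [pow_succ']; group
    have e2 : y * (c ^ gs s j * x) * y⁻¹ = (y * c * y⁻¹) ^ gs s j * (y * x * y⁻¹) := by
      rw [conj_zpow]; group
    rw [e, ih, e2, hyc, hyx, ← zpow_mul, gs_succ, ← mul_assoc, ← zpow_add_one, add_comm]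

theorem full_cyc {p : ℕ} [hp : Fact p.Prime] (hG : IsPGroup p G) {x y : G} {s : ℤ}
    (hA : commutator G = Subgroup.zpowers ⁅x, y⁆) (hx : x * ⁅x, y⁆ * x⁻¹ = ⁅x, y⁆)
    (hy : y * ⁅x, y⁆ * y⁻¹ = ⁅x, y⁆ ^ s) (hs : (p : ℤ) ∣ s - 1)
    (h2 : p = 2 → (4 : ℤ) ∣ s - 1) : Full ![x, y] := by
  set c := ⁅x, y⁆ with hc
  intro w hw
  have hw0 : x⁻¹ * w 0 ∈ commutator G := hw 0
  have hw1 : y⁻¹ * w 1 ∈ commutator G := hw 1
  have hconj : ∀ a ∈ commutator G, ∀ g : G, g * a * g⁻¹ ∈ commutator G := fun a ha g =>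
    (inferInstance : (commutator G).Normal).conj_mem a ha g
  have ha : w 0 * x⁻¹ ∈ commutator G := by
    have := hconj _ hw0 x
    have e : x * (x⁻¹ * w 0) * x⁻¹ = w 0 * x⁻¹ := by group
    rwa [e] at this
  have hb : w 1 * y⁻¹ ∈ commutator G := by
    have := hconj _ hw1 y
    have e : y * (y⁻¹ * w 1) * y⁻¹ = w 1 * y⁻¹ := by group
    rwa [e] at this
  have hyx : y * x * y⁻¹ = c⁻¹ * x := by rw [hc, commutatorElement_def]; group
  have hyc : y * c⁻¹ * y⁻¹ = (c⁻¹) ^ s := by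
    rw [← conj_inv, hy, inv_zpow]
  have hxy : x * y * x⁻¹ = c * y := by rw [hc, commutatorElement_def]; group
  rw [hA] at ha
  obtain ⟨k, hk⟩ := ha
  obtain ⟨j, hj⟩ := zpow_gs hG hs h2 c⁻¹ (-k)
  have hj' : (c⁻¹) ^ gs s j = w 0 * x⁻¹ := by
    rw [hj, inv_zpow, zpow_neg, inv_inv]; exact hk
  have hb' := hconj _ hb (y ^ j)⁻¹
  rw [inv_inv, hA] at hb'
  rw [← mem_powers_iff_mem_zpowers] at hb'
  obtain ⟨i, hi⟩ := hb'
  have hi' : c ^ i = (y ^ j)⁻¹ * (w 1 * y⁻¹) * y ^ j := hi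
  have hxc : x * c * x⁻¹ = c ^ (1 : ℤ) := by rw [zpow_one]; exact hx
  have hxi : x ^ i * y * (x ^ i)⁻¹ = c ^ i * y := by
    rw [conj_npow hxy hxc i]
    have : gs 1 i = i := by simp [gs]
    rw [this, zpow_natCast]
  refine ⟨MulAut.conj (y ^ j * x ^ i), fun z => isConj_iff.mpr ⟨_, rfl⟩, ?_⟩
  intro m
  fin_cases m
  · show (y ^ j * x ^ i) * x * (y ^ j * x ^ i)⁻¹ = w 0
    have e : (y ^ j * x ^ i) * x * (y ^ j * x ^ i)⁻¹ = y ^ j * x * (y ^ j)⁻¹ := by group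
    rw [e, conj_npow hyx hyc j, hj', inv_mul_cancel_right]
  · show (y ^ j * x ^ i) * y * (y ^ j * x ^ i)⁻¹ = w 1
    have e : (y ^ j * x ^ i) * y * (y ^ j * x ^ i)⁻¹
        = y ^ j * (x ^ i * y * (x ^ i)⁻¹) * (y ^ j)⁻¹ := by group
    rw [e, hxi, hi']; group

omit [Finite G] in
lemma conj_pow_c {y c : G} {s : ℤ} (hyc : y * c * y⁻¹ = c ^ s)
    (j : ℕ) : y ^ j * c * (y ^ j)⁻¹ = c ^ (s ^ j) := by
  induction j with
  | zero => simp
  | succ j ih =>
    have e : y ^ (j + 1) * c * (y ^ (j + 1))⁻¹ = y * (y ^ j * c * (y ^ j)⁻¹) * y⁻¹ := by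
      rw [pow_succ']; group
    rw [e, ih, ← conj_zpow, hyc, ← zpow_mul, pow_succ']

/-- a generating pair whose first member centralises the commutator subgroup, or its mirror -/
lemma exists_cent {p : ℕ} [hp : Fact p.Prime] (hG : IsPGroup p G) {x y c : G} {s r : ℤ}
    (hxy : Subgroup.closure {x, y} = ⊤)
    (hx : x * c * x⁻¹ = c ^ r) (hy : y * c * y⁻¹ = c ^ s) (hs : (p : ℤ) ∣ s - 1)
    (h2 : p = 2 → (4 : ℤ) ∣ s - 1) (hle : ⁅x, c⁆ ∈ Subgroup.zpowers ⁅y, c⁆) :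
    ∃ x' : G, Subgroup.closure {x', y} = ⊤ ∧ x' * c * x'⁻¹ = c := by
  obtain ⟨t, ht⟩ := hle
  have ht' : ⁅y, c⁆ ^ t = ⁅x, c⁆ := ht
  have e1 : ⁅y, c⁆ = c ^ (s - 1) := by
    rw [commutatorElement_def, hy, zpow_sub_one]
  have e2 : ⁅x, c⁆ = c ^ (r - 1) := by
    rw [commutatorElement_def, hx, zpow_sub_one]
  obtain ⟨j, hj⟩ := zpow_gs hG hs h2 c t
  have h3 : y ^ j * c * (y ^ j)⁻¹ = x * c * x⁻¹ := by
    rw [conj_pow_c hy, hx]
    have h4 : s ^ j = gs s j * (s - 1) + 1 := by rw [gs_mul]; ring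
    have h5 : c ^ r = c ^ (r - 1) * c := by rw [← zpow_add_one, sub_add_cancel]
    rw [h4, h5, zpow_add_one, zpow_mul, hj, ← e2, ← ht', e1, ← zpow_mul,
      ← zpow_mul, mul_comm t]
  refine ⟨(y ^ j)⁻¹ * x, ?_, ?_⟩
  · rw [eq_top_iff, ← hxy, Subgroup.closure_le]
    have h1 : y ∈ Subgroup.closure {(y ^ j)⁻¹ * x, y} := Subgroup.subset_closure (by simp)
    have h2 : (y ^ j)⁻¹ * x ∈ Subgroup.closure {(y ^ j)⁻¹ * x, y} :=
      Subgroup.subset_closure (by simp)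
    rintro g (rfl | hg)
    · have := mul_mem (pow_mem h1 j) h2
      rwa [mul_inv_cancel_left] at this
    · rw [Set.mem_singleton_iff.mp hg]; exact h1
  · have e : (y ^ j)⁻¹ * x * c * ((y ^ j)⁻¹ * x)⁻¹ = (y ^ j)⁻¹ * (x * c * x⁻¹) * y ^ j := by group
    rw [e, ← h3]; group

lemma full_of_cent {p : ℕ} [hp : Fact p.Prime] (hG : IsPGroup p G) {x y c : G} {s : ℤ}
    (hxy : Subgroup.closure {x, y} = ⊤) (hcyc : IsCyclic (commutator G))
    (hA : commutator G = Subgroup.zpowers c)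
    (hx : x * c * x⁻¹ = c) (hy : y * c * y⁻¹ = c ^ s) (hs : (p : ℤ) ∣ s - 1)
    (h2 : p = 2 → (4 : ℤ) ∣ s - 1) : Full ![x, y] := by
  have h1 := comm_mem x y
  rw [hA] at h1
  obtain ⟨k, hk⟩ := h1
  have hk' : c ^ k = ⁅x, y⁆ := hk
  refine full_cyc hG (comm_eq_zpowers hxy hcyc) ?_ ?_ hs h2
  · rw [← hk', ← conj_zpow, hx]
  · rw [← hk', ← conj_zpow, hy, ← zpow_mul, ← zpow_mul, mul_comm]

lemma exists_s {p : ℕ} [hp : Fact p.Prime] (hG : IsPGroup p G) {c : G}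
    (hA : commutator G = Subgroup.zpowers c)
    (h4 : p = 2 → ∀ a ∈ commutator G, ∀ g : G, ∃ b ∈ commutator G, ⁅a, g⁆ = b ^ 4) (g : G) :
    ∃ s : ℤ, g * c * g⁻¹ = c ^ s ∧ (p : ℤ) ∣ s - 1 ∧ (p = 2 → (4 : ℤ) ∣ s - 1) := by
  have hcA : c ∈ commutator G := by rw [hA]; exact Subgroup.mem_zpowers c
  by_cases hp2 : p = 2
  · obtain ⟨b, hb, hbc⟩ := h4 hp2 c hcA g
    rw [hA] at hb
    obtain ⟨k, hk⟩ := hb
    have hk' : c ^ k = b := hk
    have h4 : g * c * g⁻¹ = c ^ (1 - 4 * k) := by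
      have e : g * c * g⁻¹ = ⁅c, g⁆⁻¹ * c := by rw [commutatorElement_def]; group
      rw [e, hbc, ← hk', ← zpow_natCast, ← zpow_mul, ← zpow_neg, ← zpow_add_one]
      congr 1
      push_cast
      ring
    refine ⟨1 - 4 * k, h4, ?_, fun _ => ?_⟩
    · rw [hp2]
      exact ⟨-(2 * k), by push_cast; ring⟩
    · exact ⟨-k, by ring⟩
  · have h1 := (inferInstance : (commutator G).Normal).conj_mem c hcA g
    rw [hA] at h1
    obtain ⟨s, hs⟩ := h1
    have hs' : c ^ s = g * c * g⁻¹ := hs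
    by_cases hc1 : c = 1
    · subst hc1
      exact ⟨1, by simp, by simp, fun h => absurd h hp2⟩
    refine ⟨s, hs'.symm, ?_, fun h => absurd h hp2⟩
    by_contra hps
    apply hc1
    haveI : Group.IsNilpotent G := hG.isNilpotent
    have h5 : commutator G = ⊥ := by
      apply eq_bot_of_le
      rw [hA, Subgroup.zpowers_le, ← hA]
      have h6 : ⁅c, g⁆ ∈ ⁅commutator G, (⊤ : Subgroup G)⁆ :=
        Subgroup.commutator_mem_commutator hcA (Subgroup.mem_top g)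
      have h7 : c ^ (s - 1) ∈ ⁅commutator G, (⊤ : Subgroup G)⁆ := by
        have e : c ^ (s - 1) = ⁅c, g⁆⁻¹ := by
          rw [zpow_sub_one, hs', commutatorElement_def]; group
        rw [e]; exact inv_mem h6
      obtain ⟨n, hn⟩ := IsPGroup.iff_orderOf.mp hG c
      have h8 : IsCoprime (s - 1) ((p ^ n : ℕ) : ℤ) := by
        push_cast
        apply IsCoprime.pow_right
        rw [isCoprime_comm]
        exact (Prime.coprime_iff_not_dvd (Nat.prime_iff_prime_int.mp hp.out)).mpr hps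
      obtain ⟨u, v, huv⟩ := h8
      have h9 : c = (c ^ (s - 1)) ^ u := by
        have h10 : c ^ ((p ^ n : ℕ) : ℤ) = 1 := by
          rw [← hn, zpow_natCast, pow_orderOf_eq_one]
        rw [← zpow_mul]
        have e : (s - 1) * u = 1 - ((p ^ n : ℕ) : ℤ) * v := by linarith
        rw [e, zpow_sub, zpow_mul, h10, one_zpow, zpow_one, inv_one, mul_one]
      rw [h9]
      exact zpow_mem h7 u
    rw [h5, Subgroup.mem_bot] at hcA
    exact hcA

theorem exists_full_cyc {p : ℕ} [hp : Fact p.Prime] (hG : IsPGroup p G) {x y : G}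
    (hxy : Subgroup.closure {x, y} = ⊤) (hcyc : IsCyclic (commutator G))
    (h4 : p = 2 → ∀ a ∈ commutator G, ∀ g : G, ∃ b ∈ commutator G, ⁅a, g⁆ = b ^ 4) :
    ∃ x' y' : G, Subgroup.closure {x', y'} = ⊤ ∧ Full ![x', y'] := by
  have hA := comm_eq_zpowers hxy hcyc
  obtain ⟨r, hr, hr1, hr2⟩ := exists_s hG hA h4 x
  obtain ⟨s, hs, hs1, hs2⟩ := exists_s hG hA h4 y
  rcases chain_of_cyclic hG hcyc x ⁅x, y⁆ y ⁅x, y⁆ with h | h
  · obtain ⟨x', h1, h2⟩ := exists_cent hG hxy hr hs hs1 hs2 h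
    exact ⟨x', y, h1, full_of_cent hG h1 hcyc hA h2 hs hs1 hs2⟩
  · have hyx : Subgroup.closure {y, x} = ⊤ := by rw [Set.pair_comm]; exact hxy
    obtain ⟨y', h1, h2⟩ := exists_cent hG hyx hs hr hr1 hr2 h
    exact ⟨y', x, h1, full_of_cent hG h1 hcyc hA h2 hr hr1 hr2⟩

end

end Pool.Agent.N47.AC
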