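import Mathlib
import Pool.Agent.N47.AC.SufTwo

/-!
Class-preserving automorphisms of finite `2`-groups: two generators and an elementary abelian
commutator subgroup of class at most three.
-/

set_option autoImplicit false

open scoped commutatorElement

namespace Pool.Agent.N47.AC

open Pool.Agent.Helper832.AutC

variable {G : Type} [Group G]

lemma K2_conj_left {b : G} (hb : b ∈ K2 G) (w z : G) : ⁅w * b * w⁻¹, z⁆ = ⁅b, z⁆ := by
  have h1 : ⁅w, b⁆ ∈ Subgroup.center G := by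
    rw [← commutatorElement_inv]
    exact inv_mem (hb w)
  have e : w * b * w⁻¹ = ⁅w, b⁆ * b := by rw [commutatorElement_def]; group
  have h2 : ⁅⁅w, b⁆, z⁆ = 1 := by
    rw [commutatorElement_eq_one_iff_mul_comm]
    exact (ctr h1 z).symm
  rw [e, K2_mul_left hb, h2, mul_one]

/-- `w ↦ ⁅⁅y, w⁆, z⁆` -/
def lam (hA : commutator G ≤ K2 G) (y z : G) : G →* Subgroup.center G :=
  MonoidHom.mk' (fun w => ⟨⁅⁅y, w⁆, z⁆, hA (comm_mem y w) z⟩) (by
    intro w w'
    apply Subtype.ext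
    show ⁅⁅y, w * w'⁆, z⁆ = ⁅⁅y, w⁆, z⁆ * ⁅⁅y, w'⁆, z⁆
    have e : ⁅y, w * w'⁆ = ⁅y, w⁆ * (w * ⁅y, w'⁆ * w⁻¹) := by
      simp only [commutatorElement_def]; group
    have hb : w * ⁅y, w'⁆ * w⁻¹ ∈ K2 G :=
      hA ((inferInstance : (commutator G).Normal).conj_mem _ (comm_mem y w') w)
    rw [e, K2_mul_left hb, K2_conj_left (hA (comm_mem y w')), ctr (hA (comm_mem y w') z)])

lemma lam_coe (hA : commutator G ≤ K2 G) (y z w : G) :
    ((lam hA y z w : Subgroup.center G) : G) = ⁅⁅y, w⁆, z⁆ := rfl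

lemma lam_comm (hA : commutator G ≤ K2 G) (y z : G) {a : G} (ha : a ∈ commutator G) :
    lam hA y z a = 1 := by
  apply Subtype.ext
  show ⁅⁅y, a⁆, z⁆ = 1
  have h1 : ⁅y, a⁆ ∈ Subgroup.center G := by
    rw [← commutatorElement_inv]
    exact inv_mem (hA ha y)
  rw [commutatorElement_eq_one_iff_mul_comm]
  exact (ctr h1 z).symm

lemma hom_of_exp {d : ℕ} (x : Fin d → G) (w : G) (a : Fin d → ℤ)
    (h : Abelianization.of w = ∏ i, (Abelianization.of (x i)) ^ a i)
    (φ : G →* Subgroup.center G) : φ w = ∏ i, φ (x i) ^ a i := by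
  have h1 : ∀ v : G, Abelianization.lift φ (Abelianization.of v) = φ v := fun v =>
    Abelianization.lift_apply_of φ v
  rw [← h1, h, map_prod]
  refine Finset.prod_congr rfl (fun i _ => ?_)
  rw [map_zpow, h1]

lemma zpow_two_cases {M : Type*} [Group M] {u : M} (hu : u ^ 2 = 1) (m : ℤ) :
    (u ^ m = 1 ∧ Even m) ∨ (u ^ m = u ∧ Odd m) := by
  rcases Int.even_or_odd m with h | h
  · left
    refine ⟨?_, h⟩
    obtain ⟨k, rfl⟩ := h
    rw [← two_mul, zpow_mul, show u ^ (2 : ℤ) = 1 from by exact_mod_cast hu, one_zpow]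
  · right
    refine ⟨?_, h⟩
    obtain ⟨k, rfl⟩ := h
    rw [zpow_add, zpow_mul, show u ^ (2 : ℤ) = 1 from by exact_mod_cast hu, one_zpow, one_mul,
      zpow_one]

lemma zpow_even {M : Type*} [Group M] {u : M} (hu : u ^ 2 = 1) {m : ℤ} (hm : Even m) :
    u ^ m = 1 := by
  obtain ⟨k, rfl⟩ := hm
  rw [← two_mul, zpow_mul, show u ^ (2 : ℤ) = 1 from by exact_mod_cast hu, one_zpow]

lemma zpow_odd {M : Type*} [Group M] {u : M} (hu : u ^ 2 = 1) {m : ℤ} (hm : Odd m) :
    u ^ m = u := by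
  obtain ⟨k, rfl⟩ := hm
  rw [zpow_add, zpow_mul, show u ^ (2 : ℤ) = 1 from by exact_mod_cast hu, one_zpow, one_mul,
    zpow_one]

section Pairs

variable (hA : commutator G ≤ K2 G) (hsq : ∀ a ∈ commutator G, a ^ 2 = 1)

include hsq in
lemma comm_inv_self {a : G} (ha : a ∈ commutator G) : a⁻¹ = a := by
  rw [inv_eq_iff_mul_eq_one, ← pow_two]
  exact hsq a ha

include hA hsq in
/-- conjugation by `y ^ 2` -/
lemma conj_sq (y w : G) : y ^ 2 * w * (y ^ 2)⁻¹ = ⁅⁅y, w⁆, y⁆ * w := by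
  have hb := comm_mem y w
  set b := ⁅y, w⁆ with hbd
  have e1 : y * w * y⁻¹ = b * w := by rw [hbd, commutatorElement_def]; group
  have e2 : y ^ 2 * w * (y ^ 2)⁻¹ = (y * b * y⁻¹) * (b * w) := by
    have h1 : y ^ 2 * w * (y ^ 2)⁻¹ = y * (y * w * y⁻¹) * y⁻¹ := by
      rw [pow_two]; group
    have h2 : y * (b * w) * y⁻¹ = (y * b * y⁻¹) * (y * w * y⁻¹) := by group
    rw [h1, e1, h2, e1]
  have e3 : y * b * y⁻¹ = ⁅b, y⁆⁻¹ * b := by rw [commutatorElement_def]; group
  have hby : ⁅b, y⁆ ∈ commutator G := comm_mem b y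
  rw [e2, e3, comm_inv_self hsq hby, mul_assoc, ← mul_assoc b, ← pow_two, hsq b hb, one_mul]

include hA hsq in
lemma lam_isConj {x y : G} (hxy : Subgroup.closure {x, y} = ⊤) (w : G) :
    IsConj w (⁅⁅y, w⁆, x⁆ * w) := by
  have hcA : ⁅x, y⁆ ∈ commutator G := comm_mem x y
  have hc := hA hcA
  obtain ⟨a, ha⟩ := exists_exponents ![x, y] (by rw [range_pair, hxy]) w
  have h1 := congrArg (fun z : Subgroup.center G => (z : G)) (hom_of_exp _ w a ha (lam hA y x))
  have h2 := congrArg (fun z : Subgroup.center G => (z : G)) (hom_of_exp _ w a ha (lam hA y y))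
  have h3 := congrArg (fun z : Subgroup.center G => (z : G)) (hom_of_exp _ w a ha (brk hc))
  simp only [Fin.prod_univ_two, Subgroup.coe_mul, SubgroupClass.coe_zpow] at h1 h2 h3
  have e1 : ((lam hA y x (![x, y] 0) : Subgroup.center G) : G) = ⁅⁅x, y⁆, x⁆ := by
    show ⁅⁅y, x⁆, x⁆ = _
    rw [← commutatorElement_inv x y, comm_inv_self hsq hcA]
  have e2 : ((lam hA y x (![x, y] 1) : Subgroup.center G) : G) = 1 := by
    show ⁅⁅y, y⁆, x⁆ = _
    rw [commutatorElement_self, commutatorElement_one_left]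
  have e3 : ((lam hA y y (![x, y] 0) : Subgroup.center G) : G) = ⁅⁅x, y⁆, y⁆ := by
    show ⁅⁅y, x⁆, y⁆ = _
    rw [← commutatorElement_inv x y, comm_inv_self hsq hcA]
  have e4 : ((lam hA y y (![x, y] 1) : Subgroup.center G) : G) = 1 := by
    show ⁅⁅y, y⁆, y⁆ = _
    rw [commutatorElement_self, commutatorElement_one_left]
  have e5 : ((brk hc (![x, y] 0) : Subgroup.center G) : G) = ⁅⁅x, y⁆, x⁆ := rfl
  have e6 : ((brk hc (![x, y] 1) : Subgroup.center G) : G) = ⁅⁅x, y⁆, y⁆ := rfl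
  have e7 : ((lam hA y x w : Subgroup.center G) : G) = ⁅⁅y, w⁆, x⁆ := rfl
  have e8 : ((lam hA y y w : Subgroup.center G) : G) = ⁅⁅y, w⁆, y⁆ := rfl
  have e9 : ((brk hc w : Subgroup.center G) : G) = ⁅⁅x, y⁆, w⁆ := rfl
  rw [e1, e2, e7, one_zpow, mul_one] at h1
  rw [e3, e4, e8, one_zpow, mul_one] at h2
  rw [e5, e6, e9] at h3
  set c := ⁅x, y⁆ with hcd
  have hu2 : ⁅c, x⁆ ^ 2 = 1 := hsq _ (comm_mem _ _)
  have hv2 : ⁅c, y⁆ ^ 2 = 1 := hsq _ (comm_mem _ _)
  have hvc : ⁅c, y⁆ ∈ Subgroup.center G := hc y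
  rcases Int.even_or_odd (a 0) with hm | hm
  · rw [h1, zpow_even hu2 hm, one_mul]
  · rw [h1, zpow_odd hu2 hm]
    rw [zpow_odd hu2 hm] at h3
    rw [zpow_odd hv2 hm] at h2
    have hcw : c * w * c⁻¹ = ⁅c, w⁆ * w := by rw [commutatorElement_def]; group
    rcases Int.even_or_odd (a 1) with hn | hn
    · rw [zpow_even hv2 hn, mul_one] at h3
      rw [h3] at hcw
      exact isConj_iff.mpr ⟨c, hcw⟩
    · rw [zpow_odd hv2 hn] at h3
      rw [h3] at hcw
      refine isConj_iff.mpr ⟨c * y ^ 2, ?_⟩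
      have e : c * y ^ 2 * w * (c * y ^ 2)⁻¹ = c * (y ^ 2 * w * (y ^ 2)⁻¹) * c⁻¹ := by group
      have e' : c * (⁅c, y⁆ * w) * c⁻¹ = ⁅c, y⁆ * (c * w * c⁻¹) := by
        rw [← mul_assoc, ctr hvc c]; simp only [mul_assoc]
      rw [e, conj_sq hA hsq, h2, e', hcw, ← mul_assoc, ← mul_assoc, ← ctr hvc ⁅c, x⁆,
        mul_assoc ⁅c, x⁆, ← pow_two, hv2, mul_one]

include hA hsq in
/-- the central automorphism `w ↦ ⁅⁅y, w⁆, x⁆ w` -/
lemma exists_lam {x y : G} (hxy : Subgroup.closure {x, y} = ⊤) :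
    ∃ α ∈ AutC G, ∀ w, α w = ⁅⁅y, w⁆, x⁆ * w := by
  let f : G →* G := MonoidHom.mk' (fun w => (lam hA y x w : G) * w) (by
    intro w w'
    rw [map_mul, Subgroup.coe_mul]
    have := ctr (lam hA y x w').2 w
    calc (lam hA y x w : G) * (lam hA y x w' : G) * (w * w')
        = (lam hA y x w : G) * ((lam hA y x w' : G) * w) * w' := by group
      _ = (lam hA y x w : G) * (w * (lam hA y x w' : G)) * w' := by rw [this]
      _ = _ := by group)
  have hf : ∀ w, f w = ⁅⁅y, w⁆, x⁆ * w := fun w => rfl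
  have hff : ∀ w, f (f w) = w := by
    intro w
    have h1 : lam hA y x (f w) = lam hA y x w := by
      rw [hf, map_mul, lam_comm hA y x (comm_mem _ _), one_mul]
    have h2 : f (f w) = (lam hA y x (f w) : G) * f w := rfl
    rw [h2, h1, hf, ← mul_assoc]
    have h3 : (lam hA y x w : G) * ⁅⁅y, w⁆, x⁆ = 1 := by
      rw [lam_coe, ← pow_two]
      exact hsq _ (comm_mem _ _)
    rw [h3, one_mul]
  let α : G ≃* G :=
    { toFun := f
      invFun := f
      left_inv := hff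
      right_inv := hff
      map_mul' := map_mul f }
  exact ⟨α, fun w => lam_isConj hA hsq hxy w, fun w => rfl⟩

lemma autC_center {α : MulAut G} (hα : α ∈ AutC G) {z : G} (hz : z ∈ Subgroup.center G) :
    α z = z := by
  obtain ⟨g, hg⟩ := isConj_iff.mp (hα z)
  rw [← hg, ctr hz, mul_inv_cancel_right]

include hA hsq in
lemma single_change [Finite G] {x y : G} (hxy : Subgroup.closure {x, y} = ⊤) {a : G}
    (ha : a ∈ commutator G) : ∃ α ∈ AutC G, α x = a * x ∧ α y = y := by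
  have hcA : ⁅x, y⁆ ∈ commutator G := comm_mem x y
  have hc := hA hcA
  set c := ⁅x, y⁆ with hcd
  set Z := Subgroup.closure ({⁅c, x⁆, ⁅c, y⁆} : Set G) with hZ
  have hux : ⁅c, x⁆ ∈ Z := Subgroup.subset_closure (by simp)
  have huy : ⁅c, y⁆ ∈ Z := Subgroup.subset_closure (by simp)
  have hZc : Z ≤ Subgroup.center G := by
    rw [hZ, Subgroup.closure_le]
    rintro z (rfl | hz)
    · exact hc x
    · rw [Set.mem_singleton_iff.mp hz]; exact hc y
  have hyx : ⁅y, x⁆ = c := by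
    rw [← commutatorElement_inv x y, comm_inv_self hsq hcA]
  -- central changes
  have hcen : ∀ z ∈ Z, ∃ α ∈ AutC G, α x = z * x ∧ α y = y := by
    intro z hz
    induction hz using Subgroup.closure_induction with
    | mem z hz =>
      rcases hz with rfl | hz
      · obtain ⟨α, hα, h1⟩ := exists_lam hA hsq hxy
        refine ⟨α, hα, ?_, ?_⟩
        · rw [h1, hyx]
        · rw [h1, commutatorElement_self, commutatorElement_one_left, one_mul]
      · rw [Set.mem_singleton_iff.mp hz]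
        refine ⟨MulAut.conj (y ^ 2), fun w => isConj_iff.mpr ⟨_, rfl⟩, ?_, ?_⟩
        · show y ^ 2 * x * (y ^ 2)⁻¹ = _
          rw [conj_sq hA hsq, hyx]
        · show y ^ 2 * y * (y ^ 2)⁻¹ = y
          group
    | one => exact ⟨1, one_mem _, by simp, by simp⟩
    | mul z z' hz hz' h h' =>
      obtain ⟨α, hα, h1, h2⟩ := h
      obtain ⟨β, hβ, h3, h4⟩ := h'
      refine ⟨α * β, mul_mem hα hβ, ?_, ?_⟩
      · rw [MulAut.mul_apply, h3, map_mul, h1, autC_center hα (hZc hz'), ← mul_assoc,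
          ctr (hZc hz) z']
      · rw [MulAut.mul_apply, h4, h2]
    | inv z hz h =>
      obtain ⟨α, hα, h1, h2⟩ := h
      refine ⟨α⁻¹, inv_mem hα, ?_, ?_⟩
      · apply α.injective
        rw [MulAut.apply_inv_self, map_mul, map_inv, h1, autC_center hα (hZc hz),
          inv_mul_cancel_left]
      · apply α.injective
        rw [MulAut.apply_inv_self, h2]
  -- the commutator subgroup
  let N : Subgroup G :=
    { carrier := {b | ∃ k : ℤ, ∃ z ∈ Z, b = c ^ k * z}
      one_mem' := ⟨0, 1, one_mem _, by simp⟩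
      mul_mem' := by
        rintro _ _ ⟨k, z, hz, rfl⟩ ⟨l, w, hw, rfl⟩
        refine ⟨k + l, z * w, mul_mem hz hw, ?_⟩
        rw [zpow_add]
        have := ctr (hZc hz) (c ^ l)
        calc c ^ k * z * (c ^ l * w) = c ^ k * (z * c ^ l) * w := by group
          _ = c ^ k * (c ^ l * z) * w := by rw [this]
          _ = _ := by group
      inv_mem' := by
        rintro _ ⟨k, z, hz, rfl⟩
        refine ⟨-k, z⁻¹, inv_mem hz, ?_⟩
        rw [mul_inv_rev, zpow_neg, ctr (inv_mem (hZc hz))] }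
  have hbrk : ∀ g : G, ⁅c, g⁆ ∈ Z := by
    intro g
    have hg : g ∈ Subgroup.closure {x, y} := by rw [hxy]; exact Subgroup.mem_top g
    induction hg using Subgroup.closure_induction with
    | mem g hg =>
      rcases hg with rfl | hg
      · exact hux
      · rw [Set.mem_singleton_iff.mp hg]; exact huy
    | one => rw [commutatorElement_one_right]; exact one_mem _
    | mul g h _ _ hg hh => rw [K2_mul_right hc]; exact mul_mem hg hh
    | inv g _ hg =>
      have := K2_zpow_right hc g (-1)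
      rw [zpow_neg_one, zpow_neg_one] at this
      rw [this]; exact inv_mem hg
  have hN : N.Normal := by
    refine ⟨?_⟩
    rintro _ ⟨k, z, hz, rfl⟩ g
    have e1 : g * c * g⁻¹ = ⁅c, g⁆⁻¹ * c := by rw [commutatorElement_def]; group
    have e2 : g * (c ^ k * z) * g⁻¹ = (g * c * g⁻¹) ^ k * z := by
      rw [conj_zpow]
      calc g * (c ^ k * z) * g⁻¹ = g * c ^ k * (z * g⁻¹) := by group
        _ = g * c ^ k * (g⁻¹ * z) := by rw [ctr (hZc hz)]
        _ = _ := by group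
    have hcm : Commute (⁅c, g⁆⁻¹) c := (ctr (hZc (inv_mem (hbrk g))) c).symm
    refine ⟨k, (⁅c, g⁆⁻¹) ^ k * z, mul_mem (zpow_mem (inv_mem (hbrk g)) k) hz, ?_⟩
    rw [e2, e1, hcm.mul_zpow, ← mul_assoc, ctr (zpow_mem (hZc (inv_mem (hbrk g))) k)]
  have hAN : commutator G ≤ N := comm_le_of_pair hxy N ⟨1, 1, one_mem _, by simp [hcd]⟩
  obtain ⟨k, z, hz, rfl⟩ := hAN ha
  obtain ⟨β, hβ, h3, h4⟩ := hcen z hz
  rcases Int.even_or_odd k with hk | hk
  · rw [zpow_even (hsq c hcA) hk, one_mul]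
    exact ⟨β, hβ, h3, h4⟩
  · rw [zpow_odd (hsq c hcA) hk]
    have hy : MulAut.conj y ∈ AutC G := fun w => isConj_iff.mpr ⟨_, rfl⟩
    refine ⟨MulAut.conj y * β, mul_mem hy hβ, ?_, ?_⟩
    · rw [MulAut.mul_apply, h3, map_mul, autC_center hy (hZc hz)]
      have e : MulAut.conj y x = c * x := by
        rw [MulAut.conj_apply, ← hyx, commutatorElement_def]; group
      rw [e, ← mul_assoc, ctr (hZc hz) c]
    · rw [MulAut.mul_apply, h4, MulAut.conj_apply]; group

end Pairs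

theorem full_elem [Finite G] (hsq : ∀ a ∈ commutator G, a ^ 2 = 1)
    (h4 : ∀ a b c e : G, ⁅⁅⁅a, b⁆, c⁆, e⁆ = 1) {x y : G}
    (hxy : Subgroup.closure {x, y} = ⊤) : Full ![x, y] := by
  have hA := comm_le_K2 h4
  intro w hw
  have hw0 : x⁻¹ * w 0 ∈ commutator G := hw 0
  have hw1 : y⁻¹ * w 1 ∈ commutator G := hw 1
  have hconj : ∀ a ∈ commutator G, ∀ g : G, g * a * g⁻¹ ∈ commutator G := fun a ha g =>
    (inferInstance : (commutator G).Normal).conj_mem a ha g
  have ha : w 0 * x⁻¹ ∈ commutator G := by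
    have := hconj _ hw0 x
    have e : x * (x⁻¹ * w 0) * x⁻¹ = w 0 * x⁻¹ := by group
    rwa [e] at this
  have hb : w 1 * y⁻¹ ∈ commutator G := by
    have := hconj _ hw1 y
    have e : y * (y⁻¹ * w 1) * y⁻¹ = w 1 * y⁻¹ := by group
    rwa [e] at this
  obtain ⟨α, hα, h1, h2⟩ := single_change hA hsq hxy ha
  rw [inv_mul_cancel_right] at h1
  have hgen : Subgroup.closure {y, w 0} = ⊤ := by
    have h3 : (Subgroup.closure {x, y}).map α.toMonoidHom = Subgroup.closure {y, w 0} := by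
      have hx : α.toMonoidHom x = w 0 := h1
      have hy : α.toMonoidHom y = y := h2
      rw [MonoidHom.map_closure, Set.image_pair, hx, hy, Set.pair_comm]
    rw [← h3, hxy, Subgroup.map_top_of_surjective _ α.surjective]
  obtain ⟨β, hβ, h5, h6⟩ := single_change hA hsq hgen hb
  rw [inv_mul_cancel_right] at h5
  refine ⟨β * α, mul_mem hβ hα, ?_⟩
  intro i
  fin_cases i
  · show (β * α) x = w 0
    rw [MulAut.mul_apply, h1, h6]
  · show (β * α) y = w 1
    rw [MulAut.mul_apply, h2, h5]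

end Pool.Agent.N47.AC
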