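import Mathlib
import Pool.Agent.N47.AC.SufThree

/-!
Finite `p`-groups with `|Aut_c(G)| = |γ₂(G)| ^ d(G)`.
-/

set_option autoImplicit false

open scoped commutatorElement

namespace Pool.Agent.N47.AC.Answer

open Pool.Agent.N47.AC Pool.Agent.Helper832.AutC

/-- a reformulation of the condition in class at most two -/
theorem reformulate (G : Type) [Group G] (hc : ∀ a b c : G, ⁅⁅a, b⁆, c⁆ = 1) :
    (∀ x : G, x ∉ frattini G → ∀ y : G, IsConj x y ↔ x⁻¹ * y ∈ commutator G) ↔
      ∀ N : Subgroup G, N < commutator G → ∀ x : G, (∀ g : G, ⁅x, g⁆ ∈ N) → x ∈ frattini G := by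
  constructor
  · intro hP N hN x hx
    by_contra hxf
    apply hN.not_ge
    intro z hz
    have h1 : IsConj x (x * z) := (hP x hxf _).mpr (by rwa [inv_mul_cancel_left])
    obtain ⟨g, hg⟩ := (isConj_iff_two hc _ _).mp h1
    rw [mul_left_cancel hg]
    exact hx g
  · intro hN x hx y
    refine ⟨mem_of_isConj, fun hy => ?_⟩
    let N : Subgroup G := (pr hc x).range.map (Subgroup.center G).subtype
    have h1 : ∀ g : G, ⁅x, g⁆ ∈ N := fun g => ⟨pr hc x g, ⟨g, rfl⟩, rfl⟩
    have h2 : N ≤ commutator G := by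
      rintro _ ⟨_, ⟨g, rfl⟩, rfl⟩
      exact comm_mem x g
    have h3 : ¬ N < commutator G := fun h => hx (hN N h x h1)
    have h4 : commutator G ≤ N := by
      by_contra h
      exact h3 (lt_of_le_not_ge h2 h)
    obtain ⟨_, ⟨g, rfl⟩, hg⟩ := h4 hy
    have hg' : ⁅x, g⁆ = x⁻¹ * y := hg
    exact (isConj_iff_two hc _ _).mpr ⟨g, by rw [hg', mul_inv_cancel_left]⟩

/-- the finite `p`-groups whose group of class-preserving automorphisms has order
`|γ₂(G)| ^ d(G)` -/
theorem characterisation (p : ℕ) (hp : p.Prime) (G : Type) [Group G] [Finite G] (hG : IsPGroup p G) :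
    Nat.card (AutC G) = Nat.card (commutator G) ^ Group.rank G ↔
      ((∀ a b c : G, ⁅⁅a, b⁆, c⁆ = 1) ∧
        ∀ x : G, x ∉ frattini G → ∀ y : G, IsConj x y ↔ x⁻¹ * y ∈ commutator G) ∨
      (Group.rank G = 2 ∧ IsCyclic (commutator G) ∧
        (p = 2 → ∀ a ∈ commutator G, ∀ g : G, ∃ b ∈ commutator G, ⁅a, g⁆ = b ^ 4)) ∨
      (p = 2 ∧ Group.rank G = 2 ∧ (∀ a ∈ commutator G, a ^ 2 = 1) ∧
        ∀ a b c e : G, ⁅⁅⁅a, b⁆, c⁆, e⁆ = 1) := by
  haveI : Fact p.Prime := ⟨hp⟩
  obtain ⟨x, hx⟩ := exists_gen_rank (G := G)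
  have hpair : Group.rank G = 2 → ∃ x y : G, Subgroup.closure {x, y} = ⊤ := by
    intro h
    have h1 : ∀ d : ℕ, (∃ x : Fin d → G, Subgroup.closure (Set.range x) = ⊤) → d = 2 →
        ∃ x y : G, Subgroup.closure {x, y} = ⊤ := by
      rintro d ⟨x, hx⟩ rfl
      refine ⟨x 0, x 1, ?_⟩
      have e : ![x 0, x 1] = x := by
        funext i
        fin_cases i <;> rfl
      rw [← range_pair, e, hx]
    exact h1 _ ⟨x, hx⟩ h
  constructor
  · intro hcard
    have hgood : Good (Group.rank G) G := ⟨fun z hz => (full_iff z hz).mp hcard, ⟨x, hx⟩⟩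
    have hP : ∀ x : G, x ∉ frattini G → ∀ y : G, IsConj x y ↔ x⁻¹ * y ∈ commutator G := by
      intro w hw y
      exact ⟨mem_of_isConj, fun h => hgood.isConj hG (fun h1 => hw (psi_le_frattini hG h1)) h⟩
    rcases lt_trichotomy (Group.rank G) 2 with hd | hd | hd
    · left
      refine ⟨?_, hP⟩
      have h1 : commutator G ≤ ⊥ := by
        apply comm_le_of_gen x hx
        intro i k
        have : i = k := by
          apply Fin.ext
          have := i.2
          have := k.2
          omega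
        rw [this, commutatorElement_self]
        exact one_mem _
      intro a b c
      have h2 := h1 (comm_mem a b)
      rw [Subgroup.mem_bot] at h2
      rw [h2, commutatorElement_one_left]
    · right
      rw [hd] at hgood
      by_cases hp2 : p = 2
      · subst hp2
        rcases two_gen_two _ G rfl hG hgood with h | ⟨h1, h2⟩
        · left
          exact ⟨hd, h, fun _ a ha g => comm_fourth hG hgood h ha g⟩
        · right
          exact ⟨rfl, hd, h1, h2⟩
      · left
        exact ⟨hd, cyclic_of_odd p hp2 _ G rfl hG hgood, fun h => absurd h hp2⟩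
    · left
      exact ⟨class_two_of_good hG hd hgood, hP⟩
  · rintro (⟨hc, hP⟩ | ⟨hd, hcyc, h4⟩ | ⟨rfl, hd, hsq, h4⟩)
    · exact (full_iff x hx).mpr (full_of_class_two hG hc (fun w hw v hv => (hP w hw v).mpr hv)
        x hx rfl)
    · obtain ⟨a, b, hab⟩ := hpair hd
      obtain ⟨a', b', h1, h2⟩ := exists_full_cyc hG hab hcyc h4
      rw [hd]
      exact (full_iff ![a', b'] (by rw [range_pair, h1])).mpr h2
    · obtain ⟨a, b, hab⟩ := hpair hd
      rw [hd]
      exact (full_iff ![a, b] (by rw [range_pair, hab])).mpr (full_elem hsq h4 hab)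

/-- the finite `p`-groups whose group of class-preserving automorphisms has order
`|γ₂(G)| ^ d(G)`, and a reformulation of the condition in class at most two -/
theorem result (p : ℕ) (hp : p.Prime) (G : Type) [Group G] [Finite G] (hG : IsPGroup p G) :
    (Nat.card (AutC G) = Nat.card (commutator G) ^ Group.rank G ↔
      ((∀ a b c : G, ⁅⁅a, b⁆, c⁆ = 1) ∧
        ∀ x : G, x ∉ frattini G → ∀ y : G, IsConj x y ↔ x⁻¹ * y ∈ commutator G) ∨
      (Group.rank G = 2 ∧ IsCyclic (commutator G) ∧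
        (p = 2 → ∀ a ∈ commutator G, ∀ g : G, ∃ b ∈ commutator G, ⁅a, g⁆ = b ^ 4)) ∨
      (p = 2 ∧ Group.rank G = 2 ∧ (∀ a ∈ commutator G, a ^ 2 = 1) ∧
        ∀ a b c e : G, ⁅⁅⁅a, b⁆, c⁆, e⁆ = 1)) ∧
    ((∀ a b c : G, ⁅⁅a, b⁆, c⁆ = 1) →
      ((∀ x : G, x ∉ frattini G → ∀ y : G, IsConj x y ↔ x⁻¹ * y ∈ commutator G) ↔
        ∀ N : Subgroup G, N < commutator G → ∀ x : G, (∀ g : G, ⁅x, g⁆ ∈ N) →
          x ∈ frattini G)) :=
  ⟨characterisation p hp G hG, reformulate G⟩

end Pool.Agent.N47.AC.Answer
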